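import Pool.Agent.CS4.Defs

/-!
CS4-Bes: existence of the second profile (technique of `Pool/Agent/Neu/Bes.lean`).
-/

set_option autoImplicit false

open MeasureTheory Set
open Pool.Agent.Neu

namespace Pool.Agent.CS4

section Aux
open Filter Topology Finset
open scoped Nat

/-- power series -/
private noncomputable def bps (a : ℕ → ℝ) (x : ℝ) : ℝ := ∑' k, a k * x ^ k

/-- coefficients of the derivative -/
private noncomputable def bsh (a : ℕ → ℝ) (k : ℕ) : ℝ := ((k : ℝ) + 1) * a (k + 1)

private theorem bsh_bd {a : ℕ → ℝ} (h : ∀ k, |a k| ≤ 1 / (k ! : ℝ)) (k : ℕ) :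
    |bsh a k| ≤ 1 / (k ! : ℝ) := by
  unfold bsh
  have hk : (0 : ℝ) < (k : ℝ) + 1 := by positivity
  have h1 := h (k + 1)
  rw [abs_mul, abs_of_pos hk]
  calc ((k : ℝ) + 1) * |a (k + 1)| ≤ ((k : ℝ) + 1) * (1 / ((k + 1)! : ℝ)) :=
        mul_le_mul_of_nonneg_left h1 hk.le
    _ = 1 / (k ! : ℝ) := by
        rw [Nat.factorial_succ]
        push_cast
        have : (k ! : ℝ) ≠ 0 := by positivity
        field_simp

private theorem bps_summable {a : ℕ → ℝ} (h : ∀ k, |a k| ≤ 1 / (k ! : ℝ)) (x : ℝ) :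
    Summable (fun k => a k * x ^ k) := by
  refine Summable.of_norm_bounded (Real.summable_pow_div_factorial |x|) (fun k => ?_)
  rw [Real.norm_eq_abs, abs_mul, abs_pow]
  calc |a k| * |x| ^ k ≤ 1 / (k ! : ℝ) * |x| ^ k :=
        mul_le_mul_of_nonneg_right (h k) (by positivity)
    _ = |x| ^ k / (k ! : ℝ) := by ring

private theorem bps_hasDerivAt {a : ℕ → ℝ} (h : ∀ k, |a k| ≤ 1 / (k ! : ℝ)) (x : ℝ) :
    HasDerivAt (bps a) (bps (bsh a) x) x := by
  set R : ℝ := |x| + 1 with hR
  have hR0 : 0 < R := by positivity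
  have hu : Summable (fun n : ℕ => (n : ℝ) * R ^ (n - 1) / (n ! : ℝ)) := by
    rw [← summable_nat_add_iff 1]
    refine (Real.summable_pow_div_factorial R).congr (fun n => ?_)
    rw [Nat.add_sub_cancel, Nat.factorial_succ]
    push_cast
    have : (n ! : ℝ) ≠ 0 := by positivity
    field_simp
  have hx : x ∈ Metric.ball (0 : ℝ) R := by
    rw [mem_ball_zero_iff, Real.norm_eq_abs, hR]
    linarith
  have key := hasDerivAt_tsum_of_isPreconnected (𝕜 := ℝ)
    (g := fun (n : ℕ) (y : ℝ) => a n * y ^ n)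
    (g' := fun (n : ℕ) (y : ℝ) => a n * ((n : ℝ) * y ^ (n - 1))) hu (t := Metric.ball (0 : ℝ) R)
    Metric.isOpen_ball (convex_ball (0 : ℝ) R).isPreconnected
    (fun n y _ => (hasDerivAt_pow n y).const_mul (a n))
    (fun n y hy => by
      rw [mem_ball_zero_iff, Real.norm_eq_abs] at hy
      rw [Real.norm_eq_abs, abs_mul, abs_mul, abs_pow, Nat.abs_cast]
      calc |a n| * ((n : ℝ) * |y| ^ (n - 1)) ≤ 1 / (n ! : ℝ) * ((n : ℝ) * R ^ (n - 1)) := by
            refine mul_le_mul (h n) ?_ (by positivity) (by positivity)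
            exact mul_le_mul_of_nonneg_left (pow_le_pow_left₀ (abs_nonneg y) hy.le _)
              (by positivity)
        _ = (n : ℝ) * R ^ (n - 1) / (n ! : ℝ) := by ring)
    hx (bps_summable h x) hx
  have e : ∑' n : ℕ, a n * ((n : ℝ) * x ^ (n - 1)) = bps (bsh a) x := by
    have hs : Summable (fun n : ℕ => a n * ((n : ℝ) * x ^ (n - 1))) := by
      rw [← summable_nat_add_iff 1]
      refine (bps_summable (bsh_bd h) x).congr (fun n => ?_)
      unfold bsh
      rw [Nat.add_sub_cancel]
      push_cast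
      ring
    rw [hs.tsum_eq_zero_add]
    unfold bps
    have e0 : a 0 * (((0 : ℕ) : ℝ) * x ^ (0 - 1)) = 0 := by simp
    rw [e0, zero_add]
    refine tsum_congr (fun n => ?_)
    unfold bsh
    rw [Nat.add_sub_cancel]
    push_cast
    ring
  rw [e] at key
  exact key

/-- coefficients of `J` -/
private noncomputable def bc (k : ℕ) : ℝ := (-1) ^ k * (2 / ((k ! : ℝ) * ((k + 2)! : ℝ)))

private theorem bc_bd (k : ℕ) : |bc k| ≤ 1 / (k ! : ℝ) := by
  unfold bc
  rw [abs_mul, abs_pow, abs_neg, abs_one, one_pow, one_mul, abs_of_pos (by positivity)]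
  have h2 : (2 : ℝ) ≤ ((k + 2)! : ℝ) := by
    have h : 2 ! ≤ (k + 2)! := Nat.factorial_le (by omega)
    exact_mod_cast h
  have h3 : (0 : ℝ) < (k ! : ℝ) := by positivity
  rw [div_le_div_iff₀ (by positivity) h3]
  nlinarith

private theorem bc_succ (k : ℕ) :
    bc (k + 1) * (((k : ℝ) + 1) * ((k : ℝ) + 3)) = - bc k := by
  unfold bc
  rw [Nat.factorial_succ (k + 2), Nat.factorial_succ k, pow_succ]
  push_cast
  have : (k ! : ℝ) ≠ 0 := by positivity
  have : ((k + 2)! : ℝ) ≠ 0 := by positivity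
  field_simp
  ring

private noncomputable def bj (x : ℝ) : ℝ := bps bc x
private noncomputable def bj1 (x : ℝ) : ℝ := bps (bsh bc) x
private noncomputable def bj2 (x : ℝ) : ℝ := bps (bsh (bsh bc)) x

private theorem bj_deriv (x : ℝ) : HasDerivAt bj (bj1 x) x := bps_hasDerivAt bc_bd x
private theorem bj1_deriv (x : ℝ) : HasDerivAt bj1 (bj2 x) x := bps_hasDerivAt (bsh_bd bc_bd) x

private theorem bj_ode (x : ℝ) : x * bj2 x + 3 * bj1 x + bj x = 0 := by
  have h2 : HasSum (fun k => bsh (bsh bc) k * x ^ k) (bj2 x) :=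
    (bps_summable (bsh_bd (bsh_bd bc_bd)) x).hasSum
  have h1 : HasSum (fun k => bsh bc k * x ^ k) (bj1 x) :=
    (bps_summable (bsh_bd bc_bd) x).hasSum
  have h0 : HasSum (fun k => bc k * x ^ k) (bj x) := (bps_summable bc_bd x).hasSum
  have h2' := h2.mul_left x
  have h1' := (hasSum_nat_add_iff' 1).2 h1
  have h0' := (hasSum_nat_add_iff' 1).2 h0
  have hs := (h2'.add (h1'.mul_left 3)).add h0'
  have hz : (fun k => x * (bsh (bsh bc) k * x ^ k) + 3 * (bsh bc (k + 1) * x ^ (k + 1)) +
      bc (k + 1) * x ^ (k + 1)) = fun _ => (0 : ℝ) := by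
    funext k
    have e := bc_succ (k + 1)
    unfold bsh
    push_cast at e ⊢
    have e' : bc (k + 1) = - (bc (k + 1 + 1) * (((k : ℝ) + 1 + 1) * ((k : ℝ) + 1 + 3))) := by
      linarith
    rw [e']
    ring
  rw [hz] at hs
  have h3 := hs.unique hasSum_zero
  simp only [Finset.sum_range_one, pow_zero, mul_one] at h3
  have e0 : bc 0 = 1 := by unfold bc; norm_num [Nat.factorial]
  have e1 : bsh bc 0 = -1 / 3 := by
    unfold bsh bc
    norm_num [Nat.factorial]
  rw [e0, e1] at h3
  linarith

/-- positive terms of `J` -/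
private noncomputable def bf (x : ℝ) (k : ℕ) : ℝ := 2 / ((k ! : ℝ) * ((k + 2)! : ℝ)) * x ^ k

/-- positive terms of `-J'` -/
private noncomputable def bg (x : ℝ) (k : ℕ) : ℝ :=
  ((k : ℝ) + 1) * (2 / (((k + 1)! : ℝ) * ((k + 1 + 2)! : ℝ))) * x ^ k

/-- positive terms of `J''` -/
private noncomputable def bh (x : ℝ) (k : ℕ) : ℝ :=
  ((k : ℝ) + 1) * ((k : ℝ) + 2) * (2 / (((k + 2)! : ℝ) * ((k + 2 + 2)! : ℝ))) * x ^ k

private theorem bf_anti {x : ℝ} (h0 : 0 ≤ x) (h1 : x ≤ 12 / 5) : Antitone (bf x) := by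
  refine antitone_nat_of_succ_le (fun n => ?_)
  have e : bf x (n + 1) = bf x n * (x / (((n : ℝ) + 1) * ((n : ℝ) + 3))) := by
    unfold bf
    rw [Nat.factorial_succ (n + 2), Nat.factorial_succ n, pow_succ]
    push_cast
    have : (n ! : ℝ) ≠ 0 := by positivity
    have : ((n + 2)! : ℝ) ≠ 0 := by positivity
    field_simp
    ring
  have hp : 0 ≤ bf x n := by unfold bf; positivity
  rw [e]
  refine mul_le_of_le_one_right hp ?_
  rw [div_le_one (by positivity)]
  have : (0 : ℝ) ≤ n := by positivity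
  nlinarith

private theorem bg_anti {x : ℝ} (h0 : 0 ≤ x) (h1 : x ≤ 12 / 5) : Antitone (bg x) := by
  refine antitone_nat_of_succ_le (fun n => ?_)
  have e : bg x (n + 1) = bg x n * (x / (((n : ℝ) + 1) * ((n : ℝ) + 4))) := by
    unfold bg
    rw [Nat.factorial_succ (n + 1 + 2), Nat.factorial_succ (n + 1), pow_succ]
    push_cast
    have : ((n + 1)! : ℝ) ≠ 0 := by positivity
    have : ((n + 1 + 2)! : ℝ) ≠ 0 := by positivity
    field_simp
    ring
  have hp : 0 ≤ bg x n := by unfold bg; positivity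
  rw [e]
  refine mul_le_of_le_one_right hp ?_
  rw [div_le_one (by positivity)]
  have : (0 : ℝ) ≤ n := by positivity
  nlinarith

private theorem bh_anti {x : ℝ} (h0 : 0 ≤ x) (h1 : x ≤ 12 / 5) : Antitone (bh x) := by
  refine antitone_nat_of_succ_le (fun n => ?_)
  have e : bh x (n + 1) = bh x n * (x / (((n : ℝ) + 1) * ((n : ℝ) + 5))) := by
    unfold bh
    rw [show n + 1 + 2 = (n + 2) + 1 from rfl, show n + 2 + 1 + 2 = (n + 2 + 2) + 1 from rfl,
      Nat.factorial_succ (n + 2 + 2), Nat.factorial_succ (n + 2), pow_succ]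
    push_cast
    have : ((n + 2)! : ℝ) ≠ 0 := by positivity
    have : ((n + 2 + 2)! : ℝ) ≠ 0 := by positivity
    field_simp
    ring
  have hp : 0 ≤ bh x n := by unfold bh; positivity
  rw [e]
  refine mul_le_of_le_one_right hp ?_
  rw [div_le_one (by positivity)]
  have : (0 : ℝ) ≤ n := by positivity
  nlinarith

private theorem bf_tend (x : ℝ) :
    Tendsto (fun n => ∑ i ∈ range n, (-1) ^ i * bf x i) atTop (𝓝 (bj x)) := by
  have h0 : HasSum (fun k => bc k * x ^ k) (bj x) := (bps_summable bc_bd x).hasSum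
  refine h0.tendsto_sum_nat.congr (fun n => Finset.sum_congr rfl (fun i _ => ?_))
  unfold bc bf
  ring

private theorem bg_tend (x : ℝ) :
    Tendsto (fun n => ∑ i ∈ range n, (-1) ^ i * bg x i) atTop (𝓝 (-bj1 x)) := by
  have h0 : HasSum (fun k => bsh bc k * x ^ k) (bj1 x) := (bps_summable (bsh_bd bc_bd) x).hasSum
  refine h0.neg.tendsto_sum_nat.congr (fun n => Finset.sum_congr rfl (fun i _ => ?_))
  unfold bsh bc bg
  ring

private theorem bh_tend (x : ℝ) :
    Tendsto (fun n => ∑ i ∈ range n, (-1) ^ i * bh x i) atTop (𝓝 (bj2 x)) := by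
  have h0 : HasSum (fun k => bsh (bsh bc) k * x ^ k) (bj2 x) :=
    (bps_summable (bsh_bd (bsh_bd bc_bd)) x).hasSum
  refine h0.tendsto_sum_nat.congr (fun n => Finset.sum_congr rfl (fun i _ => ?_))
  unfold bsh bc bh
  push_cast
  ring

private theorem bj_pos {x : ℝ} (h0 : 0 ≤ x) (h1 : x ≤ 12 / 5) : 1 / 5 ≤ bj x := by
  have := (bf_anti h0 h1).alternating_series_le_tendsto (bf_tend x) 1
  simp only [Finset.sum_range_succ, Finset.sum_range_zero, bf] at this
  norm_num [Nat.factorial] at this
  linarith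

private theorem bj1_nonpos {x : ℝ} (h0 : 0 ≤ x) (h1 : x ≤ 12 / 5) : bj1 x ≤ 0 := by
  have a1 := (bg_anti h0 h1).alternating_series_le_tendsto (bg_tend x) 1
  simp only [Finset.sum_range_succ, Finset.sum_range_zero, bg] at a1
  norm_num [Nat.factorial] at a1
  linarith

private theorem bj12_nonpos {x : ℝ} (h0 : 0 ≤ x) (h1 : x ≤ 12 / 5) : bj1 x + bj2 x ≤ 0 := by
  have a1 := (bg_anti h0 h1).alternating_series_le_tendsto (bg_tend x) 1
  have a2 := (bh_anti h0 h1).tendsto_le_alternating_series (bh_tend x) 0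
  simp only [Finset.sum_range_succ, Finset.sum_range_zero, bg, bh] at a1 a2
  norm_num [Nat.factorial] at a1 a2
  linarith

/-- `(x J)'` -/
private noncomputable def bD (x : ℝ) : ℝ := bj x + x * bj1 x

private theorem bD_lo : 0 < bD (93 / 40) := by
  have h0 : (0 : ℝ) ≤ 93 / 40 := by norm_num
  have h1 : (93 / 40 : ℝ) ≤ 12 / 5 := by norm_num
  have a1 := (bf_anti h0 h1).alternating_series_le_tendsto (bf_tend _) 3
  have a2 := (bg_anti h0 h1).tendsto_le_alternating_series (bg_tend _) 2
  simp only [Finset.sum_range_succ, Finset.sum_range_zero, bf, bg] at a1 a2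
  norm_num [Nat.factorial] at a1 a2
  unfold bD
  linarith

private theorem bD_hi : bD (467 / 200) < 0 := by
  have h0 : (0 : ℝ) ≤ 467 / 200 := by norm_num
  have h1 : (467 / 200 : ℝ) ≤ 12 / 5 := by norm_num
  have a1 := (bf_anti h0 h1).tendsto_le_alternating_series (bf_tend _) 2
  have a2 := (bg_anti h0 h1).alternating_series_le_tendsto (bg_tend _) 3
  simp only [Finset.sum_range_succ, Finset.sum_range_zero, bf, bg] at a1 a2
  norm_num [Nat.factorial] at a1 a2
  unfold bD
  linarith

private theorem bD_deriv (x : ℝ) : HasDerivAt bD (-(bj x + bj1 x)) x := by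
  have h := (bj_deriv x).add ((hasDerivAt_id x).mul (bj1_deriv x))
  have e : bj1 x + (1 * bj1 x + id x * bj2 x) = -(bj x + bj1 x) := by
    have := bj_ode x
    simp only [id]
    linarith
  rw [e] at h
  exact h

private theorem bj_cont : Continuous bj :=
  continuous_iff_continuousAt.2 fun x => (bj_deriv x).continuousAt
private theorem bj1_cont : Continuous bj1 :=
  continuous_iff_continuousAt.2 fun x => (bj1_deriv x).continuousAt
private theorem bD_cont : Continuous bD :=
  continuous_iff_continuousAt.2 fun x => (bD_deriv x).continuousAt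

private theorem bj_anti : AntitoneOn bj (Icc 0 (12 / 5)) := by
  refine antitoneOn_of_deriv_nonpos (convex_Icc _ _) bj_cont.continuousOn
    (fun x _ => (bj_deriv x).differentiableAt.differentiableWithinAt) (fun x hx => ?_)
  rw [interior_Icc] at hx
  rw [(bj_deriv x).deriv]
  exact bj1_nonpos hx.1.le hx.2.le

private theorem bs_anti : AntitoneOn (fun x => bj x + bj1 x) (Icc 0 (12 / 5)) := by
  have hd : ∀ x, HasDerivAt (fun x => bj x + bj1 x) (bj1 x + bj2 x) x := fun x =>
    (bj_deriv x).add (bj1_deriv x)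
  refine antitoneOn_of_deriv_nonpos (convex_Icc _ _) (bj_cont.add bj1_cont).continuousOn
    (fun x _ => (hd x).differentiableAt.differentiableWithinAt) (fun x hx => ?_)
  rw [interior_Icc] at hx
  rw [(hd x).deriv]
  exact bj12_nonpos hx.1.le hx.2.le

private theorem bK_exists : ∃ K : ℝ, 93 / 40 < K ∧ K < 467 / 200 ∧ bD K = 0 := by
  have h1 := bD_lo
  have h2 := bD_hi
  have hiv := intermediate_value_Icc' (f := bD) (a := 93 / 40) (b := 467 / 200) (by norm_num)
    bD_cont.continuousOn
  obtain ⟨K, hK, hK0⟩ := hiv ⟨h2.le, h1.le⟩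
  refine ⟨K, ?_, ?_, hK0⟩
  · rcases eq_or_lt_of_le hK.1 with h | h
    · rw [← h] at hK0
      rw [hK0] at h1
      exact absurd h1 (lt_irrefl _)
    · exact h
  · rcases eq_or_lt_of_le hK.2 with h | h
    · rw [h] at hK0
      rw [hK0] at h2
      exact absurd h2 (lt_irrefl _)
    · exact h

private noncomputable def bphi (K s : ℝ) : ℝ :=
  if s ≤ 1 then bj (K * s) / bj K else 1 / s

private noncomputable def bpsi (K s : ℝ) : ℝ :=
  if s ≤ 1 then K * bj1 (K * s) / bj K else -1 / s ^ 2

private theorem bpsi_cont {K : ℝ} (h : K * bj1 K / bj K = -1) : Continuous (bpsi K) := by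
  have e : bpsi K = fun s => K * bj1 (K * min s 1) / bj K +
      (1 - 1 / (max s 1) ^ 2) := by
    funext s
    unfold bpsi
    split_ifs with hs
    · rw [min_eq_left hs, max_eq_right hs]
      norm_num
    · have hs' : 1 ≤ s := (not_le.1 hs).le
      rw [min_eq_right hs', max_eq_left hs', mul_one, h]
      ring
  rw [e]
  have c1 : Continuous (fun s : ℝ => bj1 (K * min s 1)) :=
    bj1_cont.comp (continuous_const.mul (continuous_id.min continuous_const))
  have c2 : Continuous (fun s : ℝ => max s (1 : ℝ)) := continuous_id.max continuous_const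
  have c3 : Continuous (fun s : ℝ => (max s 1) ^ 2) := c2.pow 2
  have c4 : ∀ s : ℝ, (max s 1) ^ 2 ≠ 0 := by
    intro s
    have h1 : (0 : ℝ) < max s 1 := lt_of_lt_of_le one_pos (le_max_right _ _)
    positivity
  exact ((continuous_const.mul c1).div_const _).add
    (continuous_const.sub (continuous_const.div c3 c4))

private theorem binner_deriv (K s : ℝ) :
    HasDerivAt (fun t => bj (K * t) / bj K) (K * bj1 (K * s) / bj K) s := by
  have h1 : HasDerivAt (fun t : ℝ => K * t) K s := by
    simpa using (hasDerivAt_id s).const_mul K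
  have h2 := ((bj_deriv (K * s)).comp s h1).div_const (bj K)
  rw [mul_comm (bj1 (K * s)) K] at h2
  exact h2

private theorem bouter_deriv {s : ℝ} (hs : 0 < s) :
    HasDerivAt (fun t => 1 / t) (-1 / s ^ 2) s := by
  have h1 := hasDerivAt_inv hs.ne'
  have e : -(s ^ 2)⁻¹ = -1 / s ^ 2 := by
    rw [neg_div, one_div]
  rw [e] at h1
  refine h1.congr_of_eventuallyEq (Eventually.of_forall fun t => ?_)
  simp

private theorem bphi_deriv {K : ℝ} (hK : bj K ≠ 0) (h : K * bj1 K / bj K = -1) (s : ℝ) :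
    HasDerivAt (bphi K) (bpsi K s) s := by
  rcases lt_trichotomy s 1 with hs | hs | hs
  · have e : bpsi K s = K * bj1 (K * s) / bj K := if_pos hs.le
    rw [e]
    refine (binner_deriv K s).congr_of_eventuallyEq ?_
    filter_upwards [Iio_mem_nhds hs] with t ht
    exact if_pos (le_of_lt ht)
  · subst hs
    have e : bpsi K 1 = K * bj1 (K * 1) / bj K := if_pos le_rfl
    have a1 : HasDerivWithinAt (bphi K) (bpsi K 1) (Iic 1) 1 := by
      rw [e]
      refine (binner_deriv K 1).hasDerivWithinAt.congr (fun t ht => if_pos ht) (if_pos le_rfl)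
    have a2 : HasDerivWithinAt (bphi K) (bpsi K 1) (Ici 1) 1 := by
      have e2 : bpsi K 1 = -1 / 1 ^ 2 := by
        rw [e, mul_one, h]
        norm_num
      have e3 : bphi K 1 = 1 / 1 := by
        unfold bphi
        rw [if_pos le_rfl, mul_one, div_self hK, one_div_one]
      rw [e2]
      refine (bouter_deriv one_pos).hasDerivWithinAt.congr (fun t ht => ?_) e3
      rcases eq_or_lt_of_le (show (1 : ℝ) ≤ t from ht) with h1 | h1
      · rw [← h1]
        exact e3
      · exact if_neg (not_le.2 h1)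
    have a3 := a1.union a2
    rw [Iic_union_Ici] at a3
    exact hasDerivWithinAt_univ.1 a3
  · have e : bpsi K s = -1 / s ^ 2 := if_neg (not_le.2 hs)
    rw [e]
    refine (bouter_deriv (one_pos.trans hs)).congr_of_eventuallyEq ?_
    filter_upwards [Ioi_mem_nhds hs] with t ht
    exact if_neg (not_le.2 ht)

end Aux

theorem exists_prof2 : ∃ (L : ℝ) (χ ω : ℝ → ℝ), Prof2 L χ ω := by
  obtain ⟨K, hlo, hhi, hF⟩ := bK_exists
  have hK0 : 0 < K := by linarith
  have hK1 : K ≤ 12 / 5 := by linarith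
  have hKi : K ∈ Icc (0 : ℝ) (12 / 5) := ⟨hK0.le, hK1⟩
  have hjK := bj_pos hK0.le hK1
  have hjp : 0 < bj K := by linarith
  have hd : K * bj1 K / bj K = -1 := by
    unfold bD at hF
    rw [div_eq_iff hjp.ne']
    linarith
  have hd' : K * bj1 K = -bj K := by
    unfold bD at hF
    linarith
  have hmem : ∀ s ∈ Icc (0 : ℝ) 1, K * s ∈ Icc (0 : ℝ) (12 / 5) ∧ K * s ≤ K := by
    intro s hs
    have h1 : K * s ≤ K := mul_le_of_le_one_right hK0.le hs.2
    exact ⟨⟨mul_nonneg hK0.le hs.1, h1.trans hK1⟩, h1⟩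
  have hin : ∀ s, s ≤ 1 → bphi K s = bj (K * s) / bj K := fun s hs => if_pos hs
  have hinp : ∀ s, s ≤ 1 → bpsi K s = K * bj1 (K * s) / bj K := fun s hs => if_pos hs
  have hder := bphi_deriv hjp.ne' hd
  -- `bD (K t) ≥ bj K (1 - t)`
  have hG : ∀ t ∈ Icc (0 : ℝ) 1, bj K * (1 - t) ≤ bD (K * t) := by
    have hGd : ∀ t, HasDerivAt (fun t => bD (K * t) - bj K * (1 - t))
        (-(bj (K * t) + bj1 (K * t)) * K + bj K) t := by
      intro t
      have h1 : HasDerivAt (fun t : ℝ => K * t) K t := by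
        simpa using (hasDerivAt_id t).const_mul K
      have h2 := (bD_deriv (K * t)).comp t h1
      have h3 : HasDerivAt (fun t : ℝ => bj K * (1 - t)) (bj K * (-1)) t := by
        have := ((hasDerivAt_id t).const_sub 1).const_mul (bj K)
        simpa using this
      have h4 := h2.sub h3
      have e : -(bj (K * t) + bj1 (K * t)) * K - bj K * (-1) =
          -(bj (K * t) + bj1 (K * t)) * K + bj K := by ring
      rw [e] at h4
      exact h4
    have hanti : AntitoneOn (fun t => bD (K * t) - bj K * (1 - t)) (Icc 0 1) := by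
      refine antitoneOn_of_deriv_nonpos (convex_Icc _ _)
        (fun t _ => (hGd t).continuousAt.continuousWithinAt)
        (fun t _ => (hGd t).differentiableAt.differentiableWithinAt) (fun t ht => ?_)
      rw [interior_Icc] at ht
      rw [(hGd t).deriv]
      obtain ⟨h1, h2⟩ := hmem t ⟨ht.1.le, ht.2.le⟩
      have h3 : bj K + bj1 K ≤ bj (K * t) + bj1 (K * t) := bs_anti h1 hKi h2
      have h4 : (bj K + bj1 K) * K ≤ (bj (K * t) + bj1 (K * t)) * K :=
        mul_le_mul_of_nonneg_right h3 hK0.le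
      have h5 : 2 * bj K ≤ K * bj K := mul_le_mul_of_nonneg_right (by linarith) hjp.le
      nlinarith
    intro t ht
    have h1 := hanti ht ⟨zero_le_one, le_rfl⟩ ht.2
    simp only [mul_one, sub_self, mul_zero, hF] at h1
    linarith
  refine ⟨4 * K, bphi K, bpsi K, by linarith, by linarith, hder, bpsi_cont hd, ?_, ?_, ?_, ?_,
    ?_⟩
  · intro s hs
    rcases eq_or_lt_of_le hs with h1 | h1
    · rw [← h1, hin 1 le_rfl, mul_one, div_self hjp.ne', one_div_one]
    · exact if_neg (not_le.2 h1)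
  · intro s hs
    rcases eq_or_lt_of_le hs with h1 | h1
    · rw [← h1, hinp 1 le_rfl, mul_one, hd]
      norm_num
    · exact if_neg (not_le.2 h1)
  · intro s hs
    obtain ⟨h1, h2⟩ := hmem s hs
    rw [hin s hs.2, le_div_iff₀ hjp, one_mul]
    exact bj_anti h1 hKi h2
  · intro s hs
    have hHd : ∀ t, HasDerivAt (fun t => t * bphi K t + (1 - t) ^ 2 / 2)
        (bphi K t + t * bpsi K t - (1 - t)) t := by
      intro t
      have h1 := (hasDerivAt_id t).mul (hder t)
      have h2 : HasDerivAt (fun t : ℝ => (1 - t) ^ 2 / 2) (-(1 - t)) t := by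
        have h3 := (((hasDerivAt_id t).const_sub 1).pow 2).div_const 2
        have e : ((2 : ℕ) : ℝ) * (1 - id t) ^ (2 - 1) * -1 / 2 = -(1 - t) := by
          simp only [id]
          norm_num
          ring
        rw [e] at h3
        exact h3
      have h4 := h1.add h2
      have e : 1 * bphi K t + id t * bpsi K t + -(1 - t) =
          bphi K t + t * bpsi K t - (1 - t) := by
        simp only [id]
        ring
      rw [e] at h4
      exact h4
    have hmono : MonotoneOn (fun t => t * bphi K t + (1 - t) ^ 2 / 2) (Icc 0 1) := by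
      refine monotoneOn_of_deriv_nonneg (convex_Icc _ _)
        (fun t _ => (hHd t).continuousAt.continuousWithinAt)
        (fun t _ => (hHd t).differentiableAt.differentiableWithinAt) (fun t ht => ?_)
      rw [interior_Icc] at ht
      rw [(hHd t).deriv, hin t ht.2.le, hinp t ht.2.le]
      have h1 := hG t ⟨ht.1.le, ht.2.le⟩
      have e : bj (K * t) / bj K + t * (K * bj1 (K * t) / bj K) = bD (K * t) / bj K := by
        unfold bD
        ring
      rw [e]
      have h2 : 1 - t ≤ bD (K * t) / bj K := by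
        rw [le_div_iff₀ hjp, mul_comm]
        exact h1
      linarith
    have h1 := hmono hs ⟨zero_le_one, le_rfl⟩ hs.2
    have h2 : bphi K 1 = 1 := by rw [hin 1 le_rfl, mul_one, div_self hjp.ne']
    simp only [h2] at h1
    norm_num at h1
    linarith
  · intro s hs
    have h1 : HasDerivAt (fun t : ℝ => K * t) K s := by
      simpa using (hasDerivAt_id s).const_mul K
    have h2 : HasDerivAt (fun t => K * bj1 (K * t) / bj K) (K * (bj2 (K * s) * K) / bj K) s :=
      (((bj1_deriv (K * s)).comp s h1).const_mul K).div_const (bj K)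
    have h3 := (hasDerivAt_pow 3 s).mul h2
    have e : ((3 : ℕ) : ℝ) * s ^ (3 - 1) * (K * bj1 (K * s) / bj K) +
        s ^ 3 * (K * (bj2 (K * s) * K) / bj K) = -(4 * K / 4) * (s ^ 2 * bphi K s) := by
      have ho := bj_ode (K * s)
      have ho' : bj (K * s) = -(K * s * bj2 (K * s) + 3 * bj1 (K * s)) := by linarith
      rw [hin s hs.le, ho']
      norm_num
      field_simp
      ring
    rw [e] at h3
    refine h3.congr_of_eventuallyEq ?_
    filter_upwards [Iio_mem_nhds hs] with t ht
    show t ^ 3 * bpsi K t = t ^ 3 * (K * bj1 (K * t) / bj K)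
    rw [hinp t (le_of_lt ht)]

end Pool.Agent.CS4
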