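import Pool.Agent.CS4.Defs
import Pool.Agent.Neu.Pt
import Pool.Agent.Neu.Ode
import Pool.Agent.Neu.Main1

/-!
CS4-Pt: continuity and the two pointwise inequalities.
-/

set_option autoImplicit false

open MeasureTheory Set
open Pool.Agent.Neu

namespace Pool.Agent.CS4

section
variable {K L : ℝ} {φ ψ χ ω : ℝ → ℝ}

theorem cont_bb (i : Fin 2) : Continuous (bb i) := by
  unfold bb
  split_ifs <;> fun_prop

private theorem pt_chi (h2 : Prof2 L χ ω) : Continuous χ :=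
  continuous_iff_continuousAt.2 fun s => (h2.deriv s).continuousAt

theorem cont_vv (h2 : Prof2 L χ ω) (i : Fin 2) : Continuous (vv χ i) := by
  unfold vv
  exact ((pt_chi h2).comp M1x.cont_sq).mul (cont_bb i)

theorem cont_eV (h2 : Prof2 L χ ω) (p q r : ℝ) : Continuous (eV χ ω p q r) := by
  have h1 : Continuous fun y : E => χ (sq y) := (pt_chi h2).comp M1x.cont_sq
  have h3 : Continuous fun y : E => ω (sq y) := h2.cont.comp M1x.cont_sq
  have h4 : Continuous (sq : E → ℝ) := M1x.cont_sq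
  have h5 := M1x.cont_N p q r
  unfold eV
  exact (((continuous_const.mul h4).mul continuous_const).mul ((h1.add (h4.mul h3)).pow 2)).sub
    ((((continuous_const.mul h4).mul h3).mul ((continuous_const.mul h1).add (h4.mul h3))).mul h5)

theorem cont_qV (h : Prof K φ ψ) (h2 : Prof2 L χ ω) (β p q r : ℝ) :
    Continuous (qV β φ χ ω p q r) := by
  have h1 : Continuous fun y : E => φ (sq y) := h.phi_cont.comp M1x.cont_sq
  have h4 : Continuous (sq : E → ℝ) := M1x.cont_sq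
  have h5 := M1x.cont_N p q r
  unfold qV
  exact ((cont_eV h2 p q r).sub (continuous_const.mul h5)).add
    ((continuous_const.mul (h1.pow 2)).mul ((continuous_const.mul h4).sub h5))

private theorem pt_in_alg {s τ c o f β μ : ℝ} (hs0 : 0 ≤ s) (hc : 1 ≤ c) (hf : 1 ≤ f)
    (hG : s * f ^ 2 ≤ 1) (hβ : 4 ≤ β) (hμ : 0 ≤ μ) (hμτ : μ ≤ τ) :
    τ / 2 * (4 - β) ≤ 4 * s * τ * (c + s * o) ^ 2 - 4 * s * o * (2 * c + s * o) * (μ * s)
      - β * (μ * s) + (4 - β) * f ^ 2 * (τ / 2 * s - μ * s) := by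
  have key : 4 * s * τ * (c + s * o) ^ 2 - 4 * s * o * (2 * c + s * o) * (μ * s)
      - β * (μ * s) + (4 - β) * f ^ 2 * (τ / 2 * s - μ * s) - τ / 2 * (4 - β) =
      4 * (s * (c + s * o) ^ 2 * (τ - μ)) + 4 * (μ * s * (c ^ 2 - 1)) +
        (β - 4) * (τ * (1 - s * f ^ 2) / 2 + μ * (s * (f ^ 2 - 1))) := by ring
  have hτ : 0 ≤ τ := le_trans hμ hμτ
  have hc2 : 0 ≤ c ^ 2 - 1 := by nlinarith
  have hf2 : 0 ≤ f ^ 2 - 1 := by nlinarith
  have t1 : 0 ≤ s * (c + s * o) ^ 2 * (τ - μ) :=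
    mul_nonneg (mul_nonneg hs0 (_root_.sq_nonneg _)) (sub_nonneg.2 hμτ)
  have t2 : 0 ≤ μ * s * (c ^ 2 - 1) := mul_nonneg (mul_nonneg hμ hs0) hc2
  have t3 : 0 ≤ τ * (1 - s * f ^ 2) := mul_nonneg hτ (sub_nonneg.2 hG)
  have t4 : 0 ≤ μ * (s * (f ^ 2 - 1)) := mul_nonneg hμ (mul_nonneg hs0 hf2)
  have t5 : 0 ≤ (β - 4) * (τ * (1 - s * f ^ 2) / 2 + μ * (s * (f ^ 2 - 1))) :=
    mul_nonneg (sub_nonneg.2 hβ) (by linarith)
  linarith

theorem qV_in (h : Prof K φ ψ) (h2 : Prof2 L χ ω) {p q r : ℝ} (hp : 0 ≤ p) (hr : 0 ≤ r)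
    (hd : q ^ 2 ≤ p * r) {y : E} (hy : sq y ≤ 1) :
    (p + r) / 2 * (4 - 2 * (L - 4)) ≤ qV (2 * (L - 4)) φ χ ω p q r y := by
  have hN := N_nonneg hp hr hd y
  have hNl := N_le hp hr hd y
  have hsq0 : 0 ≤ sq y := by exact M1x.sq_nonneg y
  have hg := h.g_le (s := sq y) ⟨hsq0, hy⟩
  have hf := h.one_le (sq y) ⟨hsq0, hy⟩
  have hc := h2.one_le (sq y) ⟨hsq0, hy⟩
  have hβ : 4 ≤ 2 * (L - 4) := by linarith [h2.L_lo]
  unfold qV eV
  generalize N p q r y = n at *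
  generalize sq y = s at *
  generalize 2 * (L - 4) = β at *
  rcases eq_or_lt_of_le hsq0 with h0 | hs
  · subst h0
    have hn0 : n = 0 := by
      apply le_antisymm _ hN
      simpa using hNl
    subst hn0
    have h3 := mul_nonneg (by linarith : 0 ≤ (p + r) / 2) (sub_nonneg.2 hβ)
    simp only [mul_zero, zero_mul, add_zero, sub_zero]
    linarith
  · obtain ⟨μ, hμ⟩ : ∃ μ, μ = n / s := ⟨_, rfl⟩
    have hn : n = μ * s := by rw [hμ]; field_simp
    have hμ0 : 0 ≤ μ := by rw [hμ]; positivity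
    have hμ1 : μ ≤ p + r := by rw [hμ, div_le_iff₀ hs]; exact hNl
    rw [hn]
    exact pt_in_alg hs.le hc hf hg hβ hμ0 hμ1

private theorem pt_out_alg {s n β : ℝ} (hs : 1 ≤ s) (hn : 0 ≤ n) (hβ : 4 ≤ β) :
    4 * (n / s ^ 2) - β * n - (4 - β) * (n / s) ≤ 0 := by
  have hs0 : 0 < s := by linarith
  obtain ⟨μ, hμ⟩ : ∃ μ, μ = n / s := ⟨_, rfl⟩
  have hn' : n = μ * s := by rw [hμ]; field_simp
  have hμ0 : 0 ≤ μ := by rw [hμ]; positivity
  have e1 : n / s ^ 2 = μ / s := by rw [hn']; field_simp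
  have e2 : μ / s ≤ μ := div_le_self hμ0 hs
  rw [e1, ← hμ, hn']
  have e3 : 0 ≤ β * (μ * (s - 1)) := mul_nonneg (by linarith) (mul_nonneg hμ0 (by linarith))
  nlinarith [e2, e3]

theorem qV_out (h : Prof K φ ψ) (h2 : Prof2 L χ ω) {p q r : ℝ} (hp : 0 ≤ p) (hr : 0 ≤ r)
    (hd : q ^ 2 ≤ p * r) {y : E} (hy : 1 ≤ sq y) :
    qV (2 * (L - 4)) φ χ ω p q r y ≤ (p + r) / 2 * (4 - 2 * (L - 4)) := by
  have hN := N_nonneg hp hr hd y
  have h1 := h.out _ hy
  have h3 := h2.out _ hy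
  have h4 := h2.outd _ hy
  have hβ : 4 ≤ 2 * (L - 4) := by linarith [h2.L_lo]
  unfold qV eV
  rw [h1, h3, h4]
  generalize N p q r y = n at *
  generalize sq y = s at *
  generalize 2 * (L - 4) = β at *
  have hs0 : 0 < s := by linarith
  have e0 : (1 / √s) ^ 2 = 1 / s := by rw [div_pow, Real.sq_sqrt hs0.le, one_pow]
  have e1 : 1 / s + s * (-1 / s ^ 2) = 0 := by field_simp; ring
  have e2 : 4 * s * (-1 / s ^ 2) * (2 * (1 / s) + s * (-1 / s ^ 2)) * n = -(4 * (n / s ^ 2)) := by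
    field_simp
    ring
  have e3 : (4 - β) * (1 / s) * ((p + r) / 2 * s - n) = (4 - β) * ((p + r) / 2) - (4 - β) * (n / s) := by
    field_simp
  rw [e0, e1, e2, e3]
  have h5 := pt_out_alg hy hN hβ
  nlinarith [h5]

end

end Pool.Agent.CS4
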