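import Pool.Agent.CS4.Defs
import Pool.Agent.Neu.Radial
import Pool.Agent.Neu.Rad
import Pool.Agent.Neu.Main1
import Pool.Agent.CS4.Pt

/-!
CS4-DI: integrals over the disc (compare `Neu/Radial.lean` (`disc_radial`, `disc_odd`, ...), `Neu/Main1.lean`
`Prof.integral_qq_disc`).

`bb i` is `N p q r` with `p + r = 0`.  With `H = s χ`, `U = s H' = s χ + s² ω`, `U' = χ - (L/4) H` the
functions `U² - H² + (L/4) s H²` and `4 H U` are primitives of `(L/4) H²` and `4 s H'² + 4 s χ² - L H²`.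
-/

set_option autoImplicit false

open MeasureTheory Set
open Pool.Agent.Neu

namespace Pool.Agent.CS4

section
variable {K L : ℝ} {φ ψ χ ω : ℝ → ℝ}

private theorem di_chi (h2 : Prof2 L χ ω) : Continuous χ :=
  continuous_iff_continuousAt.2 fun s => (h2.deriv s).continuousAt

private theorem di_U (h2 : Prof2 L χ ω) {s : ℝ} (h0 : 0 < s) (h1 : s < 1) :
    HasDerivAt (fun t => t * χ t + t ^ 2 * ω t) (χ s - L / 4 * (s * χ s)) s := by
  have e1 : HasDerivAt (fun t => t * χ t) (1 * χ s + s * ω s) s :=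
    (hasDerivAt_id s).mul (h2.deriv s)
  have e2 : HasDerivAt (fun t => t ^ 3 * ω t / t)
      ((-(L / 4) * (s ^ 2 * χ s) * s - s ^ 3 * ω s * 1) / s ^ 2) s :=
    (h2.ode s h1).div (hasDerivAt_id s) h0.ne'
  have e3 : HasDerivAt (fun t => t * χ t + t ^ 3 * ω t / t)
      (1 * χ s + s * ω s + (-(L / 4) * (s ^ 2 * χ s) * s - s ^ 3 * ω s * 1) / s ^ 2) s := e1.add e2
  refine (e3.congr_of_eventuallyEq ?_).congr_deriv ?_
  · filter_upwards [Ioi_mem_nhds h0] with t ht
    have ht' : t ≠ 0 := ne_of_gt ht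
    show t * χ t + t ^ 2 * ω t = t * χ t + t ^ 3 * ω t / t
    field_simp
  · have hs : s ≠ 0 := h0.ne'
    field_simp
    ring

private theorem di_H (h2 : Prof2 L χ ω) (s : ℝ) :
    HasDerivAt (fun t => t * χ t) (χ s + s * ω s) s := by
  have e1 : HasDerivAt (fun t => t * χ t) (1 * χ s + s * ω s) s :=
    (hasDerivAt_id s).mul (h2.deriv s)
  rwa [one_mul] at e1

private theorem di_sq {f : ℝ → ℝ} {f' s : ℝ} (h : HasDerivAt f f' s) :
    HasDerivAt (fun t => f t ^ 2) (2 * f s * f') s := by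
  have e : HasDerivAt (fun t => f t * f t) (f' * f s + f s * f') s := h.mul h
  have e2 : (fun t => f t ^ 2) = fun t => f t * f t := by
    funext t
    ring
  rw [e2]
  exact e.congr_deriv (by ring)

private theorem di_chi1 (h2 : Prof2 L χ ω) : χ 1 = 1 := by
  rw [h2.out 1 le_rfl, div_one]

private theorem di_om1 (h2 : Prof2 L χ ω) : ω 1 = -1 := by
  rw [h2.outd 1 le_rfl]
  norm_num

private theorem di_mass (h2 : Prof2 L χ ω) :
    ∫ s in (0 : ℝ)..1, (χ s * s) ^ 2 = 1 - 4 / L := by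
  have hL : 0 < L := by linarith [h2.L_lo]
  have hχ := di_chi h2
  have hω := h2.cont
  have key : ∫ s in (0 : ℝ)..1, L / 4 * (χ s * s) ^ 2 = L / 4 - 1 := by
    rw [intervalIntegral.integral_eq_sub_of_hasDerivAt_of_le
      (f := fun s : ℝ => (s * χ s + s ^ 2 * ω s) ^ 2 - (s * χ s) ^ 2 + L / 4 * (s * (s * χ s) ^ 2))
      zero_le_one (Continuous.continuousOn (by fun_prop))]
    · simp only [di_chi1 h2, di_om1 h2]
      ring
    · intro s hs
      have hU := di_sq (di_U h2 hs.1 hs.2)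
      have hH := di_sq (di_H h2 s)
      have hsH := (hasDerivAt_id s).mul hH
      have h := (hU.sub hH).add (hsH.const_mul (L / 4))
      refine h.congr_deriv ?_
      simp only [id]
      ring
    · exact Continuous.intervalIntegrable (by fun_prop) _ _
  rw [intervalIntegral.integral_const_mul] at key
  field_simp at key ⊢
  linarith

private theorem di_energy (h2 : Prof2 L χ ω) :
    ∫ s in (0 : ℝ)..1, (4 * s * (χ s + s * ω s) ^ 2 + 4 * s * χ s ^ 2) = L - 4 := by
  have hL : 0 < L := by linarith [h2.L_lo]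
  have hχ := di_chi h2
  have hω := h2.cont
  have hc1 : Continuous fun s => 4 * s * (χ s + s * ω s) ^ 2 + 4 * s * χ s ^ 2 := by fun_prop
  have hc2 : Continuous fun s => L * (χ s * s) ^ 2 := by fun_prop
  have key : ∫ s in (0 : ℝ)..1, ((4 * s * (χ s + s * ω s) ^ 2 + 4 * s * χ s ^ 2) -
      L * (χ s * s) ^ 2) = 0 := by
    rw [intervalIntegral.integral_eq_sub_of_hasDerivAt_of_le
      (f := fun s : ℝ => 4 * ((s * χ s) * (s * χ s + s ^ 2 * ω s)))
      zero_le_one (Continuous.continuousOn (by fun_prop))]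
    · simp only [di_chi1 h2, di_om1 h2]
      norm_num
    · intro s hs
      have h := ((di_H h2 s).mul (di_U h2 hs.1 hs.2)).const_mul 4
      refine h.congr_deriv ?_
      ring
    · exact (hc1.sub hc2).intervalIntegrable _ _
  rw [intervalIntegral.integral_sub (hc1.intervalIntegrable _ _) (hc2.intervalIntegrable _ _),
    intervalIntegral.integral_const_mul, di_mass h2] at key
  have e : L * (1 - 4 / L) = L - 4 := by
    field_simp
  rw [e] at key
  linarith

theorem int_bb_disc {F : ℝ → ℝ} (hF : Continuous F) (i : Fin 2) :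
    ∫ y in D, F (sq y) * bb i y = 0 := by
  have key : ∀ p q r : ℝ, p + r = 0 → (∀ y, bb i y = N p q r y) →
      ∫ y in D, F (sq y) * bb i y = 0 := by
    intro p q r h0 h1
    have h := disc_radial_N hF p q r
    rw [h0, zero_div, zero_mul] at h
    simp only [h1]
    exact h
  fin_cases i
  · refine key (-1) 0 1 (by norm_num) (fun y => ?_)
    show (if (0 : Fin 2) = 0 then y 0 ^ 2 - y 1 ^ 2 else 2 * (y 0 * y 1)) = N (-1) 0 1 y
    rw [if_pos rfl]
    unfold N
    ring
  · refine key 0 (-1) 0 (by norm_num) (fun y => ?_)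
    show (if (1 : Fin 2) = 0 then y 0 ^ 2 - y 1 ^ 2 else 2 * (y 0 * y 1)) = N 0 (-1) 0 y
    rw [if_neg (by decide)]
    unfold N
    ring

theorem mass_disc (h2 : Prof2 L χ ω) : ∫ y in D, (χ (sq y) * sq y) ^ 2 = Real.pi * (1 - 4 / L) := by
  have hχ := di_chi h2
  rw [← di_mass h2]
  exact disc_radial (f := fun s => (χ s * s) ^ 2) (by fun_prop)

theorem int_qV_disc (h : Prof K φ ψ) (h2 : Prof2 L χ ω) (p q r : ℝ) :
    ∫ y in D, qV (2 * (L - 4)) φ χ ω p q r y = 0 := by
  have hφ := h.phi_cont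
  have hχ := di_chi h2
  have hω := h2.cont
  have e0 := di_energy h2
  have cA : Continuous fun s : ℝ => 4 * s * (p + r) * (χ s + s * ω s) ^ 2 +
      (4 - 2 * (L - 4)) * φ s ^ 2 * ((p + r) / 2 * s) := by fun_prop
  have cB : Continuous fun s : ℝ => -(4 * s * ω s * (2 * χ s + s * ω s)) - 2 * (L - 4) -
      (4 - 2 * (L - 4)) * φ s ^ 2 := by fun_prop
  have i1 : IntegrableOn (fun y : E => 4 * sq y * (p + r) * (χ (sq y) + sq y * ω (sq y)) ^ 2 +
      (4 - 2 * (L - 4)) * φ (sq y) ^ 2 * ((p + r) / 2 * sq y)) D :=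
    M1x.intOn (cA.comp M1x.cont_sq) M1x.bdD
  have i2 : IntegrableOn (fun y : E => (-(4 * sq y * ω (sq y) * (2 * χ (sq y) + sq y * ω (sq y))) -
      2 * (L - 4) - (4 - 2 * (L - 4)) * φ (sq y) ^ 2) * N p q r y) D :=
    M1x.intOn ((cB.comp M1x.cont_sq).mul (M1x.cont_N p q r)) M1x.bdD
  have e2 : ∫ y in D, qV (2 * (L - 4)) φ χ ω p q r y
      = (∫ y in D, (4 * sq y * (p + r) * (χ (sq y) + sq y * ω (sq y)) ^ 2 +
          (4 - 2 * (L - 4)) * φ (sq y) ^ 2 * ((p + r) / 2 * sq y))) +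
        ∫ y in D, (-(4 * sq y * ω (sq y) * (2 * χ (sq y) + sq y * ω (sq y))) -
          2 * (L - 4) - (4 - 2 * (L - 4)) * φ (sq y) ^ 2) * N p q r y := by
    rw [← integral_add i1 i2]
    refine integral_congr_ae (Filter.Eventually.of_forall fun y => ?_)
    simp only [qV, eV]
    ring
  have e3 := disc_radial cA
  have e4 := disc_radial_N cB p q r
  rw [e2, e3, e4]
  have e5 : (p + r) / 2 * (Real.pi * ∫ s in (0 : ℝ)..1,
        s * (-(4 * s * ω s * (2 * χ s + s * ω s)) - 2 * (L - 4) - (4 - 2 * (L - 4)) * φ s ^ 2))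
      = Real.pi * ∫ s in (0 : ℝ)..1, (p + r) / 2 *
        (s * (-(4 * s * ω s * (2 * χ s + s * ω s)) - 2 * (L - 4) -
          (4 - 2 * (L - 4)) * φ s ^ 2)) := by
    rw [intervalIntegral.integral_const_mul]
    ring
  rw [e5, ← mul_add, ← intervalIntegral.integral_add (cA.intervalIntegrable _ _)
    (Continuous.intervalIntegrable (by fun_prop) _ _)]
  have e6 : (fun s : ℝ => 4 * s * (p + r) * (χ s + s * ω s) ^ 2 +
      (4 - 2 * (L - 4)) * φ s ^ 2 * ((p + r) / 2 * s) + (p + r) / 2 *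
        (s * (-(4 * s * ω s * (2 * χ s + s * ω s)) - 2 * (L - 4) -
          (4 - 2 * (L - 4)) * φ s ^ 2)))
      = fun s => (p + r) / 2 * ((4 * s * (χ s + s * ω s) ^ 2 + 4 * s * χ s ^ 2) -
        2 * (L - 4) * s) := by
    funext s
    ring
  rw [e6, intervalIntegral.integral_const_mul, intervalIntegral.integral_sub
    (Continuous.intervalIntegrable (by fun_prop) _ _)
    (Continuous.intervalIntegrable (by fun_prop) _ _), e0, intervalIntegral.integral_const_mul,
    integral_id]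
  ring

end

end Pool.Agent.CS4
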