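import Pool.Agent.CS4.Defs

/-!
CS4-R0: radial Poincaré inequality, sector 0.

`F r = ∫_0^r f t dt`; the difference `f'² r - 12 f² r` is at least the derivative of
`-24 f F + 12 F² A`, `A = 2/r² - 2/(1 - r²) - 2/(2 - r²)`, which is continuous on `[0, 1]` and
vanishes at both ends.
-/

set_option autoImplicit false

open MeasureTheory Set
open Pool.Agent.Neu

namespace Pool.Agent.CS4

private theorem r0_A {r : ℝ} (h0 : 0 < r) (h1 : r < 1) :
    HasDerivAt (fun r : ℝ => 2 / r ^ 2 - 2 / (1 - r ^ 2) - 2 / (2 - r ^ 2))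
      (-24 / (r * (2 - r ^ 2)) - (2 / r ^ 2 - 2 / (1 - r ^ 2) - 2 / (2 - r ^ 2)) ^ 2 * r) r := by
  have e0 : r ≠ 0 := h0.ne'
  have e1 : 1 - r ^ 2 ≠ 0 := by nlinarith
  have e2 : 2 - r ^ 2 ≠ 0 := by nlinarith
  have hs : HasDerivAt (fun r : ℝ => r ^ 2) (2 * r) r := by
    simpa using hasDerivAt_pow 2 r
  have d0 : HasDerivAt (fun r : ℝ => 2 / r ^ 2) ((0 * r ^ 2 - 2 * (2 * r)) / (r ^ 2) ^ 2) r :=
    (hasDerivAt_const r (2 : ℝ)).div hs (pow_ne_zero 2 e0)
  have d1 : HasDerivAt (fun r : ℝ => 2 / (1 - r ^ 2))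
      ((0 * (1 - r ^ 2) - 2 * (-(2 * r))) / (1 - r ^ 2) ^ 2) r :=
    (hasDerivAt_const r (2 : ℝ)).div (hs.const_sub 1) e1
  have d2 : HasDerivAt (fun r : ℝ => 2 / (2 - r ^ 2))
      ((0 * (2 - r ^ 2) - 2 * (-(2 * r))) / (2 - r ^ 2) ^ 2) r :=
    (hasDerivAt_const r (2 : ℝ)).div (hs.const_sub 2) e2
  have h := (d0.sub d1).sub d2
  have e : -24 / (r * (2 - r ^ 2)) - (2 / r ^ 2 - 2 / (1 - r ^ 2) - 2 / (2 - r ^ 2)) ^ 2 * r =
      (0 * r ^ 2 - 2 * (2 * r)) / (r ^ 2) ^ 2 -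
        (0 * (1 - r ^ 2) - 2 * (-(2 * r))) / (1 - r ^ 2) ^ 2 -
        (0 * (2 - r ^ 2) - 2 * (-(2 * r))) / (2 - r ^ 2) ^ 2 := by
    field_simp
    ring
  rw [e]
  exact h

private theorem r0_alg (a u v F r : ℝ) (h0 : 0 < r) (h1 : r < 1) :
    -24 * (v * F + u * (u * r)) +
        12 * (2 * F * (u * r) * a + F ^ 2 * (-24 / (r * (2 - r ^ 2)) - a ^ 2 * r)) ≤
      v ^ 2 * r - 12 * (u ^ 2 * r) := by
  have e0 : r ≠ 0 := h0.ne'
  have p2 : 0 < 2 - r ^ 2 := by nlinarith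
  have e2 : 2 - r ^ 2 ≠ 0 := p2.ne'
  have e : v ^ 2 * r - 12 * (u ^ 2 * r) - (-24 * (v * F + u * (u * r)) +
        12 * (2 * F * (u * r) * a + F ^ 2 * (-24 / (r * (2 - r ^ 2)) - a ^ 2 * r))) =
      (v * r + 12 * F) ^ 2 / r + 12 * r * (u - F * a) ^ 2 + 144 * F ^ 2 * r / (2 - r ^ 2) := by
    field_simp
    ring
  have k1 : 0 ≤ (v * r + 12 * F) ^ 2 / r := by positivity
  have k2 : 0 ≤ 12 * r * (u - F * a) ^ 2 := by positivity
  have k3 : 0 ≤ 144 * F ^ 2 * r / (2 - r ^ 2) := by positivity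
  linarith

private theorem r0_ds {F F' : ℝ → ℝ} (hF : ∀ r, HasDerivAt F (F' r) r) (a : ℝ) :
    Continuous (dslope F a) := by
  rw [← continuousOn_univ, continuousOn_dslope Filter.univ_mem, continuousOn_univ]
  exact ⟨continuous_iff_continuousAt.2 fun r => (hF r).continuousAt, (hF a).differentiableAt⟩

theorem rad0 {f f' : ℝ → ℝ} (hf : ∀ r, HasDerivAt f (f' r) r) (hf' : Continuous f')
    (h0 : ∫ r in (0 : ℝ)..1, f r * r = 0) :
    12 * ∫ r in (0 : ℝ)..1, f r ^ 2 * r ≤ ∫ r in (0 : ℝ)..1, f' r ^ 2 * r := by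
  have hfc : Continuous f := continuous_iff_continuousAt.2 fun r => (hf r).continuousAt
  obtain ⟨F, hF, hF0, hF1⟩ : ∃ F : ℝ → ℝ, (∀ r, HasDerivAt F (f r * r) r) ∧ F 0 = 0 ∧ F 1 = 0 :=
    ⟨fun r => ∫ t in (0 : ℝ)..r, f t * t,
      fun r => ((hfc.mul continuous_id).integral_hasStrictDerivAt 0 r).hasDerivAt,
      intervalIntegral.integral_same, h0⟩
  have hFc : Continuous F := continuous_iff_continuousAt.2 fun r => (hF r).continuousAt
  obtain ⟨p, hp⟩ : ∃ p, p = dslope F 0 := ⟨_, rfl⟩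
  obtain ⟨q, hq⟩ : ∃ q, q = dslope F 1 := ⟨_, rfl⟩
  have hpc : Continuous p := by rw [hp]; exact r0_ds hF 0
  have hqc : Continuous q := by rw [hq]; exact r0_ds hF 1
  have hpF : ∀ r, F r = r * p r := by
    intro r
    have h := sub_smul_dslope F 0 r
    rw [sub_zero, hF0, sub_zero, smul_eq_mul, ← hp] at h
    exact h.symm
  have hqF : ∀ r, F r = (r - 1) * q r := by
    intro r
    have h := sub_smul_dslope F 1 r
    rw [hF1, sub_zero, smul_eq_mul, ← hq] at h
    exact h.symm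
  have hp0 : p 0 = 0 := by
    rw [hp, dslope_same, (hF 0).deriv, mul_zero]
  have hp1 : p 1 = 0 := by
    have h := hpF 1
    rw [hF1, one_mul] at h
    exact h.symm
  have hgc : ContinuousOn (fun r : ℝ => -24 * (f r * F r) +
      12 * (2 * p r ^ 2 + 2 * (F r * q r) / (1 + r) - 2 * F r ^ 2 / (2 - r ^ 2))) (Icc 0 1) := by
    have c1 : ContinuousOn (fun r : ℝ => 2 * (F r * q r) / (1 + r)) (Icc 0 1) := by
      refine ContinuousOn.div (Continuous.continuousOn (by fun_prop))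
        (Continuous.continuousOn (by fun_prop)) ?_
      intro r hr
      linarith [hr.1]
    have c2 : ContinuousOn (fun r : ℝ => 2 * F r ^ 2 / (2 - r ^ 2)) (Icc 0 1) := by
      refine ContinuousOn.div (Continuous.continuousOn (by fun_prop))
        (Continuous.continuousOn (by fun_prop)) ?_
      intro r hr
      have h1 := hr.1
      have h2 := hr.2
      nlinarith
    have c3 : ContinuousOn (fun r : ℝ => 2 * p r ^ 2) (Icc 0 1) :=
      Continuous.continuousOn (by fun_prop)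
    have c4 : ContinuousOn (fun r : ℝ => -24 * (f r * F r)) (Icc 0 1) :=
      Continuous.continuousOn (by fun_prop)
    exact c4.add (((c3.add c1).sub c2).const_smul (12 : ℝ))
  have hder : ∀ r ∈ Ioo (0 : ℝ) 1, HasDerivWithinAt (fun r : ℝ => -24 * (f r * F r) +
      12 * (2 * p r ^ 2 + 2 * (F r * q r) / (1 + r) - 2 * F r ^ 2 / (2 - r ^ 2)))
      (-24 * (f' r * F r + f r * (f r * r)) +
        12 * (2 * F r * (f r * r) * (2 / r ^ 2 - 2 / (1 - r ^ 2) - 2 / (2 - r ^ 2)) +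
          F r ^ 2 * (-24 / (r * (2 - r ^ 2)) -
            (2 / r ^ 2 - 2 / (1 - r ^ 2) - 2 / (2 - r ^ 2)) ^ 2 * r))) (Ioi r) r := by
    intro r hr
    have hA := r0_A hr.1 hr.2
    have h2 : HasDerivAt (fun r => F r ^ 2) (2 * F r * (f r * r)) r := by
      have h := (hF r).pow 2
      rw [Nat.cast_ofNat, Nat.add_one_sub_one, pow_one] at h
      exact h
    have h3 := ((hf r).mul (hF r)).const_mul (-24 : ℝ)
    have h4 := (h2.mul hA).const_mul (12 : ℝ)
    have h5 := h3.add h4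
    refine HasDerivAt.hasDerivWithinAt (HasDerivAt.congr_of_eventuallyEq h5 ?_)
    filter_upwards [Ioo_mem_nhds hr.1 hr.2] with x hx
    have x0 : x ≠ 0 := hx.1.ne'
    have x1 : 1 - x ^ 2 ≠ 0 := by
      have h1 := hx.1
      have h2 := hx.2
      nlinarith
    have x2 : 2 - x ^ 2 ≠ 0 := by
      have h1 := hx.1
      have h2 := hx.2
      nlinarith
    have x3 : 1 + x ≠ 0 := by linarith [hx.1]
    have x4 : 1 - x ≠ 0 := by linarith [hx.2]
    have hpx : p x = F x / x := by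
      rw [hpF x]
      field_simp
    have hqx : q x = -(F x / (1 - x)) := by
      rw [hqF x]
      field_simp
      ring
    have x5 : 1 - x ^ 2 = (1 - x) * (1 + x) := by ring
    show -24 * (f x * F x) + 12 * (2 * p x ^ 2 + 2 * (F x * q x) / (1 + x) - 2 * F x ^ 2 / (2 - x ^ 2)) =
      -24 * (f x * F x) + 12 * (F x ^ 2 * (2 / x ^ 2 - 2 / (1 - x ^ 2) - 2 / (2 - x ^ 2)))
    rw [hpx, hqx, x5]
    field_simp
    ring
  have hi1 : IntervalIntegrable (fun r => f' r ^ 2 * r) volume 0 1 :=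
    ((hf'.pow 2).mul continuous_id).intervalIntegrable 0 1
  have hi2 : IntervalIntegrable (fun r => 12 * (f r ^ 2 * r)) volume 0 1 :=
    (continuous_const.mul ((hfc.pow 2).mul continuous_id)).intervalIntegrable 0 1
  have hint : IntegrableOn (fun r => f' r ^ 2 * r - 12 * (f r ^ 2 * r)) (Icc 0 1) volume := by
    refine Continuous.integrableOn_Icc ?_
    fun_prop
  have key := intervalIntegral.sub_le_integral_of_hasDeriv_right_of_le zero_le_one hgc hder hint
    (fun r hr => r0_alg _ _ _ _ r hr.1 hr.2)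
  rw [intervalIntegral.integral_sub hi1 hi2, intervalIntegral.integral_const_mul] at key
  simp only [hF0, hF1, hp0, hp1, mul_zero, zero_mul, zero_div, ne_eq, OfNat.ofNat_ne_zero,
    not_false_eq_true, zero_pow, sub_zero, add_zero] at key
  linarith

end Pool.Agent.CS4
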