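import Pool.Agent.CS4.Defs
import Pool.Agent.Neu.Ode

/-!
CS4-R1: radial Poincaré inequality, sector 1, orthogonal to the first eigenfunction.

PLAN.  `g r = r φ(r²)`: `g > 0` on `(0,1]`, `r ≤ g`, `g² ≤ (67/40)² r²` (fields `one_le`, `le` of `Prof`),
`g'(1) = 0`, `(r g')' = g/r - K r g` on `(0,1)` (from `Prof.ode`; see `Neu/Ode.lean`, `Neu/Rad.lean`).
Let `A = f' - f g'/g` on `(0,1]` (bounded).
(1) `∫ (f'² r + f²/r) - K ∫ f² r = ∫ r A²` (the difference of the integrands is `(r f² g'/g)'`, boundary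
terms vanish since `f 0 = 0` and `g' 1 = 0`).
(2) `U r = ∫_0^r f g t dt`, `U 0 = U 1 = 0`, `U' = f g r`, `U = O(r³)`.  `∫ f² r = ∫ (f/g) U' = - ∫ (A/g) U
≤ (∫ r A²)^{1/2} (∫ U²/(g² r))^{1/2}`.
(3) `∫ U²/(g² r) ≤ ∫ U²/r³ ≤ (1/18) ∫ U'²/r³` by `0 ≤ (U' - U G'/G)²/r³`, `G = s² (1-s) (1 - s/2)`, `s = r²`:
`G_s/s = 2 - 9 s/2 + 2 s²`, so `-4 s² (G_s/s)_s = s² (18 - 16 s) ≥ 18 G`; and
`∫ U'²/r³ = ∫ f² g²/r ≤ (67/40)² ∫ f² r`.
So `∫ f² r ≤ ((67/40)²/18) ∫ r A² ≤ 0.15588 ∫ r A²`, `∫ r A² ≥ 6.41 ∫ f² r`, and `K + 6.41 ≥ 9.34`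
(`K > 3.38`).
-/

set_option autoImplicit false

open MeasureTheory Set
open Pool.Agent.Neu

namespace Pool.Agent.CS4

namespace R1x

variable {K : ℝ} {φ ψ : ℝ → ℝ}

/-- `r g' / g` -/
noncomputable def P (φ ψ : ℝ → ℝ) (r : ℝ) : ℝ := 1 + 2 * (r ^ 2 * ψ (r ^ 2)) / φ (r ^ 2)

theorem phi_one (h : Prof K φ ψ) : φ 1 = 1 := by
  rw [h.out 1 le_rfl]; simp

theorem psi_one (h : Prof K φ ψ) : ψ 1 = -1 / 2 := by
  rw [h.outd 1 le_rfl]; simp

theorem P_one (h : Prof K φ ψ) : P φ ψ 1 = 0 := by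
  unfold P
  rw [one_pow, phi_one h, psi_one h]
  norm_num

theorem P_cont (h : Prof K φ ψ) : Continuous (P φ ψ) := by
  unfold P
  have h1 := h.phi_cont
  have h2 := h.cont
  have h3 : ∀ r : ℝ, φ (r ^ 2) ≠ 0 := fun r => (h.phi_pos (sq_nonneg r)).ne'
  fun_prop (disch := exact h3 _)

theorem P_deriv (h : Prof K φ ψ) {r : ℝ} (h0 : 0 < r) (h1 : r < 1) :
    HasDerivAt (P φ ψ) ((1 - P φ ψ r ^ 2) / r - K * r) r := by
  have hs1 : r ^ 2 < 1 := by nlinarith
  have hφ : φ (r ^ 2) ≠ 0 := (h.phi_pos (sq_nonneg r)).ne'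
  have hr : r ≠ 0 := h0.ne'
  have hsq : HasDerivAt (fun r : ℝ => r ^ 2) (2 * r) r := by
    simpa using hasDerivAt_pow 2 r
  have hΦ : HasDerivAt (fun r : ℝ => φ (r ^ 2)) (ψ (r ^ 2) * (2 * r)) r :=
    HasDerivAt.comp r (h.deriv (r ^ 2)) hsq
  have hT : HasDerivAt (fun r : ℝ => (r ^ 2) ^ 2 * ψ (r ^ 2))
      (-(K / 4) * (r ^ 2 * φ (r ^ 2)) * (2 * r)) r := by
    have hode := h.ode (r ^ 2) hs1
    exact HasDerivAt.comp (h₂ := fun t : ℝ => t ^ 2 * ψ t) (h := fun r : ℝ => r ^ 2) r hode hsq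
  -- `P = 1 + 2 T / (r² Φ)` near `r`
  have h5 := (((hT.const_mul (2 : ℝ)).div (hsq.mul hΦ) (mul_ne_zero (pow_ne_zero 2 hr) hφ))).const_add
    (1 : ℝ)
  refine (h5.congr_of_eventuallyEq ?_).congr_deriv ?_
  · filter_upwards [isOpen_ne.mem_nhds hr] with t ht
    have ht' : t ≠ 0 := ht
    have hφt : φ (t ^ 2) ≠ 0 := (h.phi_pos (sq_nonneg t)).ne'
    simp only [P, Pi.div_apply, Pi.mul_apply]
    field_simp
  · simp only [P, Pi.mul_apply]
    field_simp
    ring

/-- `f / r` -/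
noncomputable def q (f : ℝ → ℝ) : ℝ → ℝ := dslope f 0

variable {f f' : ℝ → ℝ}

theorem q_cont (hf : ∀ r, HasDerivAt f (f' r) r) : Continuous (q f) := by
  have hc : Continuous f := continuous_iff_continuousAt.2 fun r => (hf r).continuousAt
  rw [← continuousOn_univ]
  exact (continuousOn_dslope Filter.univ_mem).2 ⟨hc.continuousOn, (hf 0).differentiableAt⟩

theorem q_mul (h0 : f 0 = 0) (r : ℝ) : f r = r * q f r := by
  have := sub_smul_dslope f 0 r
  rw [h0, sub_zero, sub_zero, smul_eq_mul] at this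
  exact this.symm

theorem q_div (h0 : f 0 = 0) {r : ℝ} (hr : r ≠ 0) : q f r = f r / r := by
  rw [q_mul h0 r]
  field_simp

theorem q_deriv (hf : ∀ r, HasDerivAt f (f' r) r) (h0 : f 0 = 0) {r : ℝ} (hr : r ≠ 0) :
    HasDerivAt (q f) ((f' r - q f r) / r) r := by
  have h1 := (hf r).div (hasDerivAt_id r) hr
  refine (h1.congr_of_eventuallyEq ?_).congr_deriv ?_
  · filter_upwards [isOpen_ne.mem_nhds hr] with t ht
    exact q_div h0 ht
  · rw [q_div h0 hr]
    simp only [id]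
    field_simp

/-- the deviation from the first eigenfunction -/
noncomputable def A (φ ψ f f' : ℝ → ℝ) (r : ℝ) : ℝ := f' r - q f r * P φ ψ r

theorem A_cont (h : Prof K φ ψ) (hf : ∀ r, HasDerivAt f (f' r) r) (hf' : Continuous f') :
    Continuous (A φ ψ f f') := by
  have h1 := P_cont h
  have h2 := q_cont hf
  unfold A
  fun_prop

/-- step 1 -/
theorem I1 (h : Prof K φ ψ) (hf : ∀ r, HasDerivAt f (f' r) r) (hf' : Continuous f')
    (h0 : f 0 = 0) :
    ∫ r in (0 : ℝ)..1, (f' r ^ 2 * r + f r ^ 2 / r)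
      = K * (∫ r in (0 : ℝ)..1, f r ^ 2 * r) + ∫ r in (0 : ℝ)..1, r * A φ ψ f f' r ^ 2 := by
  have hc : Continuous f := continuous_iff_continuousAt.2 fun r => (hf r).continuousAt
  have hP := P_cont h
  have hq := q_cont hf
  have hA := A_cont h hf hf'
  have e1 : ∀ r : ℝ, f' r ^ 2 * r + f r ^ 2 / r = f' r ^ 2 * r + r * q f r ^ 2 := by
    intro r
    rcases eq_or_ne r 0 with hr | hr
    · subst hr; simp
    · rw [q_div h0 hr]; field_simp
  simp_rw [e1]
  rw [← intervalIntegral.integral_const_mul, ← intervalIntegral.integral_add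
    ((by fun_prop : Continuous fun r : ℝ => K * (f r ^ 2 * r)).intervalIntegrable _ _)
    ((by fun_prop : Continuous fun r : ℝ => r * A φ ψ f f' r ^ 2).intervalIntegrable _ _),
    ← sub_eq_zero, ← intervalIntegral.integral_sub
    ((by fun_prop : Continuous fun r : ℝ => f' r ^ 2 * r + r * q f r ^ 2).intervalIntegrable _ _)
    ((by fun_prop : Continuous fun r : ℝ => K * (f r ^ 2 * r) +
      r * A φ ψ f f' r ^ 2).intervalIntegrable _ _)]
  rw [intervalIntegral.integral_eq_sub_of_hasDerivAt_of_le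
    (f := fun r : ℝ => f r ^ 2 * P φ ψ r) zero_le_one
    (by fun_prop : Continuous fun r : ℝ => f r ^ 2 * P φ ψ r).continuousOn]
  · simp only [P_one h, h0]; norm_num
  · intro r hr
    have hr0 : r ≠ 0 := hr.1.ne'
    have h4 := ((hf r).pow 2).mul (P_deriv h hr.1 hr.2)
    refine h4.congr_deriv ?_
    simp only [Nat.cast_ofNat, Pi.pow_apply, A]
    rw [q_mul h0 r]
    field_simp
    ring
  · exact (by fun_prop : Continuous fun r : ℝ => f' r ^ 2 * r + r * q f r ^ 2 -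
      (K * (f r ^ 2 * r) + r * A φ ψ f f' r ^ 2)).intervalIntegrable _ _

/-- the primitive -/
noncomputable def U (φ f : ℝ → ℝ) (r : ℝ) : ℝ := ∫ t in (0 : ℝ)..r, f t * (t * φ (t ^ 2)) * t

theorem U_deriv (h : Prof K φ ψ) (hf : ∀ r, HasDerivAt f (f' r) r) (r : ℝ) :
    HasDerivAt (U φ f) (f r * (r * φ (r ^ 2)) * r) r := by
  have hc : Continuous f := continuous_iff_continuousAt.2 fun r => (hf r).continuousAt
  have h1 := h.phi_cont
  have hg : Continuous fun t : ℝ => f t * (t * φ (t ^ 2)) * t := by fun_prop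
  exact (hg.integral_hasStrictDerivAt 0 r).hasDerivAt

theorem U_cont (h : Prof K φ ψ) (hf : ∀ r, HasDerivAt f (f' r) r) : Continuous (U φ f) :=
  continuous_iff_continuousAt.2 fun r => (U_deriv h hf r).continuousAt

theorem U_zero : U φ f 0 = 0 := by simp [U]

/-- bounds for the primitive -/
theorem U_bd (h : Prof K φ ψ) (hf : ∀ r, HasDerivAt f (f' r) r) (h0 : f 0 = 0)
    (h1 : ∫ r in (0 : ℝ)..1, f r * (r * φ (r ^ 2)) * r = 0) :
    ∃ M : ℝ, 0 ≤ M ∧ ∀ r ∈ Icc (0 : ℝ) 1, |U φ f r| ≤ M * r ^ 4 ∧ |U φ f r| ≤ M * (1 - r) := by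
  have hc : Continuous f := continuous_iff_continuousAt.2 fun r => (hf r).continuousAt
  have hφ := h.phi_cont
  have hq := q_cont hf
  have hg : Continuous fun t : ℝ => f t * (t * φ (t ^ 2)) * t := by fun_prop
  obtain ⟨M, hM⟩ := (isCompact_Icc (a := (0 : ℝ)) (b := 1)).exists_bound_of_continuousOn
    (by fun_prop : Continuous fun t : ℝ => q f t * φ (t ^ 2)).continuousOn
  have hM0 : 0 ≤ M := (norm_nonneg _).trans (hM 0 ⟨le_rfl, zero_le_one⟩)
  have hb : ∀ t ∈ Icc (0 : ℝ) 1, ‖f t * (t * φ (t ^ 2)) * t‖ ≤ M * t ^ 3 := by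
    intro t ht
    have e : f t * (t * φ (t ^ 2)) * t = (q f t * φ (t ^ 2)) * t ^ 3 := by
      rw [q_mul h0 t]; ring
    rw [e, norm_mul, Real.norm_of_nonneg (pow_nonneg ht.1 3)]
    exact mul_le_mul_of_nonneg_right (hM t ht) (pow_nonneg ht.1 3)
  refine ⟨M, hM0, fun r hr => ⟨?_, ?_⟩⟩
  · have h2 : ‖∫ t in (0 : ℝ)..r, f t * (t * φ (t ^ 2)) * t‖ ≤ (M * r ^ 3) * |r - 0| := by
      apply intervalIntegral.norm_integral_le_of_norm_le_const
      intro t ht
      rw [uIoc_of_le hr.1] at ht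
      refine (hb t ⟨ht.1.le, ht.2.trans hr.2⟩).trans ?_
      exact mul_le_mul_of_nonneg_left (pow_le_pow_left₀ ht.1.le ht.2 3) hM0
    rw [sub_zero, abs_of_nonneg hr.1] at h2
    rw [← Real.norm_eq_abs]
    refine h2.trans (le_of_eq ?_)
    ring
  · have h3 : U φ f r = -∫ t in r..1, f t * (t * φ (t ^ 2)) * t := by
      have := intervalIntegral.integral_add_adjacent_intervals (hg.intervalIntegrable (μ := volume) 0 r)
        (hg.intervalIntegrable (μ := volume) r 1)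
      rw [h1] at this
      unfold U
      linarith
    rw [h3, abs_neg, ← Real.norm_eq_abs]
    have h2 : ‖∫ t in r..1, f t * (t * φ (t ^ 2)) * t‖ ≤ M * |1 - r| := by
      apply intervalIntegral.norm_integral_le_of_norm_le_const
      intro t ht
      rw [uIoc_of_le hr.2] at ht
      have ht' : t ∈ Icc (0 : ℝ) 1 := ⟨hr.1.trans ht.1.le, ht.2⟩
      refine (hb t ht').trans ?_
      have : t ^ 3 ≤ 1 := pow_le_one₀ ht'.1 ht'.2
      nlinarith
    rwa [abs_of_nonneg (sub_nonneg.2 hr.2)] at h2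

/-- `U / r²` -/
noncomputable def w (φ f : ℝ → ℝ) (r : ℝ) : ℝ := U φ f r / r ^ 2

theorem w_mul {r : ℝ} : U φ f r = w φ f r * r ^ 2 := by
  rcases eq_or_ne r 0 with hr | hr
  · subst hr; simp [U_zero]
  · unfold w; field_simp

theorem w_cont (h : Prof K φ ψ) (hf : ∀ r, HasDerivAt f (f' r) r) (h0 : f 0 = 0)
    (h1 : ∫ r in (0 : ℝ)..1, f r * (r * φ (r ^ 2)) * r = 0) :
    ContinuousOn (w φ f) (Icc 0 1) := by
  obtain ⟨M, hM0, hM⟩ := U_bd h hf h0 h1
  have hU := U_cont h hf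
  intro r hr
  rcases eq_or_ne r 0 with hr0 | hr0
  · subst hr0
    have hw0 : w φ f 0 = 0 := by simp [w, U_zero]
    have hb : ∀ t ∈ Icc (0 : ℝ) 1, ‖w φ f t‖ ≤ M * t ^ 2 := by
      intro t ht
      rcases eq_or_ne t 0 with ht0 | ht0
      · subst ht0; simp [hw0]
      · unfold w
        rw [norm_div, Real.norm_eq_abs, Real.norm_of_nonneg (sq_nonneg t),
          div_le_iff₀ (by positivity)]
        refine (hM t ht).1.trans (le_of_eq ?_)
        ring
    unfold ContinuousWithinAt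
    rw [hw0]
    refine squeeze_zero_norm' (a := fun t : ℝ => M * t ^ 2) ?_ ?_
    · filter_upwards [self_mem_nhdsWithin] with t ht using hb t ht
    · have : Filter.Tendsto (fun t : ℝ => M * t ^ 2) (nhds 0) (nhds (M * 0 ^ 2)) :=
        (by fun_prop : Continuous fun t : ℝ => M * t ^ 2).tendsto 0
      simp only [ne_eq, OfNat.ofNat_ne_zero, not_false_eq_true, zero_pow, mul_zero] at this
      exact this.mono_left nhdsWithin_le_nhds
  · unfold w
    exact (hU.continuousAt.div (continuous_pow 2).continuousAt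
      (pow_ne_zero 2 hr0)).continuousWithinAt

/-- step 2 -/
theorem I2 (h : Prof K φ ψ) (hf : ∀ r, HasDerivAt f (f' r) r) (hf' : Continuous f')
    (h0 : f 0 = 0) (h1 : ∫ r in (0 : ℝ)..1, f r * (r * φ (r ^ 2)) * r = 0) :
    ∫ r in (0 : ℝ)..1, (f r ^ 2 * r + A φ ψ f f' r * w φ f r * r / φ (r ^ 2)) = 0 := by
  have hc : Continuous f := continuous_iff_continuousAt.2 fun r => (hf r).continuousAt
  have hP := P_cont h
  have hq := q_cont hf
  have hφ := h.phi_cont
  have hA := A_cont h hf hf'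
  have hU := U_cont h hf
  have hw := w_cont h hf h0 h1
  have h3 : ∀ r : ℝ, φ (r ^ 2) ≠ 0 := fun r => (h.phi_pos (sq_nonneg r)).ne'
  rw [intervalIntegral.integral_eq_sub_of_hasDerivAt_of_le
    (f := fun r : ℝ => q f r / φ (r ^ 2) * U φ f r) zero_le_one]
  · have : U φ f 1 = 0 := h1
    rw [this, U_zero]; simp
  · refine Continuous.continuousOn ?_
    fun_prop (disch := exact h3 _)
  · intro r hr
    have hr0 : r ≠ 0 := hr.1.ne'
    have hsq : HasDerivAt (fun r : ℝ => r ^ 2) (2 * r) r := by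
      simpa using hasDerivAt_pow 2 r
    have hΦ : HasDerivAt (fun r : ℝ => φ (r ^ 2)) (ψ (r ^ 2) * (2 * r)) r :=
      HasDerivAt.comp r (h.deriv (r ^ 2)) hsq
    have h4 := ((q_deriv hf h0 hr0).div hΦ (h3 r)).mul (U_deriv h hf r)
    refine h4.congr_deriv ?_
    simp only [Pi.div_apply, A, P]
    rw [w_mul (φ := φ) (f := f) (r := r), q_mul h0 r]
    have := h3 r
    field_simp
    ring
  · apply ContinuousOn.intervalIntegrable
    rw [uIcc_of_le zero_le_one]
    have g1 : ContinuousOn (fun r : ℝ => A φ ψ f f' r * r / φ (r ^ 2)) (Icc 0 1) := by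
      refine Continuous.continuousOn ?_
      fun_prop (disch := exact h3 _)
    refine ContinuousOn.add (by fun_prop) ((hw.mul g1).congr ?_)
    intro r _
    simp only [Pi.mul_apply]
    ring

/-- the coefficient of the Hardy inequality, times `r ^ 4` -/
noncomputable def cc (r : ℝ) : ℝ := (4 - 9 * r ^ 2 + 4 * r ^ 4) / ((1 - r ^ 2) * (1 - r ^ 2 / 2))

/-- step 3 -/
theorem I3 (h : Prof K φ ψ) (hf : ∀ r, HasDerivAt f (f' r) r)
    (h0 : f 0 = 0) (h1 : ∫ r in (0 : ℝ)..1, f r * (r * φ (r ^ 2)) * r = 0) :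
    6 * ∫ r in (0 : ℝ)..1, r * w φ f r ^ 2 ≤ ∫ r in (0 : ℝ)..1, f r ^ 2 * r := by
  have hc : Continuous f := continuous_iff_continuousAt.2 fun r => (hf r).continuousAt
  have hφ := h.phi_cont
  have hU := U_cont h hf
  have hw := w_cont h hf h0 h1
  obtain ⟨M, hM0, hM⟩ := U_bd h hf h0 h1
  have hwi : ContinuousOn (fun r : ℝ => r * w φ f r ^ 2) (Icc 0 1) :=
    continuousOn_id.mul (hw.pow 2)
  have hwi' : IntervalIntegrable (fun r : ℝ => r * w φ f r ^ 2) volume 0 1 := by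
    apply ContinuousOn.intervalIntegrable
    rwa [uIcc_of_le zero_le_one]
  have hfi : Continuous fun r : ℝ => f r ^ 2 * r := by fun_prop
  -- the boundary function
  have hB : ContinuousOn (fun r : ℝ => w φ f r ^ 2 * cc r) (Icc 0 1) := by
    intro r hr
    rcases eq_or_ne r 1 with hr1 | hr1
    · subst hr1
      have e1 : w φ f 1 ^ 2 * cc 1 = 0 := by simp [cc]
      have e2 : ContinuousWithinAt (fun r : ℝ => w φ f r ^ 2 * cc r) (Icc 0 1) 1 ↔
        Filter.Tendsto (fun r : ℝ => w φ f r ^ 2 * cc r) (nhdsWithin 1 (Icc 0 1))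
          (nhds (w φ f 1 ^ 2 * cc 1)) := Iff.rfl
      rw [e2, e1]
      refine squeeze_zero_norm' (a := fun t : ℝ => 600 * M ^ 2 * (1 - t)) ?_ ?_
      · have h5 : Ioo (1 / 2 : ℝ) 2 ∈ nhds (1 : ℝ) := Ioo_mem_nhds (by norm_num) (by norm_num)
        filter_upwards [self_mem_nhdsWithin, mem_nhdsWithin_of_mem_nhds h5] with t ht ht2
        rcases eq_or_ne t 1 with ht1 | ht1
        · subst ht1; simp [cc]
        have ht3 : 0 < 1 - t := sub_pos.2 (lt_of_le_of_ne ht.2 ht1)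
        have hw1 : |w φ f t| ≤ 4 * M * (1 - t) := by
          unfold w
          rw [abs_div, abs_of_nonneg (sq_nonneg t), div_le_iff₀ (by nlinarith [ht2.1])]
          refine (hM t ht).2.trans ?_
          have : 1 ≤ 4 * t ^ 2 := by nlinarith [ht2.1]
          have h6 : 0 ≤ M * (1 - t) := mul_nonneg hM0 ht3.le
          nlinarith
        have hw2 : w φ f t ^ 2 ≤ 16 * M ^ 2 * (1 - t) ^ 2 := by
          have := pow_le_pow_left₀ (abs_nonneg _) hw1 2
          rw [sq_abs] at this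
          refine this.trans (le_of_eq ?_)
          ring
        have hc1 : |cc t| ≤ 34 / (1 - t) := by
          unfold cc
          have hd : (1 - t) * (1 / 2) ≤ (1 - t ^ 2) * (1 - t ^ 2 / 2) := by
            have a1 : 1 - t ≤ 1 - t ^ 2 := by nlinarith [ht.1, ht.2]
            have a2 : 1 / 2 ≤ 1 - t ^ 2 / 2 := by nlinarith [ht.1, ht.2]
            exact mul_le_mul a1 a2 (by norm_num) (by linarith)
          have hd0 : 0 < (1 - t ^ 2) * (1 - t ^ 2 / 2) := lt_of_lt_of_le (by positivity) hd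
          rw [abs_div, abs_of_pos hd0, div_le_div_iff₀ hd0 ht3]
          have hn : |4 - 9 * t ^ 2 + 4 * t ^ 4| ≤ 17 := by
            have b1 : t ^ 2 ≤ 1 := pow_le_one₀ ht.1 ht.2
            have b2 : t ^ 4 ≤ 1 := pow_le_one₀ ht.1 ht.2
            have b3 : 0 ≤ t ^ 2 := sq_nonneg t
            have b4 : 0 ≤ t ^ 4 := by positivity
            rw [abs_le]
            constructor <;> linarith
          calc |4 - 9 * t ^ 2 + 4 * t ^ 4| * (1 - t) ≤ 17 * (1 - t) :=
                mul_le_mul_of_nonneg_right hn ht3.le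
            _ = 34 * ((1 - t) * (1 / 2)) := by ring
            _ ≤ 34 * ((1 - t ^ 2) * (1 - t ^ 2 / 2)) :=
                mul_le_mul_of_nonneg_left hd (by norm_num)
        rw [Real.norm_eq_abs, abs_mul, abs_of_nonneg (sq_nonneg _)]
        calc w φ f t ^ 2 * |cc t| ≤ (16 * M ^ 2 * (1 - t) ^ 2) * (34 / (1 - t)) :=
              mul_le_mul hw2 hc1 (abs_nonneg _) (by positivity)
          _ = 544 * M ^ 2 * (1 - t) := by field_simp; ring
          _ ≤ 600 * M ^ 2 * (1 - t) := by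
              have : 0 ≤ M ^ 2 * (1 - t) := by positivity
              nlinarith
      · have : Filter.Tendsto (fun t : ℝ => 600 * M ^ 2 * (1 - t)) (nhds 1)
            (nhds (600 * M ^ 2 * (1 - 1))) :=
          (by fun_prop : Continuous fun t : ℝ => 600 * M ^ 2 * (1 - t)).tendsto 1
        rw [sub_self, mul_zero] at this
        exact this.mono_left nhdsWithin_le_nhds
    · have hr2 : r < 1 := lt_of_le_of_ne hr.2 hr1
      have hne : (1 - r ^ 2) * (1 - r ^ 2 / 2) ≠ 0 := by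
        have a1 : r ^ 2 < 1 := by nlinarith [hr.1]
        have a2 : 0 < 1 - r ^ 2 := by linarith
        have a3 : 0 < 1 - r ^ 2 / 2 := by linarith
        positivity
      have hcc : ContinuousAt cc r := by
        unfold cc
        exact ContinuousAt.div (by fun_prop) (by fun_prop) hne
      exact ((hw r hr).pow 2).mul hcc.continuousWithinAt
  have key := intervalIntegral.sub_le_integral_of_hasDeriv_right_of_le
    (g := fun r : ℝ => w φ f r ^ 2 * cc r)
    (g' := fun r : ℝ => 2 * U φ f r * (f r * (r * φ (r ^ 2)) * r) * (cc r / r ^ 4)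
      + U φ f r ^ 2 * (-(18 - 16 * r ^ 2) * r / (r ^ 4 * ((1 - r ^ 2) * (1 - r ^ 2 / 2)))
        - r ^ 3 * (cc r / r ^ 4) ^ 2))
    (φ := fun r : ℝ => 3 * (f r ^ 2 * r) - 18 * (r * w φ f r ^ 2)) zero_le_one hB ?_ ?_ ?_
  · have e0 : w φ f 0 = 0 := by simp [w, U_zero]
    have e1 : w φ f 1 ^ 2 * cc 1 = 0 := by simp [cc]
    rw [e1, e0] at key
    rw [intervalIntegral.integral_sub ((hfi.const_mul 3).intervalIntegrable _ _)
      (hwi'.const_mul 18), intervalIntegral.integral_const_mul,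
      intervalIntegral.integral_const_mul] at key
    norm_num at key
    linarith
  · intro r hr
    have hr0 : r ≠ 0 := hr.1.ne'
    have a1 : r ^ 2 < 1 := by nlinarith [hr.1, hr.2]
    have a2 : 1 - r ^ 2 ≠ 0 := by intro hh; linarith
    have a3 : 1 - r ^ 2 / 2 ≠ 0 := by intro hh; linarith
    have hsq : HasDerivAt (fun r : ℝ => r ^ 2) (2 * r) r := by
      simpa using hasDerivAt_pow 2 r
    have hq4 : HasDerivAt (fun r : ℝ => r ^ 4) (4 * r ^ 3) r := by
      simpa using hasDerivAt_pow 4 r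
    have hn : HasDerivAt (fun r : ℝ => 4 - 9 * r ^ 2 + 4 * r ^ 4)
        (-(9 * (2 * r)) + 4 * (4 * r ^ 3)) r := by
      have := ((hsq.const_mul (9 : ℝ)).const_sub (4 : ℝ)).add (hq4.const_mul (4 : ℝ))
      exact this
    have hd : HasDerivAt (fun r : ℝ => r ^ 4 * ((1 - r ^ 2) * (1 - r ^ 2 / 2)))
        (4 * r ^ 3 * ((1 - r ^ 2) * (1 - r ^ 2 / 2)) +
          r ^ 4 * (-(2 * r) * (1 - r ^ 2 / 2) + (1 - r ^ 2) * (-(2 * r / 2)))) r := by
      have := hq4.mul ((hsq.const_sub (1 : ℝ)).mul ((hsq.div_const (2 : ℝ)).const_sub (1 : ℝ)))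
      exact this
    have hdd : r ^ 4 * ((1 - r ^ 2) * (1 - r ^ 2 / 2)) ≠ 0 :=
      mul_ne_zero (pow_ne_zero 4 hr0) (mul_ne_zero a2 a3)
    have h5 := ((U_deriv h hf r).pow 2).mul (hn.div hd hdd)
    refine HasDerivAt.hasDerivWithinAt ((h5.congr_of_eventuallyEq ?_).congr_deriv ?_)
    · filter_upwards [isOpen_ne.mem_nhds hr0] with t ht
      have ht' : t ≠ 0 := ht
      simp only [Pi.mul_apply, Pi.pow_apply, Pi.div_apply, w, cc]
      rw [div_pow, ← pow_mul]
      norm_num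
      rw [div_mul_div_comm, mul_div_assoc]
    · simp only [Nat.cast_ofNat, Pi.pow_apply, cc, Pi.div_apply]
      field_simp
      ring
  · apply ContinuousOn.integrableOn_Icc
    exact (hfi.const_mul 3).continuousOn.sub (continuousOn_const.mul hwi)
  · intro r hr
    have hr0 : 0 < r := hr.1
    have a1 : r ^ 2 < 1 := by nlinarith [hr.1, hr.2]
    have a2 : 0 < 1 - r ^ 2 := by linarith
    have a3 : 0 < 1 - r ^ 2 / 2 := by linarith
    have hs : r ^ 2 ∈ Icc (0 : ℝ) 1 := ⟨sq_nonneg r, a1.le⟩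
    have p1 : 1 ≤ φ (r ^ 2) := h.one_le _ hs
    have p2 : φ (r ^ 2) ≤ 67 / 40 := by
      have := h.le _ hs
      nlinarith [sq_nonneg r]
    set c := cc r / r ^ 4 with hcdef
    set V := f r * (r * φ (r ^ 2)) * r with hV
    -- (i) V² / r³ ≤ 3 f² r
    have q1 : V ^ 2 / r ^ 3 ≤ 3 * (f r ^ 2 * r) := by
      have : V ^ 2 / r ^ 3 = φ (r ^ 2) ^ 2 * (f r ^ 2 * r) := by
        rw [hV]; field_simp
      rw [this]
      have p3 : φ (r ^ 2) ^ 2 ≤ 3 := by nlinarith
      exact mul_le_mul_of_nonneg_right p3 (by positivity)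
    -- (ii) the square
    have q2 : 2 * U φ f r * V * c - r ^ 3 * c ^ 2 * U φ f r ^ 2 ≤ V ^ 2 / r ^ 3 := by
      rw [le_div_iff₀ (by positivity)]
      nlinarith [sq_nonneg (V - r ^ 3 * c * U φ f r)]
    -- (iii) the Hardy weight
    have q3 : 18 / r ^ 3 ≤ (18 - 16 * r ^ 2) * r / (r ^ 4 * ((1 - r ^ 2) * (1 - r ^ 2 / 2))) := by
      rw [div_le_div_iff₀ (by positivity) (by positivity)]
      have : 0 ≤ r ^ 6 * (11 - 9 * r ^ 2) := by
        apply mul_nonneg (by positivity); linarith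
      nlinarith
    have q4 : 18 * (r * w φ f r ^ 2) = U φ f r ^ 2 * (18 / r ^ 3) := by
      unfold w; field_simp
    rw [q4]
    have q5 := mul_le_mul_of_nonneg_left q3 (sq_nonneg (U φ f r))
    have q6 : U φ f r ^ 2 * (-(18 - 16 * r ^ 2) * r / (r ^ 4 * ((1 - r ^ 2) * (1 - r ^ 2 / 2)))
        - r ^ 3 * c ^ 2) = - (U φ f r ^ 2 * ((18 - 16 * r ^ 2) * r /
          (r ^ 4 * ((1 - r ^ 2) * (1 - r ^ 2 / 2))))) - r ^ 3 * c ^ 2 * U φ f r ^ 2 := by
      ring
    rw [q6]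
    linarith

end R1x

open R1x in
theorem rad1 {K : ℝ} {φ ψ : ℝ → ℝ} (h : Prof K φ ψ) {f f' : ℝ → ℝ}
    (hf : ∀ r, HasDerivAt f (f' r) r) (hf' : Continuous f') (h0 : f 0 = 0)
    (h1 : ∫ r in (0 : ℝ)..1, f r * (r * φ (r ^ 2)) * r = 0) :
    934 / 100 * ∫ r in (0 : ℝ)..1, f r ^ 2 * r ≤
      ∫ r in (0 : ℝ)..1, (f' r ^ 2 * r + f r ^ 2 / r) := by
  have hc : Continuous f := continuous_iff_continuousAt.2 fun r => (hf r).continuousAt
  have hφ := h.phi_cont
  have hA := A_cont h hf hf'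
  have hw := w_cont h hf h0 h1
  have hp : ∀ r : ℝ, φ (r ^ 2) ≠ 0 := fun r => (h.phi_pos (sq_nonneg r)).ne'
  have i1 := I1 h hf hf' h0
  have i2 := I2 h hf hf' h0 h1
  have i3 := I3 h hf h0 h1
  set F := ∫ r in (0 : ℝ)..1, f r ^ 2 * r with hF
  set a := ∫ r in (0 : ℝ)..1, r * A φ ψ f f' r ^ 2 with ha
  set W := ∫ r in (0 : ℝ)..1, r * w φ f r ^ 2 with hW
  have hF0 : 0 ≤ F := by
    apply intervalIntegral.integral_nonneg zero_le_one
    intro r hr
    have := hr.1
    positivity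
  have hwi' : IntervalIntegrable (fun r : ℝ => r * w φ f r ^ 2) volume 0 1 := by
    apply ContinuousOn.intervalIntegrable
    rw [uIcc_of_le zero_le_one]
    exact continuousOn_id.mul (hw.pow 2)
  have hai : IntervalIntegrable (fun r : ℝ => r * A φ ψ f f' r ^ 2) volume 0 1 :=
    (by fun_prop : Continuous fun r : ℝ => r * A φ ψ f f' r ^ 2).intervalIntegrable _ _
  have hfi : IntervalIntegrable (fun r : ℝ => f r ^ 2 * r) volume 0 1 :=
    (by fun_prop : Continuous fun r : ℝ => f r ^ 2 * r).intervalIntegrable _ _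
  have hmi : IntervalIntegrable (fun r : ℝ => A φ ψ f f' r * w φ f r * r / φ (r ^ 2))
      volume 0 1 := by
    apply ContinuousOn.intervalIntegrable
    rw [uIcc_of_le zero_le_one]
    have g1 : ContinuousOn (fun r : ℝ => A φ ψ f f' r * r / φ (r ^ 2)) (Icc 0 1) := by
      refine Continuous.continuousOn ?_
      fun_prop (disch := exact hp _)
    refine (hw.mul g1).congr ?_
    intro r _
    simp only [Pi.mul_apply]
    ring
  rw [intervalIntegral.integral_add hfi hmi] at i2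
  have i4 : -(1 / 12 * a + 3 * W) ≤
      ∫ r in (0 : ℝ)..1, A φ ψ f f' r * w φ f r * r / φ (r ^ 2) := by
    have : -(1 / 12 * a + 3 * W) = ∫ r in (0 : ℝ)..1, -(1 / 12 * (r * A φ ψ f f' r ^ 2) +
        3 * (r * w φ f r ^ 2)) := by
      rw [intervalIntegral.integral_neg, intervalIntegral.integral_add (hai.const_mul _)
        (hwi'.const_mul _), intervalIntegral.integral_const_mul,
        intervalIntegral.integral_const_mul]
    rw [this]
    apply intervalIntegral.integral_mono_on zero_le_one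
      ((hai.const_mul _).add (hwi'.const_mul _)).neg hmi
    intro r hr
    have hs : r ^ 2 ∈ Icc (0 : ℝ) 1 := ⟨sq_nonneg r, pow_le_one₀ hr.1 hr.2⟩
    have p1 : 1 ≤ φ (r ^ 2) := h.one_le _ hs
    have p0 : 0 < φ (r ^ 2) := zero_lt_one.trans_le p1
    set x := A φ ψ f f' r
    set y := w φ f r
    change -(1 / 12 * (r * x ^ 2) + 3 * (r * y ^ 2)) ≤ x * y * r / φ (r ^ 2)
    rw [neg_le, ← neg_div, div_le_iff₀ p0]
    have k1 : -(x * y * r) ≤ 1 / 12 * (r * x ^ 2) + 3 * (r * y ^ 2) := by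
      have := mul_nonneg hr.1 (sq_nonneg (x + 6 * y))
      nlinarith
    have k2 : 0 ≤ 1 / 12 * (r * x ^ 2) + 3 * (r * y ^ 2) := by
      have := hr.1
      positivity
    nlinarith
  have hK := h.K_lo
  rw [i1]
  have j1 : F ≤ a / 6 := by linarith
  nlinarith

end Pool.Agent.CS4
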