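import Pool.Agent.CS4.Defs

/-!
CS4-R2: radial inequality, sector 2 (compare `Pool/Agent/Neu/Rad.lean`).

PLAN.  `h r = r² χ(r²) > 0` on `(0,1]`, `h' = 2 r (χ + r² ω)`, `h'(1) = 0`, `(r h')' = 4 h/r - L r h` on `(0,1)`.
`f'² r + 4 f²/r - L f² r = r (f' - f h'/h)² + (r f² h'/h)'`; the boundary terms vanish (`f 0 = 0`, `r h'/h`
bounded, `h' 1 = 0`).  `h'/h = 2 (χ + r² ω)/(r χ)`.
-/

set_option autoImplicit false

open MeasureTheory Set
open Pool.Agent.Neu

namespace Pool.Agent.CS4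

private theorem rad2_cont {f f' : ℝ → ℝ} (hf : ∀ r, HasDerivAt f (f' r) r) (h0 : f 0 = 0) :
    Continuous fun r => f r ^ 2 / r := by
  have hfc : Continuous f := continuous_iff_continuousAt.2 fun r => (hf r).continuousAt
  rw [continuous_iff_continuousAt]
  intro r
  by_cases hr : r = 0
  · subst hr
    have h1 := (hasDerivAt_iff_tendsto_slope_zero.1 (hf 0))
    have h2 : Filter.Tendsto (fun t => f t * (t⁻¹ • (f (0 + t) - f 0)))
        (nhdsWithin 0 {0}ᶜ) (nhds (f 0 * f' 0)) :=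
      ((hfc.tendsto 0).mono_left nhdsWithin_le_nhds).mul h1
    have h3 : Filter.Tendsto (fun t => f t ^ 2 / t) (nhdsWithin 0 {0}ᶜ) (nhds (f 0 ^ 2 / 0)) := by
      have e : f 0 ^ 2 / 0 = f 0 * f' 0 := by rw [h0]; simp
      rw [e]
      refine h2.congr fun t => ?_
      rw [zero_add, h0, sub_zero, smul_eq_mul]
      ring
    exact continuousAt_iff_punctured_nhds.2 h3
  · exact ((hfc.continuousAt).pow 2).div continuousAt_id hr

theorem rad2 {L : ℝ} {χ ω : ℝ → ℝ} (h2 : Prof2 L χ ω) {f f' : ℝ → ℝ}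
    (hf : ∀ r, HasDerivAt f (f' r) r) (hf' : Continuous f') (h0 : f 0 = 0) :
    L * ∫ r in (0 : ℝ)..1, f r ^ 2 * r ≤
      ∫ r in (0 : ℝ)..1, (f' r ^ 2 * r + 4 * f r ^ 2 / r) := by
  have hfc : Continuous f := continuous_iff_continuousAt.2 fun r => (hf r).continuousAt
  have hχc : Continuous χ := continuous_iff_continuousAt.2 fun s => (h2.deriv s).continuousAt
  have hq := rad2_cont hf h0
  have hmem : ∀ r ∈ Icc (0 : ℝ) 1, r ^ 2 ∈ Icc (0 : ℝ) 1 := fun r hr =>
    ⟨by positivity, by nlinarith [hr.1, hr.2]⟩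
  have hχ1 : ∀ r ∈ Icc (0 : ℝ) 1, 1 ≤ χ (r ^ 2) := fun r hr => h2.one_le _ (hmem r hr)
  obtain ⟨w, hwd⟩ : ∃ w : ℝ → ℝ, ∀ r, w r = ω (r ^ 2) / χ (r ^ 2) :=
    ⟨fun r => ω (r ^ 2) / χ (r ^ 2), fun _ => rfl⟩
  have hwe : w = fun r => ω (r ^ 2) / χ (r ^ 2) := funext hwd
  have hw : ContinuousOn w (Icc 0 1) := by
    rw [hwe]
    refine ContinuousOn.div (h2.cont.comp (continuous_pow 2)).continuousOn
      (hχc.comp (continuous_pow 2)).continuousOn fun r hr => ?_
    have := hχ1 r hr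
    linarith
  have hP : ∀ r ∈ Ioo (0 : ℝ) 1, HasDerivAt (fun r => 2 + 2 * r ^ 2 * w r)
      (-L * r - 8 * r * w r - 4 * r ^ 3 * w r ^ 2) r := by
    intro r hr
    have hr0 : r ≠ 0 := hr.1.ne'
    have hχr : χ (r ^ 2) ≠ 0 := by
      have := hχ1 r ⟨hr.1.le, hr.2.le⟩
      linarith
    have hs : r ^ 2 < 1 := by nlinarith [hr.1, hr.2]
    have a1 : HasDerivAt (fun r : ℝ => r ^ 2) (2 * r) r := by
      simpa using hasDerivAt_pow 2 r
    have a2 : HasDerivAt (fun r : ℝ => (r ^ 2) ^ 3 * ω (r ^ 2))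
        (-(L / 4) * ((r ^ 2) ^ 2 * χ (r ^ 2)) * (2 * r)) r := by
      have := HasDerivAt.comp (h := fun r : ℝ => r ^ 2) (h₂ := fun t => t ^ 3 * ω t) r
        (h2.ode (r ^ 2) hs) a1
      exact this
    have a3 : HasDerivAt (fun r : ℝ => χ (r ^ 2)) (ω (r ^ 2) * (2 * r)) r :=
      (h2.deriv (r ^ 2)).comp r a1
    have a4 : HasDerivAt (fun r : ℝ => r ^ 4) (4 * r ^ 3) r := by
      simpa using hasDerivAt_pow 4 r
    have a5 : HasDerivAt (fun r : ℝ => r ^ 4 * χ (r ^ 2))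
        (4 * r ^ 3 * χ (r ^ 2) + r ^ 4 * (ω (r ^ 2) * (2 * r))) r := a4.mul a3
    have hne : r ^ 4 * χ (r ^ 2) ≠ 0 := mul_ne_zero (pow_ne_zero _ hr0) hχr
    have a6 := ((a2.div a5 hne).const_mul 2).const_add 2
    refine (a6.congr_of_eventuallyEq ?_).congr_deriv ?_
    · filter_upwards [Ioo_mem_nhds hr.1 hr.2] with t ht
      have ht0 : t ≠ 0 := ht.1.ne'
      have hχt : χ (t ^ 2) ≠ 0 := by
        have := hχ1 t ⟨ht.1.le, ht.2.le⟩
        linarith
      simp only [hwd, Pi.div_apply]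
      field_simp
    · rw [hwd]
      field_simp
      ring
  have hPc : ContinuousOn (fun r => 2 + 2 * r ^ 2 * w r) (Icc 0 1) := by
    refine continuousOn_const.add (ContinuousOn.mul ?_ hw)
    exact (by fun_prop : Continuous fun r : ℝ => 2 * r ^ 2).continuousOn
  have hP'c : ContinuousOn (fun r => -L * r - 8 * r * w r - 4 * r ^ 3 * w r ^ 2) (Icc 0 1) := by
    refine ContinuousOn.sub (ContinuousOn.sub ?_ (ContinuousOn.mul ?_ hw))
      (ContinuousOn.mul ?_ (hw.pow 2))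
    · exact (by fun_prop : Continuous fun r : ℝ => -L * r).continuousOn
    · exact (by fun_prop : Continuous fun r : ℝ => 8 * r).continuousOn
    · exact (by fun_prop : Continuous fun r : ℝ => 4 * r ^ 3).continuousOn
  have hg : ContinuousOn (fun r => 2 * f r * f' r * (2 + 2 * r ^ 2 * w r) +
      f r ^ 2 * (-L * r - 8 * r * w r - 4 * r ^ 3 * w r ^ 2)) (Icc 0 1) := by
    refine ContinuousOn.add (ContinuousOn.mul ?_ hPc) (ContinuousOn.mul ?_ hP'c)
    · exact (by fun_prop : Continuous fun r : ℝ => 2 * f r * f' r).continuousOn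
    · exact (hfc.pow 2).continuousOn
  have hgi : IntervalIntegrable (fun r => 2 * f r * f' r * (2 + 2 * r ^ 2 * w r) +
      f r ^ 2 * (-L * r - 8 * r * w r - 4 * r ^ 3 * w r ^ 2)) volume 0 1 :=
    ContinuousOn.intervalIntegrable_of_Icc zero_le_one hg
  have hftc := intervalIntegral.integral_eq_sub_of_hasDerivAt_of_le zero_le_one
    (f := fun r => f r ^ 2 * (2 + 2 * r ^ 2 * w r))
    ((hfc.pow 2).continuousOn.mul hPc) (fun r hr => by
      have b1 : HasDerivAt (fun r => f r ^ 2) (2 * f r * f' r) r := by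
        have := (hf r).fun_pow 2
        simpa using this
      exact b1.mul (hP r hr)) hgi
  have hend : f 1 ^ 2 * (2 + 2 * (1 : ℝ) ^ 2 * w 1) - f 0 ^ 2 * (2 + 2 * (0 : ℝ) ^ 2 * w 0) = 0 := by
    have e1 : χ 1 = 1 := by rw [h2.out 1 le_rfl]; norm_num
    have e2 : ω 1 = -1 := by rw [h2.outd 1 le_rfl]; norm_num
    rw [h0, hwd 1, one_pow, e1, e2]
    norm_num
  have hA : Continuous fun r => f' r ^ 2 * r + 4 * f r ^ 2 / r := by
    have e : (fun r => f' r ^ 2 * r + 4 * f r ^ 2 / r) =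
        fun r => f' r ^ 2 * r + 4 * (f r ^ 2 / r) := by
      funext r
      ring
    rw [e]
    exact ((hf'.pow 2).mul continuous_id).add (continuous_const.mul hq)
  have hB : Continuous fun r => f r ^ 2 * r := (hfc.pow 2).mul continuous_id
  have hmono : ∫ r in (0 : ℝ)..1, (2 * f r * f' r * (2 + 2 * r ^ 2 * w r) +
      f r ^ 2 * (-L * r - 8 * r * w r - 4 * r ^ 3 * w r ^ 2)) ≤
      ∫ r in (0 : ℝ)..1, ((f' r ^ 2 * r + 4 * f r ^ 2 / r) - L * (f r ^ 2 * r)) := by
    refine intervalIntegral.integral_mono_on zero_le_one hgi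
      ((hA.sub (continuous_const.mul hB)).intervalIntegrable _ _) fun r hr => ?_
    rcases hr.1.eq_or_lt with h | h
    · rw [← h, h0]
      simp
    · have key : (f' r ^ 2 * r + 4 * f r ^ 2 / r) - L * (f r ^ 2 * r) -
          (2 * f r * f' r * (2 + 2 * r ^ 2 * w r) +
            f r ^ 2 * (-L * r - 8 * r * w r - 4 * r ^ 3 * w r ^ 2)) =
          r * (f' r - f r * (2 + 2 * r ^ 2 * w r) / r) ^ 2 := by
        field_simp
        ring
      have hk : 0 ≤ r * (f' r - f r * (2 + 2 * r ^ 2 * w r) / r) ^ 2 :=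
        mul_nonneg h.le (sq_nonneg _)
      linarith
  rw [hftc] at hmono
  have hLB : Continuous fun r => L * (f r ^ 2 * r) := continuous_const.mul hB
  rw [intervalIntegral.integral_sub (hA.intervalIntegrable _ _) (hLB.intervalIntegrable _ _),
    intervalIntegral.integral_const_mul] at hmono
  linarith

end Pool.Agent.CS4
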