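import Pool.Agent.CS4.Defs
import Pool.Agent.CS4.R0
import Pool.Agent.CS4.R1
import Pool.Agent.CS4.R2
import Pool.Agent.NSY.DiE
import Pool.Agent.NSY.FkD
import Pool.Agent.NSY.AngD

/-!
CS4-DP: Poincaré inequality on the disc, orthogonally to the first three eigenfunctions.
-/

set_option autoImplicit false

open MeasureTheory Set
open Pool.Agent.Neu
open Pool.Agent.NSY (fk)

namespace Pool.Agent.CS4

open Pool.Agent.NSY (fk' fk_deriv fk'_cont fk_zero disc_energy disc_bessel)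

private theorem dp_quo {v : E → ℝ} (hv : ContDiff ℝ 1 v) {k : ℤ} (hk : k ≠ 0) :
    Continuous (fun r => fk v k r ^ 2 / r) := by
  have hc := fk'_cont hv k
  have hQ : Continuous (fun r : ℝ => ∫ s in (0 : ℝ)..1, fk' v k (s * r)) := by
    refine intervalIntegral.continuous_parametric_intervalIntegral_of_continuous'
      (f := fun (r : ℝ) (s : ℝ) => fk' v k (s * r)) ?_ 0 1
    exact hc.comp (by fun_prop : Continuous (fun q : ℝ × ℝ => q.2 * q.1))
  have hfQ : ∀ r, fk v k r = r * ∫ s in (0 : ℝ)..1, fk' v k (s * r) := by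
    intro r
    have h1 : r * (∫ s in (0 : ℝ)..1, fk' v k (s * r)) = ∫ x in (0 : ℝ)..r, fk' v k x := by
      have := intervalIntegral.mul_integral_comp_mul_right (a := 0) (b := 1)
        (f := fun x => fk' v k x) r
      simp only [zero_mul, one_mul] at this
      rw [← this]
    have h2 : ∫ x in (0 : ℝ)..r, fk' v k x = fk v k r - fk v k 0 :=
      intervalIntegral.integral_eq_sub_of_hasDerivAt (fun x _ => fk_deriv hv k x)
        (hc.intervalIntegrable _ _)
    rw [h1, h2, fk_zero hv hk, sub_zero]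
  have h : (fun r => fk v k r ^ 2 / r) =
      fun r => r * (∫ s in (0 : ℝ)..1, fk' v k (s * r)) ^ 2 := by
    funext r
    by_cases hr : r = 0
    · rw [hr]
      simp
    · rw [hfQ r]
      field_simp
  rw [h]
  exact continuous_id.mul (hQ.pow 2)

private theorem dp_A {v : E → ℝ} (k : ℤ) : 0 ≤ ∫ r in (0 : ℝ)..1, fk v k r ^ 2 * r := by
  refine intervalIntegral.integral_nonneg zero_le_one fun r hr => ?_
  have := hr.1
  positivity

private theorem dp_mono {v : E → ℝ} (hv : ContDiff ℝ 1 v) {k : ℤ} (hk : k ≠ 0) {a b : ℝ} (hab : a ≤ b) :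
    ∫ r in (0 : ℝ)..1, (fk' v k r ^ 2 * r + a * (fk v k r ^ 2 / r)) ≤
      ∫ r in (0 : ℝ)..1, (fk' v k r ^ 2 * r + b * (fk v k r ^ 2 / r)) := by
  have hc : ∀ c : ℝ, Continuous (fun r => fk' v k r ^ 2 * r + c * (fk v k r ^ 2 / r)) := fun c =>
    (((fk'_cont hv k).pow 2).mul continuous_id).add (continuous_const.mul (dp_quo hv hk))
  refine intervalIntegral.integral_mono_on zero_le_one ((hc a).intervalIntegrable _ _)
    ((hc b).intervalIntegrable _ _) fun r hr => ?_
  have h1 : 0 ≤ fk v k r ^ 2 / r := div_nonneg (sq_nonneg _) hr.1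
  have h2 := mul_le_mul_of_nonneg_right hab h1
  linarith

theorem disc_poincare2 {K L : ℝ} {φ ψ χ ω : ℝ → ℝ} (h : Prof K φ ψ) (h2 : Prof2 L χ ω)
    {v : E → ℝ} (hv : ContDiff ℝ 1 v) (h0 : ∫ r in (0 : ℝ)..1, fk v 0 r * r = 0)
    (h1 : ∫ r in (0 : ℝ)..1, fk v 1 r * (r * φ (r ^ 2)) * r = 0)
    (h3 : ∫ r in (0 : ℝ)..1, fk v (-1) r * (r * φ (r ^ 2)) * r = 0) :
    L * ∫ x in D, v x ^ 2 ≤ ∫ x in D, ‖fderiv ℝ v x‖ ^ 2 := by
  have hE := disc_energy hv 4
  have hB := disc_bessel hv 4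
  have hL := h2.L_hi
  have hsec : ∀ k ∈ Finset.Ioo (-((4 : ℕ) : ℤ)) ((4 : ℕ) : ℤ),
      L * (∫ r in (0 : ℝ)..1, fk v k r ^ 2 * r) ≤
        ∫ r in (0 : ℝ)..1, (fk' v k r ^ 2 * r + (k : ℝ) ^ 2 * fk v k r ^ 2 / r) := by
    intro k hk
    rw [Finset.mem_Ioo] at hk
    push_cast at hk
    have hA := dp_A (v := v) k
    have hform : ∀ r : ℝ, fk' v k r ^ 2 * r + (k : ℝ) ^ 2 * fk v k r ^ 2 / r =
        fk' v k r ^ 2 * r + (k : ℝ) ^ 2 * (fk v k r ^ 2 / r) := fun r => by ring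
    have hd := fun r => fk_deriv hv k r
    have hc := fk'_cont hv k
    have hcases : k = 0 ∨ (k = 1 ∨ k = -1) ∨ 2 ≤ |k| := by
      rcases lt_trichotomy k 0 with hk0 | hk0 | hk0
      · right
        by_cases hk1 : k = -1
        · left
          right
          exact hk1
        · right
          rw [abs_of_neg hk0]
          omega
      · left
        exact hk0
      · right
        by_cases hk1 : k = 1
        · left
          left
          exact hk1
        · right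
          rw [abs_of_pos hk0]
          omega
    rcases hcases with hk0 | hk0 | hk0
    · subst hk0
      have e1 := rad0 hd hc h0
      have e2 : ∀ r : ℝ, fk' v 0 r ^ 2 * r + ((0 : ℤ) : ℝ) ^ 2 * fk v 0 r ^ 2 / r = fk' v 0 r ^ 2 * r :=
        fun r => by simp
      simp only [e2]
      nlinarith
    · have hkk : k ≠ 0 := by
        rcases hk0 with rfl | rfl <;> norm_num
      have hk2 : (k : ℝ) ^ 2 = 1 := by
        rcases hk0 with rfl | rfl <;> norm_num
      have horth : ∫ r in (0 : ℝ)..1, fk v k r * (r * φ (r ^ 2)) * r = 0 := by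
        rcases hk0 with rfl | rfl
        · exact h1
        · exact h3
      have e1 := rad1 h hd hc (fk_zero hv hkk) horth
      rw [hk2]
      simp only [one_mul]
      nlinarith
    · have hkk : k ≠ 0 := by
        rintro rfl
        norm_num at hk0
      have e1 := rad2 h2 hd hc (fk_zero hv hkk)
      simp only [hform]
      have e2 : (4 : ℝ) ≤ (k : ℝ) ^ 2 := by
        have h5 : (4 : ℤ) ≤ k ^ 2 := by
          rw [← sq_abs]
          nlinarith
        exact_mod_cast h5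
      have e3 := dp_mono hv hkk e2
      refine le_trans ?_ e3
      refine e1.trans (le_of_eq ?_)
      congr 1
      funext r
      ring
  have hpi := Real.pi_pos
  have hs : L * ∑ k ∈ Finset.Ioo (-((4 : ℕ) : ℤ)) ((4 : ℕ) : ℤ), 2 * Real.pi * (∫ r in (0 : ℝ)..1, fk v k r ^ 2 * r) ≤
      ∑ k ∈ Finset.Ioo (-((4 : ℕ) : ℤ)) ((4 : ℕ) : ℤ), 2 * Real.pi *
        (∫ r in (0 : ℝ)..1, (fk' v k r ^ 2 * r + (k : ℝ) ^ 2 * fk v k r ^ 2 / r)) := by
    rw [Finset.mul_sum]
    refine Finset.sum_le_sum fun k hk => ?_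
    have e := mul_le_mul_of_nonneg_left (hsec k hk) (by positivity : (0 : ℝ) ≤ 2 * Real.pi)
    calc L * (2 * Real.pi * ∫ r in (0 : ℝ)..1, fk v k r ^ 2 * r) =
        2 * Real.pi * (L * ∫ r in (0 : ℝ)..1, fk v k r ^ 2 * r) := by ring
      _ ≤ _ := e
  have h16 : L * ((∫ x in D, v x ^ 2) -
      ∑ k ∈ Finset.Ioo (-((4 : ℕ) : ℤ)) ((4 : ℕ) : ℤ), 2 * Real.pi * ∫ r in (0 : ℝ)..1, fk v k r ^ 2 * r) ≤
      (((4 : ℕ) : ℝ)) ^ 2 * ((∫ x in D, v x ^ 2) -
      ∑ k ∈ Finset.Ioo (-((4 : ℕ) : ℤ)) ((4 : ℕ) : ℤ), 2 * Real.pi * ∫ r in (0 : ℝ)..1, fk v k r ^ 2 * r) := by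
    refine mul_le_mul_of_nonneg_right ?_ (sub_nonneg.mpr hB)
    push_cast
    linarith
  refine le_trans ?_ hE
  refine le_trans (le_of_eq ?_) (add_le_add hs h16)
  ring

end Pool.Agent.CS4
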