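import Pool.Agent.CS4.Defs
import Pool.Agent.CS4.DP
import Pool.Agent.NSY.MuG
import Pool.Agent.NSY.FD
import Pool.Agent.Neu.Lower
import Pool.Agent.Neu.Disc

/-!
CS4-DL: lower bound for the disc.

The min-max values are bounded below with three linear functionals and the inequality of Poincaré.
-/

set_option autoImplicit false

open MeasureTheory Set
open Pool.Agent.Neu
open Pool.Agent.NSY (fk FF)

namespace Pool.Agent.CS4

open Pool.Agent.Neu.Discx (P)

/-- a weighted integral of the angular Fourier coefficient -/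
private noncomputable def dlF (k : ℤ) (W : ℝ → ℝ) (v : E → ℝ) : ℝ :=
  ∫ r in (0 : ℝ)..1, fk v k r * W r

private theorem dl_slice {v : E → ℝ} (hv : ContDiff ℝ 1 v) (k : ℤ) (r : ℝ) :
    Continuous (fun θ => v (P r θ) * Pool.Agent.NSY.cc k θ) :=
  (hv.continuous.comp (Pool.Agent.Neu.Discx.continuous_P.comp
    (by fun_prop : Continuous (fun t : ℝ => (r, t))))).mul (Pool.Agent.NSY.cc_cont k)

private theorem dl_fk {v w : E → ℝ} (hv : ContDiff ℝ 1 v) (hw : ContDiff ℝ 1 w) (k : ℤ) (a b r : ℝ) :
    fk (fun x => a * v x + b * w x) k r = a * fk v k r + b * fk w k r := by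
  unfold fk
  have h1 : ∫ θ in (-Real.pi)..Real.pi, (a * v (P r θ) + b * w (P r θ)) * Pool.Agent.NSY.cc k θ =
      a * (∫ θ in (-Real.pi)..Real.pi, v (P r θ) * Pool.Agent.NSY.cc k θ) +
        b * ∫ θ in (-Real.pi)..Real.pi, w (P r θ) * Pool.Agent.NSY.cc k θ := by
    rw [← intervalIntegral.integral_const_mul, ← intervalIntegral.integral_const_mul,
      ← intervalIntegral.integral_add
        (((dl_slice hv k r).intervalIntegrable _ _).const_mul a)
        (((dl_slice hw k r).intervalIntegrable _ _).const_mul b)]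
    refine intervalIntegral.integral_congr fun θ _ => ?_
    show (a * v (P r θ) + b * w (P r θ)) * Pool.Agent.NSY.cc k θ =
      a * (v (P r θ) * Pool.Agent.NSY.cc k θ) + b * (w (P r θ) * Pool.Agent.NSY.cc k θ)
    ring
  rw [h1]
  ring

private theorem dl_cont {v : E → ℝ} (hv : ContDiff ℝ 1 v) (k : ℤ) : Continuous (fk v k) :=
  continuous_iff_continuousAt.2 fun r => (Pool.Agent.NSY.fk_deriv hv k r).continuousAt

private theorem dlF_lin {W : ℝ → ℝ} (hW : Continuous W) (k : ℤ) (v w : E → ℝ) (hv : ContDiff ℝ 1 v)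
    (hw : ContDiff ℝ 1 w) (a b : ℝ) :
    dlF k W (fun x => a * v x + b * w x) = a * dlF k W v + b * dlF k W w := by
  unfold dlF
  have i1 : IntervalIntegrable (fun r => fk v k r * W r) volume 0 1 :=
    ((dl_cont hv k).mul hW).intervalIntegrable _ _
  have i2 : IntervalIntegrable (fun r => fk w k r * W r) volume 0 1 :=
    ((dl_cont hw k).mul hW).intervalIntegrable _ _
  rw [← intervalIntegral.integral_const_mul, ← intervalIntegral.integral_const_mul,
    ← intervalIntegral.integral_add (i1.const_mul a) (i2.const_mul b)]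
  refine intervalIntegral.integral_congr fun r _ => ?_
  show fk (fun x => a * v x + b * w x) k r * W r = a * (fk v k r * W r) + b * (fk w k r * W r)
  rw [dl_fk hv hw]
  ring

theorem disc_mu4 {K L : ℝ} {φ ψ χ ω : ℝ → ℝ} (h : Prof K φ ψ) (h2 : Prof2 L χ ω) : L ≤ mu D 4 := by
  have hφ : Continuous φ := continuous_iff_continuousAt.2 fun s => (h.deriv s).continuousAt
  have hW : Continuous (fun r : ℝ => r * φ (r ^ 2) * r) :=
    (continuous_id.mul (hφ.comp (continuous_pow 2))).mul continuous_id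
  refine Pool.Agent.NSY.mu_ge (Finset.univ : Finset (Fin 3)) (by decide)
    (fun i => if i = 0 then dlF 0 (fun r => r) else if i = 1 then dlF 1 (fun r => r * φ (r ^ 2) * r)
      else dlF (-1) (fun r => r * φ (r ^ 2) * r)) ?_ ?_
  · intro i v w hv hw a b
    split_ifs
    · exact dlF_lin continuous_id 0 v w hv hw a b
    · exact dlF_lin hW 1 v w hv hw a b
    · exact dlF_lin hW (-1) v w hv hw a b
  · intro v hv hl
    have e0 : dlF 0 (fun r => r) v = 0 := hl 0 (Finset.mem_univ _)
    have e1 : dlF 1 (fun r => r * φ (r ^ 2) * r) v = 0 := hl 1 (Finset.mem_univ _)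
    have e2 : dlF (-1) (fun r => r * φ (r ^ 2) * r) v = 0 := hl 2 (Finset.mem_univ _)
    refine disc_poincare2 h h2 hv e0 ?_ ?_
    · refine Eq.trans ?_ e1
      unfold dlF
      refine intervalIntegral.integral_congr fun r _ => ?_
      show fk v 1 r * (r * φ (r ^ 2)) * r = fk v 1 r * (r * φ (r ^ 2) * r)
      ring
    · refine Eq.trans ?_ e2
      unfold dlF
      refine intervalIntegral.integral_congr fun r _ => ?_
      show fk v (-1) r * (r * φ (r ^ 2)) * r = fk v (-1) r * (r * φ (r ^ 2) * r)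
      ring

theorem FF_disc_ge {K L : ℝ} {φ ψ χ ω : ℝ → ℝ} (h : Prof K φ ψ) (h2 : Prof2 L χ ω) :
    2 * Real.pi ^ 2 * (2 * K + L) ≤ FF 4 D := by
  have hb : Bornology.IsBounded D := Metric.isBounded_ball
  have hne : D.Nonempty := ⟨0, by simp⟩
  have hP := fun (f : E → ℝ) (hf : ContDiff ℝ 1 f) (h0 : ∫ x in D, f x = 0) =>
    h.disc_poincare hf h0
  have m2 : K ≤ mu D 2 := le_mu Metric.isOpen_ball hb hne hP (Or.inl rfl)
  have m3 : K ≤ mu D 3 := le_mu Metric.isOpen_ball hb hne hP (Or.inr rfl)
  have m4 := disc_mu4 h h2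
  have e : Finset.Icc 2 4 = ({2, 3, 4} : Finset ℕ) := by decide
  rw [Pool.Agent.NSY.FF_disc, e, Finset.sum_insert (by decide), Finset.sum_pair (by decide)]
  refine mul_le_mul_of_nonneg_left ?_ (by positivity)
  linarith

end Pool.Agent.CS4
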