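import Mathlib
import Pool.Agent.Neu.Defs
import Pool.Agent.NSY.Defs

/-!
Project CS4 (MP_7e3a18_an, helper14): `F_4(Ω) ≤ F_4(disc)` for every nonempty bounded open plane set
`Ω` with a centre of symmetry.  Definitions shared by all modules.

`K = (j'_{1,1})² = 3.390`, `g(r) = r φ(r²) = J_1(√K r)/J_1(√K)` (`Pool.Agent.Neu.Prof`),
`L = (j'_{2,1})² = 9.328`, `h(r) = r² χ(r²) = J_2(√L r)/J_2(√L)` for `r ≤ 1`, `h = 1` for `r ≥ 1`.
-/

set_option autoImplicit false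

open MeasureTheory Set
open Pool.Agent.Neu

namespace Pool.Agent.CS4

/-- The profile of the second angular mode: `s = r²`, `ω = χ'`. -/
structure Prof2 (L : ℝ) (χ ω : ℝ → ℝ) : Prop where
  L_lo : 93 / 10 < L
  L_hi : L < 934 / 100
  deriv : ∀ s, HasDerivAt χ (ω s) s
  cont : Continuous ω
  out : ∀ s, 1 ≤ s → χ s = 1 / s
  outd : ∀ s, 1 ≤ s → ω s = -1 / s ^ 2
  one_le : ∀ s ∈ Icc (0 : ℝ) 1, 1 ≤ χ s
  le : ∀ s ∈ Icc (0 : ℝ) 1, s * χ s ≤ 1 - (1 - s) ^ 2 / 2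
  ode : ∀ s, s < 1 → HasDerivAt (fun t => t ^ 3 * ω t) (-(L / 4) * (s ^ 2 * χ s)) s

/-- the real and imaginary part of `(y_0 + i y_1)²` -/
def bb (i : Fin 2) (y : E) : ℝ := if i = 0 then y 0 ^ 2 - y 1 ^ 2 else 2 * (y 0 * y 1)

/-- the two components of the field `V(y) = h(r) e^{2iθ}` -/
noncomputable def vv (χ : ℝ → ℝ) (i : Fin 2) (y : E) : ℝ := χ (sq y) * bb i y

/-- energy density of `V_0 ∘ T, V_1 ∘ T`, `Q = [[p, q], [q, r]] = B²`, `B` the linear part of `T` -/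
noncomputable def eV (χ ω : ℝ → ℝ) (p q r : ℝ) (y : E) : ℝ :=
  4 * sq y * (p + r) * (χ (sq y) + sq y * ω (sq y)) ^ 2
    - 4 * sq y * ω (sq y) * (2 * χ (sq y) + sq y * ω (sq y)) * N p q r y

/-- the density compared in the bathtub argument, `β = 2 (L - 4)` -/
noncomputable def qV (β : ℝ) (φ χ ω : ℝ → ℝ) (p q r : ℝ) (y : E) : ℝ :=
  eV χ ω p q r y - β * N p q r y + (4 - β) * φ (sq y) ^ 2 * ((p + r) / 2 * sq y - N p q r y)

end Pool.Agent.CS4
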