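import Pool.Agent.CS4.Defs
import Pool.Agent.CS4.DI

/-!
CS4-EI: the energy inequality.

By the isotropy of `W` the integral of `qV` over `W` is that of `eV - β N`; the bathtub comparison of `W` with the disc
(`qV_in`, `qV_out`, `int_qV_disc`) shows that it is at most `0`.
-/

set_option autoImplicit false

open MeasureTheory Set
open Pool.Agent.Neu

namespace Pool.Agent.CS4

open Pool.Agent.Neu.M1x

theorem energy_le {K L : ℝ} {φ ψ χ ω : ℝ → ℝ} (h : Prof K φ ψ) (h2 : Prof2 L χ ω) {W : Set E}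
    (hW : MeasurableSet W) (hb : Bornology.IsBounded W) (hv : volume W = ENNReal.ofReal Real.pi)
    (h1 : ∫ y in W, (w φ 0 y ^ 2 - w φ 1 y ^ 2) = 0) (h3 : ∫ y in W, w φ 0 y * w φ 1 y = 0)
    {p q r : ℝ} (hp : 0 ≤ p) (hr : 0 ≤ r) (hd : q ^ 2 ≤ p * r) :
    ∫ y in W, eV χ ω p q r y ≤ 2 * (L - 4) * ∫ y in W, N p q r y := by
  obtain ⟨β, hβ⟩ : ∃ β : ℝ, β = 2 * (L - 4) := ⟨_, rfl⟩
  have cq := cont_qV h h2 β p q r
  have cN := cont_N p q r
  have ce := cont_eV h2 p q r
  have cw0 := cont_w h 0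
  have cw1 := cont_w h 1
  have bDW : Bornology.IsBounded (D \ W : Set E) := bdD.subset sdiff_subset
  have bWD : Bornology.IsBounded (W \ D : Set E) := hb.subset sdiff_subset
  -- integral of `qV` over `W`
  have e1 : ∫ y in W, qV β φ χ ω p q r y
      = (∫ y in W, eV χ ω p q r y) - β * ∫ y in W, N p q r y := by
    have e2 : ∀ y : E, qV β φ χ ω p q r y = (eV χ ω p q r y - β * N p q r y)
        + ((4 - β) * ((p - r) / 2) * (w φ 0 y ^ 2 - w φ 1 y ^ 2)
          + (4 - β) * (2 * q) * (w φ 0 y * w φ 1 y)) := by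
      intro y
      have hsq : Neu.sq y = y 0 ^ 2 + y 1 ^ 2 := rfl
      simp only [qV, w, N]
      generalize φ (Neu.sq y) = c
      rw [hsq]
      ring
    have e3 : ∫ y in W, qV β φ χ ω p q r y = ∫ y in W, ((eV χ ω p q r y - β * N p q r y)
        + ((4 - β) * ((p - r) / 2) * (w φ 0 y ^ 2 - w φ 1 y ^ 2)
          + (4 - β) * (2 * q) * (w φ 0 y * w φ 1 y))) :=
      integral_congr_ae (Filter.Eventually.of_forall fun y => e2 y)
    rw [e3, integral_add, integral_sub, integral_add, integral_const_mul, integral_const_mul,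
      integral_const_mul, h1, h3]
    · ring
    · exact intOn (by fun_prop) hb
    · exact intOn (by fun_prop) hb
    · exact intOn (by fun_prop) hb
    · exact intOn (by fun_prop) hb
    · exact intOn (by fun_prop) hb
    · exact intOn (by fun_prop) hb
  have e4 : (∫ y in W ∩ D, qV β φ χ ω p q r y) + ∫ y in W \ D, qV β φ χ ω p q r y
      = ∫ y in W, qV β φ χ ω p q r y :=
    integral_inter_add_sdiff measD (intOn cq hb)
  have e5 : (∫ y in D ∩ W, qV β φ χ ω p q r y) + ∫ y in D \ W, qV β φ χ ω p q r y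
      = ∫ y in D, qV β φ χ ω p q r y :=
    integral_inter_add_sdiff hW (intOn cq bdD)
  have e0 : ∫ y in D, qV β φ χ ω p q r y = 0 := by
    rw [hβ]
    exact int_qV_disc h h2 p q r
  rw [e0, inter_comm] at e5
  obtain ⟨c, hc⟩ : ∃ c : ℝ, c = (p + r) / 2 * (4 - β) := ⟨_, rfl⟩
  have e6 : ∫ y in W \ D, qV β φ χ ω p q r y ≤ volume.real (W \ D) * c := by
    have h6 : ∫ y in W \ D, qV β φ χ ω p q r y ≤ ∫ y in W \ D, c := by
      refine setIntegral_mono_on (intOn cq bWD) (intOn continuous_const bWD) (hW.diff measD)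
        fun y hy => ?_
      have h7 : ¬ sq y < 1 := fun h8 => hy.2 (mem_D.mpr h8)
      rw [hc, hβ]
      exact qV_out h h2 hp hr hd (not_lt.mp h7)
    rw [setIntegral_const, smul_eq_mul] at h6
    exact h6
  have e7 : volume.real (D \ W) * c ≤ ∫ y in D \ W, qV β φ χ ω p q r y := by
    have h6 : ∫ y in D \ W, c ≤ ∫ y in D \ W, qV β φ χ ω p q r y := by
      refine setIntegral_mono_on (intOn continuous_const bDW) (intOn cq bDW) (measD.diff hW)
        fun y hy => ?_
      rw [hc, hβ]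
      exact qV_in h h2 hp hr hd (mem_D.mp hy.1).le
    rw [setIntegral_const, smul_eq_mul] at h6
    exact h6
  have e8 := vol_diff hW hv
  rw [e8] at e6
  rw [← hβ]
  linarith

end Pool.Agent.CS4
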