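import Pool.Agent.CS4.Defs
import Pool.Agent.Neu.Grad

/-!
CS4-Gr: gradients of the trial functions.
-/

set_option autoImplicit false

open MeasureTheory Set
open Pool.Agent.Neu

namespace Pool.Agent.CS4

open Pool.Agent.Neu.Gradx

section
variable {L : ℝ} {χ ω : ℝ → ℝ}

private theorem contDiff_chi (h2 : Prof2 L χ ω) : ContDiff ℝ 1 χ := by
  rw [contDiff_one_iff_deriv]
  refine ⟨fun s => (h2.deriv s).differentiableAt, ?_⟩
  have : deriv χ = ω := by
    funext s; exact (h2.deriv s).deriv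
  rw [this]
  exact h2.cont

private theorem contDiff_bb (σ a b : ℝ) (c : E) (i : Fin 2) :
    ContDiff ℝ 1 (fun x => bb i (T σ a b c x)) := by
  have h0 := contDiff_T σ a b c 0
  have h1 := contDiff_T σ a b c 1
  by_cases hi : i = 0
  · have e : (fun x => bb i (T σ a b c x)) =
        fun x => T σ a b c x 0 ^ 2 - T σ a b c x 1 ^ 2 := by
      funext x
      unfold bb
      rw [if_pos hi]
    rw [e]
    exact (h0.pow 2).sub (h1.pow 2)
  · have e : (fun x => bb i (T σ a b c x)) =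
        fun x => 2 * (T σ a b c x 0 * T σ a b c x 1) := by
      funext x
      unfold bb
      rw [if_neg hi]
    rw [e]
    exact contDiff_const.mul (h0.mul h1)

theorem contDiff_vT (h2 : Prof2 L χ ω) (σ a b : ℝ) (c : E) (i : Fin 2) :
    ContDiff ℝ 1 (fun x => vv χ i (T σ a b c x)) := by
  have hs : ContDiff ℝ 1 (fun x => sq (T σ a b c x)) :=
    ((contDiff_T σ a b c 0).pow 2).add ((contDiff_T σ a b c 1).pow 2)
  exact ((contDiff_chi h2).comp hs).mul (contDiff_bb σ a b c i)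

theorem grad_vT (h2 : Prof2 L χ ω) (σ a b : ℝ) (c x : E) :
    ‖fderiv ℝ (fun x => vv χ 0 (T σ a b c x)) x‖ ^ 2
        + ‖fderiv ℝ (fun x => vv χ 1 (T σ a b c x)) x‖ ^ 2
      = eV χ ω (Qp σ a b) (Qm σ a b) (Qr σ a b) (T σ a b c x) := by
  have hχ : HasFDerivAt (fun x => χ (sq (T σ a b c x)))
      (ω (sq (T σ a b c x)) •
        ((2 * T σ a b c x 0) • ((σ * (√(1 + a ^ 2 + b ^ 2) + a)) • pr 0 + (σ * b) • pr 1)
        + (2 * T σ a b c x 1) • ((σ * b) • pr 0 + (σ * (√(1 + a ^ 2 + b ^ 2) - a)) • pr 1))) x :=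
    (h2.deriv (sq (T σ a b c x))).comp_hasFDerivAt x (hasFDerivAt_sq σ a b c x)
  have hT0 := hasFDerivAt_T_zero σ a b c x
  have hT1 := hasFDerivAt_T_one σ a b c x
  have hb0 := (hT0.pow 2).sub (hT1.pow 2)
  have hb1 := (hT0.mul hT1).const_mul 2
  have g0 := (hχ.mul hb0).fderiv
  have g1 := (hχ.mul hb1).fderiv
  obtain ⟨F, hF⟩ : ∃ F, F = χ (sq (T σ a b c x)) := ⟨_, rfl⟩
  obtain ⟨G, hG⟩ : ∃ G, G = ω (sq (T σ a b c x)) := ⟨_, rfl⟩
  obtain ⟨y0, hy0⟩ : ∃ y, y = T σ a b c x 0 := ⟨_, rfl⟩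
  obtain ⟨y1, hy1⟩ : ∃ y, y = T σ a b c x 1 := ⟨_, rfl⟩
  obtain ⟨m, hm⟩ : ∃ m, m = √(1 + a ^ 2 + b ^ 2) := ⟨_, rfl⟩
  have e0 : fderiv ℝ (fun x => vv χ 0 (T σ a b c x)) x =
      ((2 * G * y0 * (y0 ^ 2 - y1 ^ 2) + 2 * F * y0) * (σ * (m + a))
        + (2 * G * y1 * (y0 ^ 2 - y1 ^ 2) - 2 * F * y1) * (σ * b)) • pr 0
      + ((2 * G * y0 * (y0 ^ 2 - y1 ^ 2) + 2 * F * y0) * (σ * b)
        + (2 * G * y1 * (y0 ^ 2 - y1 ^ 2) - 2 * F * y1) * (σ * (m - a))) • pr 1 := by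
    have : (fun x => vv χ 0 (T σ a b c x))
        = (fun x => χ (sq (T σ a b c x))) *
          ((fun x => T σ a b c x 0 ^ 2) - fun x => T σ a b c x 1 ^ 2) := by
      funext x
      show χ (sq (T σ a b c x)) * bb 0 (T σ a b c x) = _
      unfold bb
      rw [if_pos rfl]
      rfl
    rw [this, g0]
    simp only [Pi.sub_apply, ← hF, ← hG, ← hy0, ← hy1, ← hm]
    simp only [Nat.cast_ofNat, Nat.add_one_sub_one, pow_one, nsmul_eq_mul]
    module
  have e1 : fderiv ℝ (fun x => vv χ 1 (T σ a b c x)) x =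
      ((2 * G * y0 * (2 * (y0 * y1)) + 2 * F * y1) * (σ * (m + a))
        + (2 * G * y1 * (2 * (y0 * y1)) + 2 * F * y0) * (σ * b)) • pr 0
      + ((2 * G * y0 * (2 * (y0 * y1)) + 2 * F * y1) * (σ * b)
        + (2 * G * y1 * (2 * (y0 * y1)) + 2 * F * y0) * (σ * (m - a))) • pr 1 := by
    have : (fun x => vv χ 1 (T σ a b c x))
        = (fun x => χ (sq (T σ a b c x))) *
          (fun x => 2 * ((fun x => T σ a b c x 0) * (fun x => T σ a b c x 1)) x) := by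
      funext x
      show χ (sq (T σ a b c x)) * bb 1 (T σ a b c x) = _
      unfold bb
      rw [if_neg (by decide)]
      rfl
    rw [this, g1]
    simp only [Pi.mul_apply, ← hF, ← hG, ← hy0, ← hy1, ← hm]
    module
  rw [e0, e1, norm_sq_fun, norm_sq_fun]
  have hsq : sq (T σ a b c x) = y0 ^ 2 + y1 ^ 2 := by
    rw [hy0, hy1]
    rfl
  simp only [eV, N, Qp, Qm, Qr]
  rw [← hF, ← hG, hsq, ← hy0, ← hy1, ← hm]
  ring

end

end Pool.Agent.CS4
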