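import Pool.Agent.CS4.Defs
import Pool.Agent.CS4.DI
import Pool.Agent.Neu.Main1

/-!
CS4-MI: the mass inequality.

Bathtub argument for `H² = (s χ)²` and Cauchy-Schwarz for the two integrals over `D \ W`.
-/

set_option autoImplicit false

open MeasureTheory Set
open Pool.Agent.Neu

namespace Pool.Agent.CS4

section
variable {K L : ℝ} {φ ψ χ ω : ℝ → ℝ}

theorem pointwise_mass (h : Prof K φ ψ) (h2 : Prof2 L χ ω) {s : ℝ} (hs : s ∈ Icc (0 : ℝ) 1) :
    (s * χ s - s * φ s ^ 2) ^ 2 ≤ 1 - (s * χ s) ^ 2 := by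
  have a1 := h2.one_le s hs
  have a2 := h2.le s hs
  have a3 := h.one_le s hs
  have a4 := h.g_le hs
  obtain ⟨s0, s1⟩ := hs
  have b1 : s ≤ s * χ s := by nlinarith
  have b2 : s ≤ s * φ s ^ 2 := by nlinarith [mul_nonneg s0 (sub_nonneg.2 (one_le_pow₀ a3 (n := 2)))]
  generalize s * χ s = H at *
  generalize s * φ s ^ 2 = G at *
  have h1 : (1 - s) ^ 2 / 2 ≥ 0 := by positivity
  have hH1 : H ≤ 1 := by linarith
  rcases le_total G H with hGH | hGH
  · have c1 : (H - G) ^ 2 ≤ (H - s) ^ 2 := by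
      apply pow_le_pow_left₀ (by linarith)
      linarith
    have c2 : (H - s) ^ 2 ≤ 1 - H ^ 2 := by
      have d1 : 2 * (H * (H - s)) ≤ 2 * ((1 - (1 - s) ^ 2 / 2) * ((1 - (1 - s) ^ 2 / 2) - s)) := by
        have : H * (H - s) ≤ (1 - (1 - s) ^ 2 / 2) * ((1 - (1 - s) ^ 2 / 2) - s) :=
          mul_le_mul a2 (by linarith) (by linarith) (by nlinarith)
        linarith
      nlinarith [mul_nonneg h1 (show (0 : ℝ) ≤ 1 - s ^ 2 by nlinarith)]
    linarith
  · have c1 : (H - G) ^ 2 ≤ (1 - H) ^ 2 := by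
      rw [← neg_sq, neg_sub]
      apply pow_le_pow_left₀ (by linarith)
      linarith
    nlinarith

private theorem chi_cont (h2 : Prof2 L χ ω) : Continuous χ :=
  continuous_iff_continuousAt.2 fun s => (h2.deriv s).continuousAt

private theorem bb_sq (y : E) : bb 0 y ^ 2 + bb 1 y ^ 2 = sq y ^ 2 := by
  unfold bb Pool.Agent.Neu.sq
  rw [if_pos rfl, if_neg (by decide)]
  ring

/-- Cauchy-Schwarz on a set of measure at most `π` -/
private theorem cs_pi {f : E → ℝ} (hf : Continuous f) {S : Set E} (hb : Bornology.IsBounded S)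
    (hS : volume.real S ≤ Real.pi) : (∫ y in S, f y) ^ 2 / Real.pi ≤ ∫ y in S, f y ^ 2 := by
  have hpi := Real.pi_pos
  obtain ⟨I, hI⟩ : ∃ I, I = ∫ y in S, f y := ⟨_, rfl⟩
  obtain ⟨t, ht⟩ : ∃ t, t = I / Real.pi := ⟨_, rfl⟩
  have h0 : 0 ≤ ∫ y in S, (f y - t) ^ 2 := integral_nonneg fun y => sq_nonneg _
  have h1 : ∫ y in S, (f y - t) ^ 2 = (∫ y in S, f y ^ 2) - 2 * t * (∫ y in S, f y) +
      volume.real S * t ^ 2 := by
    have e : ∀ y, (f y - t) ^ 2 = (f y ^ 2 - 2 * t * f y) + t ^ 2 := fun y => by ring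
    have e1 : ∫ y in S, (f y - t) ^ 2 = ∫ y in S, ((f y ^ 2 - 2 * t * f y) + t ^ 2) :=
      integral_congr_ae (Filter.Eventually.of_forall fun y => e y)
    rw [e1, integral_add (M1x.intOn (by fun_prop) hb) (M1x.intOn continuous_const hb),
      integral_sub (M1x.intOn (by fun_prop) hb) (M1x.intOn (by fun_prop) hb),
      integral_const_mul, setIntegral_const, smul_eq_mul]
  rw [h1, ← hI] at h0
  rw [← hI]
  have h2 : volume.real S * t ^ 2 ≤ Real.pi * t ^ 2 := mul_le_mul_of_nonneg_right hS (sq_nonneg _)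
  have h3 : I = Real.pi * t := by
    rw [ht]
    field_simp
  have h4 : I ^ 2 / Real.pi = Real.pi * t ^ 2 := by
    rw [h3]
    field_simp
  rw [h4]
  rw [h3] at h0
  nlinarith

theorem mass_ge2 (h : Prof K φ ψ) (h2 : Prof2 L χ ω) {W : Set E}
    (hW : MeasurableSet W) (hb : Bornology.IsBounded W) (hv : volume W = ENNReal.ofReal Real.pi)
    (h1 : ∫ y in W, (w φ 0 y ^ 2 - w φ 1 y ^ 2) = 0) (h3 : ∫ y in W, w φ 0 y * w φ 1 y = 0) :
    Real.pi * (1 - 4 / L) + ((∫ y in W, vv χ 0 y) ^ 2 + (∫ y in W, vv χ 1 y) ^ 2) / Real.pi ≤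
      ∫ y in W, (vv χ 0 y ^ 2 + vv χ 1 y ^ 2) := by
  have cχ := chi_cont h2
  have cφ := h.phi_cont
  have cs := M1x.cont_sq
  have cb := cont_bb
  have bDW : Bornology.IsBounded (D \ W : Set E) := M1x.bdD.subset sdiff_subset
  have bWD : Bornology.IsBounded (W \ D : Set E) := hb.subset sdiff_subset
  have hDm : MeasurableSet (D : Set E) := M1x.measD
  -- the density `H²`
  have eH : ∀ y : E, vv χ 0 y ^ 2 + vv χ 1 y ^ 2 = (χ (sq y) * sq y) ^ 2 := by
    intro y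
    unfold vv
    have := bb_sq y
    rw [mul_pow, mul_pow, ← mul_add, this]
    ring
  have cH : Continuous fun y : E => (χ (sq y) * sq y) ^ 2 := by fun_prop
  have g1 : ∫ y in W, (vv χ 0 y ^ 2 + vv χ 1 y ^ 2) = ∫ y in W, (χ (sq y) * sq y) ^ 2 :=
    integral_congr_ae (Filter.Eventually.of_forall fun y => eH y)
  have g2 : (∫ y in W ∩ D, (χ (sq y) * sq y) ^ 2) + ∫ y in W \ D, (χ (sq y) * sq y) ^ 2 =
      ∫ y in W, (χ (sq y) * sq y) ^ 2 := integral_inter_add_sdiff hDm (M1x.intOn cH hb)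
  have g3 : (∫ y in D ∩ W, (χ (sq y) * sq y) ^ 2) + ∫ y in D \ W, (χ (sq y) * sq y) ^ 2 =
      ∫ y in D, (χ (sq y) * sq y) ^ 2 := integral_inter_add_sdiff hW (M1x.intOn cH M1x.bdD)
  rw [mass_disc h2, inter_comm] at g3
  have hout : ∀ y : E, y ∈ W \ D → χ (sq y) = 1 / sq y ∧ 1 ≤ sq y := by
    intro y hy
    have h5 : 1 ≤ sq y := not_lt.1 fun h6 => hy.2 (M1x.mem_D.2 h6)
    exact ⟨h2.out _ h5, h5⟩
  have g4 : ∫ y in W \ D, (χ (sq y) * sq y) ^ 2 = volume.real (W \ D) := by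
    have : ∫ y in W \ D, (χ (sq y) * sq y) ^ 2 = ∫ y in W \ D, (1 : ℝ) := by
      refine setIntegral_congr_fun (hW.diff hDm) fun y hy => ?_
      obtain ⟨h5, h6⟩ := hout y hy
      show (χ (sq y) * sq y) ^ 2 = 1
      rw [h5, one_div, inv_mul_cancel₀ (by linarith), one_pow]
    rw [this, setIntegral_const, smul_eq_mul, mul_one]
  have g5 : ∫ y in D \ W, (1 - (χ (sq y) * sq y) ^ 2) =
      volume.real (D \ W) - ∫ y in D \ W, (χ (sq y) * sq y) ^ 2 := by
    rw [integral_sub (M1x.intOn continuous_const bDW) (M1x.intOn cH bDW), setIntegral_const,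
      smul_eq_mul, mul_one]
  have g6 := M1x.vol_diff hW hv
  -- the two integrals
  have key : ∀ i : Fin 2, ∫ y in W, φ (sq y) ^ 2 * bb i y = 0 →
      (∫ y in W, vv χ i y) = -∫ y in D \ W, (χ (sq y) - φ (sq y) ^ 2) * bb i y := by
    intro i h0
    have cbi := cb i
    have cf : Continuous fun y : E => (χ (sq y) - φ (sq y) ^ 2) * bb i y := by fun_prop
    have k1 : (∫ y in W, vv χ i y) = ∫ y in W, (χ (sq y) - φ (sq y) ^ 2) * bb i y := by
      have e : ∀ y : E, vv χ i y = (χ (sq y) - φ (sq y) ^ 2) * bb i y + φ (sq y) ^ 2 * bb i y := by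
        intro y
        unfold vv
        ring
      have e1 : (∫ y in W, vv χ i y) =
          ∫ y in W, ((χ (sq y) - φ (sq y) ^ 2) * bb i y + φ (sq y) ^ 2 * bb i y) :=
        integral_congr_ae (Filter.Eventually.of_forall fun y => e y)
      rw [e1, integral_add (M1x.intOn cf hb) (M1x.intOn (by fun_prop) hb), h0, add_zero]
    have k2 : (∫ y in W ∩ D, (χ (sq y) - φ (sq y) ^ 2) * bb i y) +
        ∫ y in W \ D, (χ (sq y) - φ (sq y) ^ 2) * bb i y =
        ∫ y in W, (χ (sq y) - φ (sq y) ^ 2) * bb i y :=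
      integral_inter_add_sdiff hDm (M1x.intOn cf hb)
    have k3 : (∫ y in D ∩ W, (χ (sq y) - φ (sq y) ^ 2) * bb i y) +
        ∫ y in D \ W, (χ (sq y) - φ (sq y) ^ 2) * bb i y =
        ∫ y in D, (χ (sq y) - φ (sq y) ^ 2) * bb i y :=
      integral_inter_add_sdiff hW (M1x.intOn cf M1x.bdD)
    have k4 : ∫ y in D, (χ (sq y) - φ (sq y) ^ 2) * bb i y = 0 :=
      int_bb_disc (F := fun s => χ s - φ s ^ 2) (by fun_prop) i
    have k5 : ∫ y in W \ D, (χ (sq y) - φ (sq y) ^ 2) * bb i y = 0 := by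
      have : ∫ y in W \ D, (χ (sq y) - φ (sq y) ^ 2) * bb i y = ∫ y in W \ D, (0 : ℝ) := by
        refine setIntegral_congr_fun (hW.diff hDm) fun y hy => ?_
        obtain ⟨h5, h6⟩ := hout y hy
        show (χ (sq y) - φ (sq y) ^ 2) * bb i y = 0
        rw [h5, h.out _ h6, div_pow, one_pow, Real.sq_sqrt (by linarith), sub_self, zero_mul]
      rw [this, integral_zero]
    rw [k4, inter_comm] at k3
    rw [k1]
    linarith
  have z0 : ∫ y in W, φ (sq y) ^ 2 * bb 0 y = 0 := by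
    rw [← h1]
    refine integral_congr_ae (Filter.Eventually.of_forall fun y => ?_)
    show φ (sq y) ^ 2 * bb 0 y = w φ 0 y ^ 2 - w φ 1 y ^ 2
    unfold bb w
    rw [if_pos rfl]
    ring
  have z1 : ∫ y in W, φ (sq y) ^ 2 * bb 1 y = 0 := by
    have e : ∫ y in W, φ (sq y) ^ 2 * bb 1 y = ∫ y in W, 2 * (w φ 0 y * w φ 1 y) := by
      refine integral_congr_ae (Filter.Eventually.of_forall fun y => ?_)
      show φ (sq y) ^ 2 * bb 1 y = 2 * (w φ 0 y * w φ 1 y)
      unfold bb w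
      rw [if_neg (by decide)]
      ring
    rw [e, integral_const_mul, h3, mul_zero]
  have cb0 := cb 0
  have cb1 := cb 1
  have cf0 : Continuous fun y : E => (χ (sq y) - φ (sq y) ^ 2) * bb 0 y := by fun_prop
  have cf1 : Continuous fun y : E => (χ (sq y) - φ (sq y) ^ 2) * bb 1 y := by fun_prop
  have hvol : volume.real (D \ W : Set E) ≤ Real.pi := by
    have hDf : volume (D : Set E) ≠ ⊤ := by rw [disc_volume]; exact ENNReal.ofReal_ne_top
    have h5 : volume.real (D \ W : Set E) ≤ volume.real (D : Set E) :=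
      measureReal_mono sdiff_subset hDf
    have h6 : volume.real (D : Set E) = Real.pi := by
      unfold Measure.real
      rw [disc_volume, ENNReal.toReal_ofReal Real.pi_pos.le]
    linarith
  have q0 := cs_pi cf0 bDW hvol
  have q1 := cs_pi cf1 bDW hvol
  have q2 : (∫ y in D \ W, ((χ (sq y) - φ (sq y) ^ 2) * bb 0 y) ^ 2) +
      ∫ y in D \ W, ((χ (sq y) - φ (sq y) ^ 2) * bb 1 y) ^ 2 ≤
      ∫ y in D \ W, (1 - (χ (sq y) * sq y) ^ 2) := by
    rw [← integral_add (M1x.intOn (by fun_prop) bDW) (M1x.intOn (by fun_prop) bDW)]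
    refine setIntegral_mono_on (M1x.intOn (by fun_prop) bDW) (M1x.intOn (by fun_prop) bDW)
      (hDm.diff hW) fun y hy => ?_
    have hs : sq y ∈ Icc (0 : ℝ) 1 := ⟨M1x.sq_nonneg y, (M1x.mem_D.1 hy.1).le⟩
    have p1 := pointwise_mass h h2 hs
    have p2 := bb_sq y
    have e : ((χ (sq y) - φ (sq y) ^ 2) * bb 0 y) ^ 2 + ((χ (sq y) - φ (sq y) ^ 2) * bb 1 y) ^ 2 =
        (sq y * χ (sq y) - sq y * φ (sq y) ^ 2) ^ 2 := by
      have e2 : ((χ (sq y) - φ (sq y) ^ 2) * bb 0 y) ^ 2 + ((χ (sq y) - φ (sq y) ^ 2) * bb 1 y) ^ 2 =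
          (χ (sq y) - φ (sq y) ^ 2) ^ 2 * (bb 0 y ^ 2 + bb 1 y ^ 2) := by ring
      rw [e2, p2]
      ring
    rw [e]
    have e3 : χ (sq y) * sq y = sq y * χ (sq y) := mul_comm _ _
    rw [e3]
    exact p1
  rw [key 0 z0, key 1 z1, neg_sq, neg_sq, add_div, g1]
  rw [g5] at q2
  linarith

end

end Pool.Agent.CS4
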