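import Pool.Agent.CS4.Defs
import Pool.Agent.Neu.Ode
import Pool.Agent.Neu.Main1

/-!
CS4-Sy: if `W = 2 z - W` and `∫_W w = 0` then `z = 0`.

PLAN.  The reflection `y ↦ 2 z - y` preserves `W` and the measure, `w` is odd, so
`0 = ∫_W w_i(2z - y) dy = - ∫_W w_i(y - 2z) dy`; hence `∫_W ∑_i (w_i(y) - w_i(y - 2z)) (2 z_i) dy = 0`.
Monotonicity: for `y' = y - 2z`, with `g(r) = r φ(r²)` nondecreasing (`g = 1` for `r ≥ 1`),
`∑_i (w_i(y) - w_i(y')) (y_i - y'_i) = (r - r')(g(r) - g(r')) + (g(r) r' + g(r') r)(1 - cos angle) ≥ 0`, with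
equality only if `y, y'` are parallel (or one is 0).  Division free: `= φ s + φ' s' - (φ + φ')⟨y,y'⟩` where
`φ = φ(s)`, `φ' = φ(s')`, `φ, φ' > 0`, and `⟨y,y'⟩ < r r'` unless parallel.  The integrand is continuous and
`≥ 0`, so it vanishes on the open set `W` (`setIntegral` of a nonnegative continuous function, cf.
`Continuous.integral_pos_of_...` or `setIntegral_eq_zero_iff_of_nonneg_ae`), so `y 0 z 1 = y 1 z 0` on `W`,
impossible for an open nonempty `W` if `z ≠ 0`.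
-/

set_option autoImplicit false

open MeasureTheory Set
open Pool.Agent.Neu

namespace Pool.Agent.CS4

private theorem cz_mono {K : ℝ} {φ ψ : ℝ → ℝ} (h : Prof K φ ψ) {a b : ℝ} (ha : 0 ≤ a)
    (hab : a ≤ b) : a * φ (a ^ 2) ≤ b * φ (b ^ 2) := by
  have hd : ∀ r : ℝ, HasDerivAt (fun r : ℝ => r * φ (r ^ 2)) (φ (r ^ 2) + 2 * r ^ 2 * ψ (r ^ 2)) r := by
    intro r
    have a1 : HasDerivAt (fun r : ℝ => r ^ 2) (2 * r) r := by
      simpa using hasDerivAt_pow 2 r
    have a2 : HasDerivAt (fun r : ℝ => φ (r ^ 2)) (ψ (r ^ 2) * (2 * r)) r :=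
      HasDerivAt.comp (h := fun r : ℝ => r ^ 2) (h₂ := φ) r (h.deriv (r ^ 2)) a1
    refine ((hasDerivAt_id r).mul a2).congr_deriv ?_
    simp only [id]
    ring
  have hm : MonotoneOn (fun r : ℝ => r * φ (r ^ 2)) (Icc (0 : ℝ) 1) := by
    refine monotoneOn_of_deriv_nonneg (convex_Icc 0 1)
      (fun r _ => (hd r).continuousAt.continuousWithinAt)
      (fun r _ => (hd r).differentiableAt.differentiableWithinAt) fun r hr => ?_
    rw [interior_Icc] at hr
    rw [(hd r).deriv]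
    exact h.mono _ ⟨by positivity, by nlinarith [hr.1, hr.2]⟩
  have ho : ∀ r : ℝ, 1 ≤ r → r * φ (r ^ 2) = 1 := by
    intro r hr
    have hr0 : 0 < r := zero_lt_one.trans_le hr
    rw [h.out (r ^ 2) (by nlinarith), Real.sqrt_sq hr0.le]
    field_simp
  rcases le_or_gt b 1 with hb | hb
  · exact hm ⟨ha, hab.trans hb⟩ ⟨ha.trans hab, hb⟩ hab
  · rw [ho b hb.le]
    rcases le_or_gt a 1 with h1 | h1
    · have := hm ⟨ha, h1⟩ ⟨zero_le_one, le_rfl⟩ h1
      rw [← ho 1 le_rfl]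
      exact this
    · rw [ho a h1.le]

/-- the monotonicity of the field, with the case of equality -/
private theorem cz_key {K : ℝ} {φ ψ : ℝ → ℝ} (h : Prof K φ ψ) (y v : E) :
    0 ≤ (w φ 0 y + w φ 0 v) * (y 0 + v 0) + (w φ 1 y + w φ 1 v) * (y 1 + v 1) ∧
    ((w φ 0 y + w φ 0 v) * (y 0 + v 0) + (w φ 1 y + w φ 1 v) * (y 1 + v 1) = 0 →
      y 0 * v 1 = y 1 * v 0) := by
  have hs : 0 ≤ sq y := by unfold Neu.sq; positivity
  have ht : 0 ≤ sq v := by unfold Neu.sq; positivity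
  obtain ⟨r, hr0, hr⟩ : ∃ r : ℝ, 0 ≤ r ∧ r ^ 2 = sq y := ⟨√(sq y), Real.sqrt_nonneg _, Real.sq_sqrt hs⟩
  obtain ⟨u, hu0, hu⟩ : ∃ r : ℝ, 0 ≤ r ∧ r ^ 2 = sq v := ⟨√(sq v), Real.sqrt_nonneg _, Real.sq_sqrt ht⟩
  have hA : 0 < φ (sq y) := h.phi_pos hs
  have hB : 0 < φ (sq v) := h.phi_pos ht
  have hy : sq y = y 0 ^ 2 + y 1 ^ 2 := rfl
  have hv : sq v = v 0 ^ 2 + v 1 ^ 2 := rfl
  obtain ⟨c, hc⟩ : ∃ c : ℝ, c = y 0 * v 0 + y 1 * v 1 := ⟨_, rfl⟩
  have hL : (y 0 * v 1 - y 1 * v 0) ^ 2 = (r * u) ^ 2 - c ^ 2 := by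
    rw [mul_pow, hr, hu, hy, hv, hc]
    ring
  have hcr : -(r * u) ≤ c := by
    have h1 : c ^ 2 ≤ (r * u) ^ 2 := by nlinarith [sq_nonneg (y 0 * v 1 - y 1 * v 0)]
    exact (abs_le_of_sq_le_sq' h1 (mul_nonneg hr0 hu0)).1
  have hg : 0 ≤ (r - u) * (r * φ (sq y) - u * φ (sq v)) := by
    rcases le_total r u with h1 | h1
    · have h2 := cz_mono h hr0 h1
      rw [hr, hu] at h2
      exact mul_nonneg_of_nonpos_of_nonpos (by linarith) (by linarith)
    · have h2 := cz_mono h hu0 h1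
      rw [hr, hu] at h2
      exact mul_nonneg (by linarith) (by linarith)
  have hF : (w φ 0 y + w φ 0 v) * (y 0 + v 0) + (w φ 1 y + w φ 1 v) * (y 1 + v 1) =
      (r - u) * (r * φ (sq y) - u * φ (sq v)) + (φ (sq y) + φ (sq v)) * (c + r * u) := by
    have e : (r - u) * (r * φ (sq y) - u * φ (sq v)) =
        r ^ 2 * φ (sq y) + u ^ 2 * φ (sq v) - r * u * (φ (sq y) + φ (sq v)) := by ring
    rw [e, hr, hu, hc]
    unfold w
    linear_combination (-φ (sq y)) * hy - φ (sq v) * hv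
  have hp : 0 ≤ (φ (sq y) + φ (sq v)) * (c + r * u) := mul_nonneg (by linarith) (by linarith)
  refine ⟨by rw [hF]; linarith, fun h0 => ?_⟩
  rw [hF] at h0
  have h1 : (φ (sq y) + φ (sq v)) * (c + r * u) = 0 := by linarith
  have h2 : c + r * u = 0 := (mul_eq_zero.1 h1).resolve_left (by linarith)
  have h3 : (y 0 * v 1 - y 1 * v 0) ^ 2 = 0 := by
    rw [hL]
    have : c = -(r * u) := by linarith
    rw [this]
    ring
  have h4 := pow_eq_zero_iff (two_ne_zero) |>.1 h3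
  linarith

theorem center_zero {K : ℝ} {φ ψ : ℝ → ℝ} (h : Prof K φ ψ) {W : Set E} (hW : IsOpen W)
    (hb : Bornology.IsBounded W) (hne : W.Nonempty) {z : E} (hs : ∀ y ∈ W, (2 : ℝ) • z - y ∈ W)
    (h0 : ∀ i, ∫ y in W, w φ i y = 0) : z = 0 := by
  have hrefl : ∀ i, ∫ y in W, w φ i ((2 : ℝ) • z - y) = 0 := by
    intro i
    have hmp : MeasurePreserving (fun y : E => (2 : ℝ) • z - y) volume volume :=
      Measure.measurePreserving_sub_left volume _
    have hme : MeasurableEmbedding (fun y : E => (2 : ℝ) • z - y) :=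
      (Homeomorph.subLeft ((2 : ℝ) • z)).measurableEmbedding
    have h1 := hmp.setIntegral_preimage_emb hme (w φ i) W
    have h2 : (fun y : E => (2 : ℝ) • z - y) ⁻¹' W = W := by
      ext y
      refine ⟨fun hy => ?_, fun hy => hs y hy⟩
      have h3 := hs _ hy
      rwa [sub_sub_cancel] at h3
    rw [h2, h0 i] at h1
    exact h1
  have cw : ∀ i, Continuous (w φ i) := fun i => M1x.cont_w h i
  have cw' : ∀ i, Continuous fun y : E => w φ i ((2 : ℝ) • z - y) := fun i =>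
    (cw i).comp (continuous_const.sub continuous_id)
  obtain ⟨F, hF⟩ : ∃ F : E → ℝ, ∀ y, F y = (w φ 0 y + w φ 0 ((2 : ℝ) • z - y)) * (2 * z 0) +
      (w φ 1 y + w φ 1 ((2 : ℝ) • z - y)) * (2 * z 1) := ⟨_, fun _ => rfl⟩
  have hFe : F = fun y => (w φ 0 y + w φ 0 ((2 : ℝ) • z - y)) * (2 * z 0) +
      (w φ 1 y + w φ 1 ((2 : ℝ) • z - y)) * (2 * z 1) := funext hF
  have hFc : Continuous F := by
    rw [hFe]
    exact (((cw 0).add (cw' 0)).mul continuous_const).add
      (((cw 1).add (cw' 1)).mul continuous_const)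
  have hF' : ∀ y, F y = (w φ 0 y + w φ 0 ((2 : ℝ) • z - y)) * (y 0 + ((2 : ℝ) • z - y) 0) +
      (w φ 1 y + w φ 1 ((2 : ℝ) • z - y)) * (y 1 + ((2 : ℝ) • z - y) 1) := by
    intro y
    rw [hF]
    simp only [PiLp.sub_apply, PiLp.smul_apply, smul_eq_mul, add_sub_cancel]
  have hF0 : ∀ y, 0 ≤ F y := fun y => by
    rw [hF']
    exact (cz_key h y _).1
  have hint : ∫ y in W, F y = 0 := by
    rw [hFe]
    rw [integral_add, integral_mul_const, integral_mul_const, integral_add, integral_add,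
      h0, h0, hrefl, hrefl]
    · ring
    · exact M1x.intOn (cw 1) hb
    · exact M1x.intOn (cw' 1) hb
    · exact M1x.intOn (cw 0) hb
    · exact M1x.intOn (cw' 0) hb
    · exact M1x.intOn (((cw 0).add (cw' 0)).mul continuous_const) hb
    · exact M1x.intOn (((cw 1).add (cw' 1)).mul continuous_const) hb
  have hzero : ∀ y ∈ W, F y = 0 := by
    intro y hy
    by_contra hne'
    have hpos : 0 < ∫ y in W, F y := by
      rw [setIntegral_pos_iff_support_of_nonneg_ae (Filter.Eventually.of_forall hF0)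
        (M1x.intOn hFc hb)]
      exact (hFc.isOpen_support.inter hW).measure_pos volume ⟨y, hne', hy⟩
    rw [hint] at hpos
    exact lt_irrefl _ hpos
  have hpar : ∀ y ∈ W, y 0 * z 1 = y 1 * z 0 := by
    intro y hy
    have h1 := hzero y hy
    rw [hF'] at h1
    have h2 := (cz_key h y _).2 h1
    simp only [PiLp.sub_apply, PiLp.smul_apply, smul_eq_mul] at h2
    linarith
  obtain ⟨y, hy⟩ := hne
  obtain ⟨δ, hδ, hball⟩ := Metric.isOpen_iff.1 hW y hy
  have hmem : ∀ i, y + PiLp.single 2 i (δ / 2) ∈ W := by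
    intro i
    apply hball
    rw [Metric.mem_ball, dist_eq_norm, add_sub_cancel_left, PiLp.norm_single,
      Real.norm_eq_abs, abs_of_pos (by linarith)]
    linarith
  have h1 := hpar y hy
  have h2 := hpar _ (hmem 0)
  have h3 := hpar _ (hmem 1)
  simp only [PiLp.add_apply, PiLp.single_apply] at h2 h3
  norm_num at h2 h3
  have hz1 : z 1 = 0 := by
    have : δ / 2 * z 1 = 0 := by linarith
    exact (mul_eq_zero.1 this).resolve_left (by linarith)
  have hz0 : z 0 = 0 := by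
    have : δ / 2 * z 0 = 0 := by linarith
    exact (mul_eq_zero.1 this).resolve_left (by linarith)
  ext i
  fin_cases i
  · exact hz0
  · exact hz1

end Pool.Agent.CS4
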