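import Pool.Agent.CS4.Defs
import Pool.Agent.NSY.TrU
import Pool.Agent.NSY.GrM

/-!
CS4-Tr: trace bound with three trial functions.

`NSY.sum_mu_le` with `n = 4`, `w = ![1, v 0, v 1, u]`: the Gram matrix is `diagonal ![|Ω|, M, M, m]`, its inverse is diagonal, and the
trace is `0 + E_0 / M + E_1 / M + E_u / m`; `mu Ω 1 ≥ 0`.
-/

set_option autoImplicit false

open MeasureTheory Set
open Pool.Agent.Neu

namespace Pool.Agent.CS4

theorem mu_sum3 {Ω : Set E} (hΩ : IsOpen Ω) (hb : Bornology.IsBounded Ω) (hne : Ω.Nonempty)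
    {v : Fin 2 → E → ℝ} (hv : ∀ i, ContDiff ℝ 1 (v i)) {u : E → ℝ} (hu : ContDiff ℝ 1 u)
    (h0 : ∀ i, ∫ x in Ω, v i x = 0) (h1 : ∫ x in Ω, v 0 x * v 1 x = 0) {M : ℝ} (hM : 0 < M)
    (h2 : ∀ i, ∫ x in Ω, v i x ^ 2 = M) (hu0 : ∫ x in Ω, u x = 0)
    (hu1 : ∀ i, ∫ x in Ω, u x * v i x = 0) {m : ℝ} (hm : 0 < m) (hu2 : ∫ x in Ω, u x ^ 2 = m) :
    mu Ω 2 + mu Ω 3 + mu Ω 4 ≤
      ((∫ x in Ω, ‖fderiv ℝ (v 0) x‖ ^ 2) + ∫ x in Ω, ‖fderiv ℝ (v 1) x‖ ^ 2) / M +
        (∫ x in Ω, ‖fderiv ℝ u x‖ ^ 2) / m := by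
  set A : ℝ := ∫ _ in Ω, (1 : ℝ) with hAd
  have hA : 0 < A := by
    rw [hAd, setIntegral_const, smul_eq_mul, mul_one]
    exact ENNReal.toReal_pos (hΩ.measure_pos volume hne).ne' hb.measure_lt_top.ne
  set w : Fin 4 → E → ℝ := ![fun _ => 1, v 0, v 1, u] with hwd
  set d : Fin 4 → ℝ := ![A, M, M, m] with hdd
  have hw : ∀ j, ContDiff ℝ 1 (w j) := by
    intro j
    fin_cases j
    · exact contDiff_const
    · exact hv 0
    · exact hv 1
    · exact hu
  have h10 : ∫ x in Ω, v 1 x * v 0 x = 0 := by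
    rw [← h1]
    congr 1
    ext x
    ring
  have hvu : ∀ i, ∫ x in Ω, v i x * u x = 0 := by
    intro i
    rw [← hu1 i]
    congr 1
    ext x
    ring
  have hvv : ∀ i, ∫ x in Ω, v i x * v i x = M := by
    intro i
    rw [← h2 i]
    congr 1
    ext x
    ring
  have huu : ∫ x in Ω, u x * u x = m := by
    rw [← hu2]
    congr 1
    ext x
    ring
  have hG : NSY.gramM Ω w = Matrix.diagonal d := by
    ext i j
    show ∫ x in Ω, w i x * w j x = Matrix.diagonal d i j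
    fin_cases i <;> fin_cases j
    · show ∫ x in Ω, (1 : ℝ) * 1 = A
      rw [hAd]
      simp only [mul_one]
    · show ∫ x in Ω, (1 : ℝ) * v 0 x = 0
      simp only [one_mul]
      exact h0 0
    · show ∫ x in Ω, (1 : ℝ) * v 1 x = 0
      simp only [one_mul]
      exact h0 1
    · show ∫ x in Ω, (1 : ℝ) * u x = 0
      simp only [one_mul]
      exact hu0
    · show ∫ x in Ω, v 0 x * (1 : ℝ) = 0
      simp only [mul_one]
      exact h0 0
    · exact hvv 0
    · exact h1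
    · exact hvu 0
    · show ∫ x in Ω, v 1 x * (1 : ℝ) = 0
      simp only [mul_one]
      exact h0 1
    · exact h10
    · exact hvv 1
    · exact hvu 1
    · show ∫ x in Ω, u x * (1 : ℝ) = 0
      simp only [mul_one]
      exact hu0
    · exact hu1 0
    · exact hu1 1
    · exact huu
  have hd : ∀ i, 0 < d i := by
    intro i
    fin_cases i
    · exact hA
    · exact hM
    · exact hM
    · exact hm
  have hpd : (NSY.gramM Ω w).PosDef := by
    rw [hG]
    exact Matrix.PosDef.diagonal hd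
  have hinv : (NSY.gramM Ω w)⁻¹ = Matrix.diagonal (fun i => (d i)⁻¹) := by
    rw [hG]
    apply Matrix.inv_eq_left_inv
    rw [Matrix.diagonal_mul_diagonal, ← Matrix.diagonal_one]
    congr 1
    ext i
    exact inv_mul_cancel₀ (hd i).ne'
  have hmain := NSY.sum_mu_le hΩ hb hw hpd
  rw [hinv] at hmain
  have htr : (Matrix.diagonal (fun i => (d i)⁻¹) * NSY.enM Ω w).trace =
      ∑ i, (d i)⁻¹ * ∫ x in Ω, ‖fderiv ℝ (w i) x‖ ^ 2 := by
    rw [Matrix.trace]
    refine Finset.sum_congr rfl fun i _ => ?_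
    rw [Matrix.diag_apply, Matrix.diagonal_mul, NSY.enM_diag]
  have hs : ∑ i ∈ Finset.Icc 1 4, mu Ω i = mu Ω 1 + mu Ω 2 + mu Ω 3 + mu Ω 4 := by
    rw [Finset.sum_Icc_succ_top (by norm_num), Finset.sum_Icc_succ_top (by norm_num),
      Finset.sum_Icc_succ_top (by norm_num), Finset.Icc_self, Finset.sum_singleton]
  have hc : ∫ x in Ω, ‖fderiv ℝ (w 0) x‖ ^ 2 = 0 := by
    have h3 : ∀ x, fderiv ℝ (w 0) x = 0 := by
      intro x
      show fderiv ℝ (fun _ : E => (1 : ℝ)) x = 0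
      exact fderiv_const_apply 1
    simp only [h3, norm_zero]
    simp
  rw [htr, hs, Fin.sum_univ_four, hc] at hmain
  have hmu := NSY.mu_nonneg Ω 1
  have e0 : w 1 = v 0 := rfl
  have e1 : w 2 = v 1 := rfl
  have e2 : w 3 = u := rfl
  have f0 : d 1 = M := rfl
  have f1 : d 2 = M := rfl
  have f2 : d 3 = m := rfl
  rw [e0, e1, e2, f0, f1, f2] at hmain
  rw [add_div, div_eq_inv_mul, div_eq_inv_mul, div_eq_inv_mul]
  linarith

end Pool.Agent.CS4
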