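import Pool.Agent.CS4.Defs
import Pool.Agent.CS4.EI
import Pool.Agent.CS4.MI
import Pool.Agent.CS4.Gr
import Pool.Agent.CS4.Sy
import Pool.Agent.CS4.Tr
import Pool.Agent.CS4.Pt
import Pool.Agent.Neu.Final

/-!
CS4-UB: upper bound for centrally symmetric sets.
-/

set_option autoImplicit false

open MeasureTheory Set
open Pool.Agent.Neu
open Pool.Agent.NSY (FF)

namespace Pool.Agent.CS4

/-- `T` is affine -/
private theorem ub_T_refl (σ a b : ℝ) (c p x : E) :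
    T σ a b c ((2 : ℝ) • p - x) = (2 : ℝ) • T σ a b c p - T σ a b c x := by
  ext i
  fin_cases i
  · simp [T]; ring
  · simp [T]; ring

private theorem ub_sq_neg (y : E) : Pool.Agent.Neu.sq (-y) = Pool.Agent.Neu.sq y := by
  simp [Pool.Agent.Neu.sq]

private theorem ub_w_neg (φ : ℝ → ℝ) (i : Fin 2) (y : E) : w φ i (-y) = -w φ i y := by
  simp [w, ub_sq_neg]

private theorem ub_vv_neg (χ : ℝ → ℝ) (i : Fin 2) (y : E) : vv χ i (-y) = vv χ i y := by
  simp [vv, bb, ub_sq_neg]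

/-- integrals over a set with a centre of symmetry -/
private theorem ub_refl {Ω : Set E} {p : E}
    (hs : ∀ x ∈ Ω, (2 : ℝ) • p - x ∈ Ω) {F : Type*} [NormedAddCommGroup F] [NormedSpace ℝ F]
    (f : E → F) :
    ∫ x in Ω, f ((2 : ℝ) • p - x) = ∫ x in Ω, f x := by
  have himg : (fun x : E => (2 : ℝ) • p - x) ⁻¹' Ω = Ω := by
    ext x
    constructor
    · intro hx
      have := hs _ hx
      simpa using this
    · intro hx
      exact hs x hx
  have h1 := (Measure.measurePreserving_sub_left (volume : Measure E) ((2 : ℝ) • p)).setIntegral_preimage_emb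
    (MeasurableEquiv.subLeft ((2 : ℝ) • p)).measurableEmbedding f Ω
  have h2 : (fun x : E => (2 : ℝ) • p - x) ⁻¹' Ω = Ω := himg
  rw [h2] at h1
  exact h1

private theorem ub_odd {Ω : Set E} {p : E}
    (hs : ∀ x ∈ Ω, (2 : ℝ) • p - x ∈ Ω) {f : E → ℝ} (hf : ∀ x, f ((2 : ℝ) • p - x) = -f x) :
    ∫ x in Ω, f x = 0 := by
  have h1 := ub_refl hs f
  simp only [hf] at h1
  rw [integral_neg] at h1
  linarith

private theorem ub_open {σ : ℝ} (hσ : 0 < σ) (a b : ℝ) (c : E) {Ω : Set E} (hΩ : IsOpen Ω) :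
    IsOpen (T σ a b c '' Ω) := by
  have hm : √(1 + a ^ 2 + b ^ 2) ^ 2 = 1 + a ^ 2 + b ^ 2 := Real.sq_sqrt (by positivity)
  set m := √(1 + a ^ 2 + b ^ 2) with hmd
  let S : E → E := fun y => !₂[σ⁻¹ * ((m - a) * (y 0 - c 0) - b * (y 1 - c 1)),
    σ⁻¹ * (-b * (y 0 - c 0) + (m + a) * (y 1 - c 1))]
  have hS : Continuous S := by
    refine (PiLp.continuous_toLp 2 _).comp (continuous_pi fun i => ?_)
    fin_cases i
    · simp only [Fin.zero_eta, Matrix.cons_val_zero]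
      fun_prop
    · simp only [Fin.mk_one, Matrix.cons_val_one, Matrix.cons_val_zero]
      fun_prop
  have h1 : ∀ x, S (T σ a b c x) = x := by
    intro x
    ext i
    fin_cases i
    · simp only [S, T, ← hmd]
      simp
      field_simp
      linear_combination (x 0) * hm
    · simp only [S, T, ← hmd]
      simp
      field_simp
      linear_combination (x 1) * hm
  have h2 : ∀ y, T σ a b c (S y) = y := by
    intro y
    ext i
    fin_cases i
    · simp only [S, T, ← hmd]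
      simp
      field_simp
      linear_combination (y 0 - c 0) * hm
    · simp only [S, T, ← hmd]
      simp
      field_simp
      linear_combination (y 1 - c 1) * hm
  have h3 : T σ a b c '' Ω = S ⁻¹' Ω := by
    ext y
    constructor
    · rintro ⟨x, hx, rfl⟩
      show S (T σ a b c x) ∈ Ω
      rw [h1]; exact hx
    · intro hy
      exact ⟨S y, hy, h2 y⟩
  rw [h3]
  exact hΩ.preimage hS

/-- the third trial function -/
private theorem ub_pick {E0 E1 m0 m1 Λ : ℝ} (hE0 : 0 ≤ E0) (hE1 : 0 ≤ E1) (hm0 : 0 ≤ m0)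
    (hm1 : 0 ≤ m1) (hc : 0 < m0 + m1) (h : E0 + E1 ≤ Λ * (m0 + m1)) :
    (0 < m0 ∧ E0 ≤ Λ * m0) ∨ (0 < m1 ∧ E1 ≤ Λ * m1) := by
  by_contra hcon
  push Not at hcon
  obtain ⟨h0, h1⟩ := hcon
  rcases hm0.eq_or_lt with e0 | p0
  · have p1 : 0 < m1 := by linarith
    have := h1 p1
    rw [← e0] at h
    simp only [zero_add] at h
    linarith
  · have q0 := h0 p0
    rcases hm1.eq_or_lt with e1 | p1
    · rw [← e1] at h
      simp only [add_zero] at h
      linarith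
    · have q1 := h1 p1
      nlinarith

/-- variance of a function with mean `c` -/
private theorem ub_var {Ω : Set E} (hb : Bornology.IsBounded Ω) {f : E → ℝ} (hf : Continuous f)
    {A : ℝ} (hA : A = (volume Ω).toReal) (hA0 : 0 < A) :
    (∫ x in Ω, (f x - (∫ y in Ω, f y) / A) = 0) ∧
      ∫ x in Ω, (f x - (∫ y in Ω, f y) / A) ^ 2 = (∫ x in Ω, f x ^ 2) - (∫ y in Ω, f y) ^ 2 / A := by
  have i1 : IntegrableOn f Ω := Pool.Agent.Neu.intOn hf hb
  have i2 : IntegrableOn (fun x => f x ^ 2) Ω := Pool.Agent.Neu.intOn (hf.pow 2) hb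
  have ic : ∀ c : ℝ, IntegrableOn (fun _ : E => c) Ω := fun c =>
    Pool.Agent.Neu.intOn continuous_const hb
  have hreal : volume.real Ω = A := by rw [hA]; rfl
  constructor
  · rw [integral_sub i1 (ic _), setIntegral_const, hreal, smul_eq_mul]
    field_simp
    ring
  · set c := (∫ y in Ω, f y) / A with hc
    have e : ∀ x, (f x - c) ^ 2 = f x ^ 2 - 2 * c * f x + c ^ 2 := fun x => by ring
    simp only [e]
    have i3 : IntegrableOn (fun x => 2 * c * f x) Ω := i1.const_mul _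
    have i4 : IntegrableOn (fun x => f x ^ 2 - 2 * c * f x) Ω := i2.sub i3
    rw [integral_add i4 (ic _), integral_sub i2 i3,
      integral_const_mul, setIntegral_const, hreal, smul_eq_mul]
    have : ∫ y in Ω, f y = c * A := by rw [hc]; field_simp
    rw [this]
    field_simp
    ring

theorem FF_le {K L : ℝ} {φ ψ χ ω : ℝ → ℝ} (h : Prof K φ ψ) (h2 : Prof2 L χ ω) {Ω : Set E}
    (hΩ : IsOpen Ω) (hb : Bornology.IsBounded Ω) (hne : Ω.Nonempty) {p : E}
    (hs : ∀ x ∈ Ω, (2 : ℝ) • p - x ∈ Ω) :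
    FF 4 Ω ≤ 2 * Real.pi ^ 2 * (2 * K + L) := by
  have hm : MeasurableSet Ω := hΩ.measurableSet
  have hfin : volume Ω ≠ ⊤ := hb.measure_lt_top.ne
  have hpos : 0 < volume Ω := hΩ.measure_pos volume hne
  set A : ℝ := (volume Ω).toReal with hAdef
  have hA : 0 < A := ENNReal.toReal_pos hpos.ne' hfin
  have hpi := Real.pi_pos
  have hK1 : (1 : ℝ) < K := by have := h.K_lo; linarith
  have hK0 : (0 : ℝ) < K := by linarith
  have hL4 : (4 : ℝ) < L := by have := h2.L_lo; linarith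
  have hL0 : (0 : ℝ) < L := by linarith
  set xb : E := A⁻¹ • ∫ y in Ω, y with hxb
  set I : ℝ := ∫ x in Ω, ‖x - xb‖ ^ 2 with hI
  have hI0 : 0 ≤ I := integral_nonneg fun x => by positivity
  -- the centroid is the centre of symmetry
  have hxp : xb = p := by
    have h3 : ∫ y in Ω, ((2 : ℝ) • p - y) = ∫ y in Ω, y := ub_refl hs (fun y : E => y)
    have ic : IntegrableOn (fun _ : E => (2 : ℝ) • p) Ω := Pool.Agent.Neu.intOn continuous_const hb
    have iy : IntegrableOn (fun y : E => y) Ω := Pool.Agent.Neu.intOn continuous_id hb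
    rw [integral_sub ic iy, setIntegral_const] at h3
    have hreal : volume.real Ω = A := rfl
    rw [hreal] at h3
    have h4 : (2 : ℝ) • ∫ y in Ω, y = (2 : ℝ) • (A • p) := by
      rw [two_smul ℝ (∫ y in Ω, y), smul_comm]
      nth_rewrite 1 [← h3]
      abel
    have h5 : ∫ y in Ω, y = A • p := by
      have := congrArg (fun z : E => (2 : ℝ)⁻¹ • z) h4
      simpa [smul_smul] using this
    rw [hxb, h5, smul_smul, inv_mul_cancel₀ hA.ne', one_smul]
  set σ : ℝ := √(Real.pi / A) with hσdef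
  have hσ : 0 < σ := Real.sqrt_pos.2 (by positivity)
  have hσ2 : σ ^ 2 = Real.pi / A := Real.sq_sqrt (by positivity)
  have hσA : σ ^ 2 * A = Real.pi := by rw [hσ2]; field_simp
  obtain ⟨a, b, c, t0, t1, t2⟩ := h.exists_T hm hb hσ hσA
  set W : Set E := T σ a b c '' Ω with hWdef
  have hWm : MeasurableSet W := measurableSet_T hσ a b c hm
  have hWb : Bornology.IsBounded W := isBounded_T σ a b c hb
  have hWv : volume W = ENNReal.ofReal Real.pi := by
    rw [hWdef, volume_T hσ a b c hm, ← ENNReal.ofReal_toReal hfin,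
      ← ENNReal.ofReal_mul (by positivity), ← hAdef, hσA]
  have key := fun f : E → ℝ => integral_T hσ a b c hm f
  have w0 : ∀ i, ∫ y in W, w φ i y = 0 := by
    intro i
    rw [hWdef, key, t0 i, mul_zero]
  have w1 : ∫ y in W, (w φ 0 y ^ 2 - w φ 1 y ^ 2) = 0 := by
    rw [hWdef, key (fun y => w φ 0 y ^ 2 - w φ 1 y ^ 2), t1, mul_zero]
  have w2 : ∫ y in W, w φ 0 y * w φ 1 y = 0 := by
    rw [hWdef, key (fun y => w φ 0 y * w φ 1 y), t2, mul_zero]
  -- the centre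
  have hTx : ∀ x, T σ a b c ((2 : ℝ) • p - x) = (2 : ℝ) • T σ a b c p - T σ a b c x :=
    ub_T_refl σ a b c p
  have hWo : IsOpen W := ub_open hσ a b c hΩ
  have hz : T σ a b c p = 0 := by
    refine center_zero h hWo hWb (hne.image _) (z := T σ a b c p) ?_ w0
    rintro y ⟨x, hx, rfl⟩
    exact ⟨(2 : ℝ) • p - x, hs x hx, hTx x⟩
  have hTn : ∀ x, T σ a b c ((2 : ℝ) • p - x) = -T σ a b c x := by
    intro x
    rw [hTx, hz, smul_zero, zero_sub]
  -- the right-hand side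
  have hR : ∫ y in W, N (Qp σ a b) (Qm σ a b) (Qr σ a b) y = σ ^ 2 * (σ ^ 4 * I) := by
    rw [hWdef, key (fun y => N (Qp σ a b) (Qm σ a b) (Qr σ a b) y)]
    congr 1
    rw [hI, ← integral_const_mul]
    refine integral_congr_ae (Filter.Eventually.of_forall fun x => ?_)
    have := N_T σ a b c x xb
    rw [hxp, hz, sub_zero] at this
    rw [hxp]
    exact this
  -- trial functions of the first kind
  set v : Fin 2 → E → ℝ := fun i x => w φ i (T σ a b c x) with hv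
  have vc : ∀ i, ContDiff ℝ 1 (v i) := fun i => h.contDiff_wT σ a b c i
  have hmain := h.main_ineq hWm hWb hWv w0 w1 w2 (Qp_nonneg σ a b) (Qr_nonneg σ a b) (Qdet σ a b)
    (fun i => centroid_T hσ a b c hm hb hσA i)
  have hR' : ∫ y in W, N (Qp σ a b) (Qm σ a b) (Qr σ a b) (y - T σ a b c xb)
      = σ ^ 2 * (σ ^ 4 * I) := by
    rw [hxp, hz]
    simp only [sub_zero]
    exact hR
  have hgr : Continuous fun x => ‖fderiv ℝ (v 0) x‖ ^ 2 :=
    ((vc 0).continuous_fderiv one_ne_zero).norm.pow 2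
  have hgr1 : Continuous fun x => ‖fderiv ℝ (v 1) x‖ ^ 2 :=
    ((vc 1).continuous_fderiv one_ne_zero).norm.pow 2
  have hE : (∫ x in Ω, ‖fderiv ℝ (v 0) x‖ ^ 2) + ∫ x in Ω, ‖fderiv ℝ (v 1) x‖ ^ 2
      = ∫ x in Ω, eQ φ ψ (Qp σ a b) (Qm σ a b) (Qr σ a b) (T σ a b c x) := by
    rw [← integral_add (intOn hgr hb) (intOn hgr1 hb)]
    exact integral_congr_ae (Filter.Eventually.of_forall fun x => h.grad_wT σ a b c x)
  have hE3 : (∫ x in Ω, ‖fderiv ℝ (v 0) x‖ ^ 2) + ∫ x in Ω, ‖fderiv ℝ (v 1) x‖ ^ 2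
      ≤ 2 * (K - 1) * (σ ^ 4 * I) := by
    have hE2 : σ ^ 2 * ((∫ x in Ω, ‖fderiv ℝ (v 0) x‖ ^ 2) + ∫ x in Ω, ‖fderiv ℝ (v 1) x‖ ^ 2)
        ≤ 2 * (K - 1) * (σ ^ 2 * (σ ^ 4 * I)) := by
      rw [hE, ← hR', ← key]
      exact hmain
    have : 2 * (K - 1) * (σ ^ 2 * (σ ^ 4 * I)) = σ ^ 2 * (2 * (K - 1) * (σ ^ 4 * I)) := by ring
    rw [this] at hE2
    exact le_of_mul_le_mul_left hE2 (by positivity)
  have i0 : IntegrableOn (fun x => v 0 x ^ 2) Ω := intOn ((vc 0).continuous.pow 2) hb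
  have i1 : IntegrableOn (fun x => v 1 x ^ 2) Ω := intOn ((vc 1).continuous.pow 2) hb
  have hsum : (∫ x in Ω, v 0 x ^ 2) + ∫ x in Ω, v 1 x ^ 2
      = ∫ x in Ω, Pool.Agent.Neu.sq (T σ a b c x) * φ (Pool.Agent.Neu.sq (T σ a b c x)) ^ 2 := by
    rw [← integral_add i0 i1]
    refine integral_congr_ae (Filter.Eventually.of_forall fun x => ?_)
    simp only [hv, w, Pool.Agent.Neu.sq]
    ring
  have hdiff : (∫ x in Ω, v 0 x ^ 2) - ∫ x in Ω, v 1 x ^ 2 = 0 := by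
    rw [← integral_sub i0 i1]
    exact t1
  have hmass : Real.pi * (1 - 1 / K)
      ≤ σ ^ 2 * ∫ x in Ω, Pool.Agent.Neu.sq (T σ a b c x)
        * φ (Pool.Agent.Neu.sq (T σ a b c x)) ^ 2 := by
    rw [← key (fun y => Pool.Agent.Neu.sq y * φ (Pool.Agent.Neu.sq y) ^ 2)]
    exact h.mass_ge hWm hWv
  set M : ℝ := ∫ x in Ω, v 0 x ^ 2 with hM
  have hM1 : ∫ x in Ω, v 1 x ^ 2 = M := by linarith
  have hMge : A * (1 - 1 / K) ≤ 2 * M := by
    rw [← hsum, hM1, hσ2] at hmass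
    have : Real.pi / A * (M + M) = Real.pi * (2 * M / A) := by ring
    rw [this] at hmass
    have h3 := le_of_mul_le_mul_left hmass hpi
    rwa [le_div_iff₀ hA, mul_comm] at h3
  have hK2 : 0 < 1 - 1 / K := by
    have : 1 / K < 1 := by rw [div_lt_one hK0]; exact hK1
    linarith
  have hMpos : 0 < M := by
    have : 0 < A * (1 - 1 / K) := mul_pos hA hK2
    linarith
  -- trial functions of the second kind
  set V : Fin 2 → E → ℝ := fun i x => vv χ i (T σ a b c x) with hV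
  have Vc : ∀ i, ContDiff ℝ 1 (V i) := fun i => contDiff_vT h2 σ a b c i
  set U : Fin 2 → E → ℝ := fun i x => V i x - (∫ y in Ω, V i y) / A with hU
  have Uc : ∀ i, ContDiff ℝ 1 (U i) := fun i => (Vc i).sub contDiff_const
  have Uvar := fun i => ub_var hb (Vc i).continuous hAdef hA
  have U0 : ∀ i, ∫ x in Ω, U i x = 0 := fun i => (Uvar i).1
  have Uv : ∀ j i, ∫ x in Ω, U j x * v i x = 0 := by
    intro j i
    refine ub_odd hs fun x => ?_
    simp only [hU, hv, hV, hTn, ub_w_neg, ub_vv_neg]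
    ring
  have hUf : ∀ i x, fderiv ℝ (U i) x = fderiv ℝ (V i) x := by
    intro i x
    simp only [hU]
    exact fderiv_sub_const _
  have hEU : (∫ x in Ω, ‖fderiv ℝ (U 0) x‖ ^ 2) + ∫ x in Ω, ‖fderiv ℝ (U 1) x‖ ^ 2
      ≤ 2 * (L - 4) * (σ ^ 4 * I) := by
    have c0 : Continuous fun x => ‖fderiv ℝ (V 0) x‖ ^ 2 :=
      ((Vc 0).continuous_fderiv one_ne_zero).norm.pow 2
    have c1 : Continuous fun x => ‖fderiv ℝ (V 1) x‖ ^ 2 :=
      ((Vc 1).continuous_fderiv one_ne_zero).norm.pow 2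
    have e1 : (∫ x in Ω, ‖fderiv ℝ (U 0) x‖ ^ 2) + ∫ x in Ω, ‖fderiv ℝ (U 1) x‖ ^ 2
        = ∫ x in Ω, eV χ ω (Qp σ a b) (Qm σ a b) (Qr σ a b) (T σ a b c x) := by
      simp only [hUf]
      rw [← integral_add (intOn c0 hb) (intOn c1 hb)]
      exact integral_congr_ae (Filter.Eventually.of_forall fun x => grad_vT h2 σ a b c x)
    have e2 := energy_le h h2 hWm hWb hWv w1 w2 (Qp_nonneg σ a b) (Qr_nonneg σ a b) (Qdet σ a b)
    rw [hR, hWdef, key, ← e1] at e2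
    have : 2 * (L - 4) * (σ ^ 2 * (σ ^ 4 * I)) = σ ^ 2 * (2 * (L - 4) * (σ ^ 4 * I)) := by ring
    rw [this] at e2
    exact le_of_mul_le_mul_left e2 (by positivity)
  have hmU : A * (1 - 4 / L) ≤ (∫ x in Ω, U 0 x ^ 2) + ∫ x in Ω, U 1 x ^ 2 := by
    have e1 := mass_ge2 h h2 hWm hWb hWv w1 w2
    rw [hWdef, key (fun y => vv χ 0 y), key (fun y => vv χ 1 y),
      key (fun y => vv χ 0 y ^ 2 + vv χ 1 y ^ 2)] at e1
    rw [(Uvar 0).2, (Uvar 1).2]
    have j0 : IntegrableOn (fun x => V 0 x ^ 2) Ω := intOn ((Vc 0).continuous.pow 2) hb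
    have j1 : IntegrableOn (fun x => V 1 x ^ 2) Ω := intOn ((Vc 1).continuous.pow 2) hb
    have e2 : ∫ x in Ω, (vv χ 0 (T σ a b c x) ^ 2 + vv χ 1 (T σ a b c x) ^ 2)
        = (∫ x in Ω, V 0 x ^ 2) + ∫ x in Ω, V 1 x ^ 2 := integral_add j0 j1
    rw [e2] at e1
    change Real.pi * (1 - 4 / L) + ((σ ^ 2 * ∫ x in Ω, V 0 x) ^ 2
      + (σ ^ 2 * ∫ x in Ω, V 1 x) ^ 2) / Real.pi ≤ _ at e1
    set S0 := ∫ x in Ω, V 0 x
    set S1 := ∫ x in Ω, V 1 x
    set R := (∫ x in Ω, V 0 x ^ 2) + ∫ x in Ω, V 1 x ^ 2 with hRR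
    have e3 : (∫ x in Ω, V 0 x ^ 2) - S0 ^ 2 / A + ((∫ x in Ω, V 1 x ^ 2) - S1 ^ 2 / A)
        = R - (S0 ^ 2 + S1 ^ 2) / A := by rw [hRR]; ring
    rw [e3]
    rw [mul_pow, mul_pow, hσ2] at e1
    have e4 : ((Real.pi / A) ^ 2 * S0 ^ 2 + (Real.pi / A) ^ 2 * S1 ^ 2) / Real.pi
        = Real.pi * ((S0 ^ 2 + S1 ^ 2) / A / A) := by field_simp
    have e5 : Real.pi / A * R = Real.pi * (R / A) := by ring
    rw [e4, e5, ← mul_add] at e1
    have e6 := le_of_mul_le_mul_left e1 hpi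
    rw [le_div_iff₀ hA] at e6
    have e7 : (1 - 4 / L + (S0 ^ 2 + S1 ^ 2) / A / A) * A
        = A * (1 - 4 / L) + (S0 ^ 2 + S1 ^ 2) / A := by field_simp
    linarith
  have hL2 : 0 < 1 - 4 / L := by
    have : 4 / L < 1 := by rw [div_lt_one hL0]; exact hL4
    linarith
  set Λ : ℝ := 2 * L * (σ ^ 4 * I) / A with hΛ
  have hΛ0 : 0 ≤ Λ := by positivity
  have hEL : (∫ x in Ω, ‖fderiv ℝ (U 0) x‖ ^ 2) + ∫ x in Ω, ‖fderiv ℝ (U 1) x‖ ^ 2
      ≤ Λ * ((∫ x in Ω, U 0 x ^ 2) + ∫ x in Ω, U 1 x ^ 2) := by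
    refine hEU.trans (le_trans (le_of_eq ?_) (mul_le_mul_of_nonneg_left hmU hΛ0))
    rw [hΛ]
    field_simp
  have hUm : 0 < (∫ x in Ω, U 0 x ^ 2) + ∫ x in Ω, U 1 x ^ 2 :=
    lt_of_lt_of_le (mul_pos hA hL2) hmU
  have nn : ∀ f : E → ℝ, 0 ≤ ∫ x in Ω, f x ^ 2 := fun f => integral_nonneg fun x => sq_nonneg _
  have nn2 : ∀ f : E → ℝ, 0 ≤ ∫ x in Ω, ‖fderiv ℝ f x‖ ^ 2 := fun f =>
    integral_nonneg fun x => sq_nonneg _
  obtain ⟨j, hj0, hj1⟩ : ∃ j : Fin 2, 0 < (∫ x in Ω, U j x ^ 2) ∧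
      (∫ x in Ω, ‖fderiv ℝ (U j) x‖ ^ 2) ≤ Λ * ∫ x in Ω, U j x ^ 2 := by
    rcases ub_pick (nn2 (U 0)) (nn2 (U 1)) (nn (U 0)) (nn (U 1)) hUm hEL with hq | hq
    · exact ⟨0, hq⟩
    · exact ⟨1, hq⟩
  have hmu := mu_sum3 hΩ hb hne vc (Uc j) t0 t2 hMpos (by
    intro i
    fin_cases i
    · rfl
    · exact hM1) (U0 j) (Uv j) hj0 rfl
  have hfin2 : mu Ω 2 + mu Ω 3 + mu Ω 4 ≤ 2 * (K - 1) * (σ ^ 4 * I) / M + Λ := by
    refine hmu.trans (add_le_add (div_le_div_of_nonneg_right hE3 hMpos.le) ?_)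
    rw [div_le_iff₀ hj0]
    exact hj1
  have hfin3 : 2 * (K - 1) * (σ ^ 4 * I) / M ≤ 4 * K * (σ ^ 4 * I) / A := by
    rw [div_le_div_iff₀ hMpos hA]
    have e2 : 2 * (K - 1) * (σ ^ 4 * I) * A = 2 * K * (σ ^ 4 * I) * (A * (1 - 1 / K)) := by
      field_simp
    rw [e2]
    have e3 : 4 * K * (σ ^ 4 * I) * M = 2 * K * (σ ^ 4 * I) * (2 * M) := by ring
    rw [e3]
    exact mul_le_mul_of_nonneg_left hMge (by positivity)
  have hsum4 : ∑ k ∈ Finset.Icc 2 4, mu Ω k = mu Ω 2 + mu Ω 3 + mu Ω 4 := by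
    have : Finset.Icc 2 4 = ({2, 3, 4} : Finset ℕ) := by decide
    rw [this, Finset.sum_insert (by decide), Finset.sum_pair (by decide)]
    ring
  unfold FF
  rw [hsum4]
  change (mu Ω 2 + mu Ω 3 + mu Ω 4) * A ^ 3 / I ≤ _
  rcases hI0.eq_or_lt with hI00 | hIpos
  · rw [← hI00, div_zero]; positivity
  rw [div_le_iff₀ hIpos]
  have hσ4 : σ ^ 4 = (Real.pi / A) ^ 2 := by rw [← hσ2]; ring
  have hfin4 : mu Ω 2 + mu Ω 3 + mu Ω 4 ≤ 2 * (2 * K + L) * (σ ^ 4 * I) / A := by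
    refine hfin2.trans ((add_le_add hfin3 le_rfl).trans (le_of_eq ?_))
    rw [hΛ]
    ring
  refine (mul_le_mul_of_nonneg_right hfin4 (by positivity)).trans (le_of_eq ?_)
  rw [hσ4]
  field_simp

end Pool.Agent.CS4
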