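import Pool.Agent.CS4.Defs
import Pool.Agent.CS4.UB
import Pool.Agent.CS4.DL
import Pool.Agent.CS4.Bes
import Pool.Agent.Neu.Bes

/-!
CS4-Final.
-/

set_option autoImplicit false

open MeasureTheory Set
open Pool.Agent.Neu
open Pool.Agent.NSY (FF)

namespace Pool.Agent.CS4

theorem main {Ω : Set E} (hΩ : IsOpen Ω) (hb : Bornology.IsBounded Ω) (hne : Ω.Nonempty) {p : E}
    (hs : ∀ x ∈ Ω, (2 : ℝ) • p - x ∈ Ω) : FF 4 Ω ≤ FF 4 D := by
  obtain ⟨K, φ, ψ, h⟩ := exists_prof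
  obtain ⟨L, χ, ω, h2⟩ := exists_prof2
  exact (FF_le h h2 hΩ hb hne hs).trans (FF_disc_ge h h2)

end Pool.Agent.CS4
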